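import Pool.Agent.Lib.MP_31db24_co.Defs

/-!
# Module A of MP_31db24_co: the analytic core

`analyticCore : ReturnZero → AnalyticCore`.
Herglotz measures of the indicator functions (compactness of finite measures on the circle, limits
along an ultrafilter), a Wiener lemma for measures without atoms, a pigeonhole selection of many
elements of a set of positive density whose differences of squares have small Fourier coefficients,
and a Cauchy-Schwarz argument.
-/

set_option autoImplicit false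

open MeasureTheory Filter Topology Complex AddCircle

namespace Pool.Agent.MP31db24.An

/-! ## characters -/

noncomputable def ee (m : ℤ) (θ : TT) : ℂ := fourier m θ

lemma ee_continuous (m : ℤ) : Continuous (ee m) := (fourier m : C(TT, ℂ)).continuous

lemma ee_add (m n : ℤ) (θ : TT) : ee (m + n) θ = ee m θ * ee n θ := fourier_add

lemma ee_neg (m : ℤ) (θ : TT) : ee (-m) θ = (starRingEnd ℂ) (ee m θ) := fourier_neg

lemma ee_norm (m : ℤ) (θ : TT) : ‖ee m θ‖ = 1 := by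
  unfold ee; rw [fourier_apply]; exact Circle.norm_coe _

lemma ee_zero (θ : TT) : ee 0 θ = 1 := fourier_zero

lemma ee_sub (m n : ℤ) (θ : TT) : ee (m - n) θ = ee m θ * (starRingEnd ℂ) (ee n θ) := by
  rw [sub_eq_add_neg, ee_add, ee_neg]

lemma ee_integral (m : ℤ) : ∫ θ : TT, ee m θ ∂haarAddCircle = if m = 0 then 1 else 0 := by
  have h := fourierCoeff_fourier (T := (1 : ℝ)) m
  have h0 := congrFun h 0
  unfold fourierCoeff at h0
  simp only [neg_zero] at h0
  have : ∀ t : TT, fourier 0 t • fourier m t = ee m t := by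
    intro t; rw [fourier_zero, one_smul]; rfl
  simp only [this] at h0
  rw [h0]
  by_cases hm : m = 0
  · subst hm; simp
  · rw [if_neg hm, Pi.single_eq_of_ne (Ne.symm hm)]

lemma ee_integrable (m : ℤ) (μ : Measure TT) [IsFiniteMeasure μ] : Integrable (ee m) μ := by
  refine Integrable.of_bound (ee_continuous m).aestronglyMeasurable 1 ?_
  exact Filter.Eventually.of_forall (fun θ => (ee_norm m θ).le)

lemma cont_integrable {E : Type*} [NormedAddCommGroup E] (f : TT → E) (hf : Continuous f)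
    (μ : Measure TT) [IsFiniteMeasure μ] : Integrable f μ := by
  exact hf.integrable_of_hasCompactSupport (HasCompactSupport.of_compactSpace f)

lemma ee_re_integral (m : ℤ) :
    ∫ θ : TT, (ee m θ).re ∂haarAddCircle = if m = 0 then 1 else 0 := by
  have h := integral_re (𝕜 := ℂ) (ee_integrable m (haarAddCircle (T := 1)))
  have h2 : ∫ θ : TT, (ee m θ).re ∂haarAddCircle = (∫ θ : TT, ee m θ ∂haarAddCircle).re := h
  rw [h2, ee_integral]
  split_ifs <;> simp

/-! ## Herglotz -/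

noncomputable def PP (F : ℤ → ℝ) (L : ℕ) (θ : TT) : ℂ :=
  ∑ n ∈ Finset.range L, (F n : ℂ) * ee n θ

noncomputable def gg (F : ℤ → ℝ) (L : ℕ) (θ : TT) : ℝ := (1 / (L : ℝ)) * ‖PP F L θ‖ ^ 2

lemma PP_continuous (F : ℤ → ℝ) (L : ℕ) : Continuous (PP F L) := by
  unfold PP
  exact continuous_finsetSum _ (fun n _ => continuous_const.mul (ee_continuous n))

lemma gg_continuous (F : ℤ → ℝ) (L : ℕ) : Continuous (gg F L) := by
  unfold gg
  exact continuous_const.mul ((PP_continuous F L).norm.pow 2)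

lemma gg_nonneg (F : ℤ → ℝ) (L : ℕ) (θ : TT) : 0 ≤ gg F L θ := by
  unfold gg; positivity

lemma gg_mul_re (F : ℤ → ℝ) (L : ℕ) (j : ℤ) (θ : TT) :
    gg F L θ * (ee j θ).re = (1 / (L : ℝ)) * ∑ n ∈ Finset.range L, ∑ m ∈ Finset.range L,
      F n * F m * (ee (j + n - m) θ).re := by
  have h1 : ((‖PP F L θ‖ ^ 2 : ℝ) : ℂ) * ee j θ =
      ∑ n ∈ Finset.range L, ∑ m ∈ Finset.range L, ((F n * F m : ℝ) : ℂ) * ee (j + n - m) θ := by
    have h2 : ((‖PP F L θ‖ ^ 2 : ℝ) : ℂ) = PP F L θ * (starRingEnd ℂ) (PP F L θ) := by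
      rw [Complex.mul_conj']; push_cast; rfl
    rw [h2]
    unfold PP
    rw [map_sum, Finset.sum_mul_sum, Finset.sum_mul]
    refine Finset.sum_congr rfl (fun n _ => ?_)
    rw [Finset.sum_mul]
    refine Finset.sum_congr rfl (fun m _ => ?_)
    rw [ee_sub, ee_add, map_mul, Complex.conj_ofReal]
    push_cast
    ring
  have h3 := congrArg Complex.re h1
  rw [Complex.re_ofReal_mul, Complex.re_sum] at h3
  unfold gg
  rw [mul_assoc, h3]
  congr 1
  refine Finset.sum_congr rfl (fun n _ => ?_)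
  rw [Complex.re_sum]
  refine Finset.sum_congr rfl (fun m _ => ?_)
  rw [Complex.re_ofReal_mul]

lemma gg_integral (F : ℤ → ℝ) (L : ℕ) (j : ℤ) :
    ∫ θ : TT, gg F L θ * (ee j θ).re ∂haarAddCircle = (1 / (L : ℝ)) *
      ∑ n ∈ Finset.range L, ∑ m ∈ Finset.range L, F n * F m * (if j + n - m = 0 then 1 else 0) := by
  simp_rw [gg_mul_re]
  rw [integral_const_mul]
  congr 1
  have hint : ∀ n m : ℕ, Integrable (fun θ : TT => F n * F m * (ee (j + n - m) θ).re)
      haarAddCircle := by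
    intro n m
    exact (cont_integrable _ (Complex.continuous_re.comp (ee_continuous _)) _).const_mul _
  rw [integral_finsetSum _ (fun n _ => integrable_finsetSum _ (fun m _ => hint n m))]
  refine Finset.sum_congr rfl (fun n _ => ?_)
  rw [integral_finsetSum _ (fun m _ => hint n m)]
  refine Finset.sum_congr rfl (fun m _ => ?_)
  rw [integral_const_mul, ee_re_integral]

/-- comparison of the Fourier coefficients with the averages -/
lemma corr_close (F : ℤ → ℝ) (h0 : ∀ n, 0 ≤ F n) (h1 : ∀ n, F n ≤ 1) (L : ℕ) (j : ℤ) :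
    |(∑ n ∈ Finset.range L, ∑ m ∈ Finset.range L, F n * F m * (if j + n - m = 0 then 1 else 0))
      - ∑ n ∈ Finset.range L, F n * F (n + j)| ≤ |(j : ℝ)| := by
  classical
  have hterm : ∀ n ∈ Finset.range L,
      ∑ m ∈ Finset.range L, F n * F m * (if j + (n : ℤ) - m = 0 then (1 : ℝ) else 0) =
        if (0 ≤ (n : ℤ) + j ∧ (n : ℤ) + j < L) then F n * F (n + j) else 0 := by
    intro n _
    by_cases hc : 0 ≤ (n : ℤ) + j ∧ (n : ℤ) + j < L
    · rw [if_pos hc]
      obtain ⟨hc1, hc2⟩ := hc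
      obtain ⟨p, hp⟩ := Int.eq_ofNat_of_zero_le hc1
      have hpL : p ∈ Finset.range L := by rw [Finset.mem_range]; omega
      rw [Finset.sum_eq_single_of_mem p hpL]
      · rw [if_pos (by omega), hp]; simp
      · intro m _ hmp
        rw [if_neg (by omega), mul_zero]
    · rw [if_neg hc]
      refine Finset.sum_eq_zero (fun m hm => ?_)
      rw [Finset.mem_range] at hm
      rw [if_neg (by omega), mul_zero]
  rw [Finset.sum_congr rfl hterm, ← Finset.sum_sub_distrib]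
  refine (Finset.abs_sum_le_sum_abs _ _).trans ?_
  have hle : ∀ n ∈ Finset.range L,
      |(if (0 ≤ (n : ℤ) + j ∧ (n : ℤ) + j < L) then F n * F (n + j) else 0) - F n * F (n + j)| ≤
        if (0 ≤ (n : ℤ) + j ∧ (n : ℤ) + j < L) then 0 else 1 := by
    intro n _
    split_ifs
    · simp
    · rw [zero_sub, abs_neg, abs_of_nonneg (mul_nonneg (h0 _) (h0 _))]
      exact mul_le_one₀ (h1 _) (h0 _) (h1 _)
  refine (Finset.sum_le_sum hle).trans ?_
  have hcard : ∑ n ∈ Finset.range L, (if (0 ≤ (n : ℤ) + j ∧ (n : ℤ) + j < L) then (0 : ℝ) else 1) =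
      (((Finset.range L).filter (fun n : ℕ => ¬ (0 ≤ (n : ℤ) + j ∧ (n : ℤ) + j < L))).card : ℝ) := by
    rw [Finset.card_filter]
    push_cast
    refine Finset.sum_congr rfl (fun n _ => ?_)
    split_ifs <;> simp_all
  rw [hcard]
  have hb : ((Finset.range L).filter (fun n : ℕ => ¬ (0 ≤ (n : ℤ) + j ∧ (n : ℤ) + j < L))).card ≤
      j.natAbs := by
    rcases le_or_gt 0 j with hj | hj
    · have hsub : (Finset.range L).filter (fun n : ℕ => ¬ (0 ≤ (n : ℤ) + j ∧ (n : ℤ) + j < L)) ⊆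
          Finset.Ico (L - j.natAbs) L := by
        intro n hn
        rw [Finset.mem_filter, Finset.mem_range] at hn
        rw [Finset.mem_Ico]
        omega
      refine (Finset.card_le_card hsub).trans ?_
      rw [Nat.card_Ico]; omega
    · have hsub : (Finset.range L).filter (fun n : ℕ => ¬ (0 ≤ (n : ℤ) + j ∧ (n : ℤ) + j < L)) ⊆
          Finset.range j.natAbs := by
        intro n hn
        rw [Finset.mem_filter, Finset.mem_range] at hn
        rw [Finset.mem_range]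
        omega
      refine (Finset.card_le_card hsub).trans ?_
      rw [Finset.card_range]
  have hb' : (((Finset.range L).filter
      (fun n : ℕ => ¬ (0 ≤ (n : ℤ) + j ∧ (n : ℤ) + j < L))).card : ℝ) ≤ (j.natAbs : ℝ) := by
    exact_mod_cast hb
  refine hb'.trans ?_
  rw [Nat.cast_natAbs, Int.cast_abs]

noncomputable def muL (F : ℤ → ℝ) (L : ℕ) : Measure TT :=
  haarAddCircle.withDensity (fun θ => ENNReal.ofReal (gg F L θ))

lemma muL_integral (F : ℤ → ℝ) (L : ℕ) (f : TT → ℝ) :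
    ∫ θ, f θ ∂(muL F L) = ∫ θ, gg F L θ * f θ ∂haarAddCircle := by
  unfold muL
  rw [integral_withDensity_eq_integral_toReal_smul
    (gg_continuous F L).measurable.ennreal_ofReal
    (Filter.Eventually.of_forall (fun θ => ENNReal.ofReal_lt_top))]
  refine integral_congr_ae (Filter.Eventually.of_forall (fun θ => ?_))
  simp only [smul_eq_mul]
  rw [ENNReal.toReal_ofReal (gg_nonneg F L θ)]

lemma muL_univ (F : ℤ → ℝ) (h0 : ∀ n, 0 ≤ F n) (h1 : ∀ n, F n ≤ 1) (L : ℕ) :
    muL F L Set.univ ≤ 1 := by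
  unfold muL
  rw [withDensity_apply _ MeasurableSet.univ, Measure.restrict_univ,
    ← ofReal_integral_eq_lintegral_ofReal (cont_integrable _ (gg_continuous F L) _)
      (Filter.Eventually.of_forall (fun θ => gg_nonneg F L θ))]
  have h := gg_integral F L 0
  have h2 : ∫ θ : TT, gg F L θ * (ee 0 θ).re ∂haarAddCircle = ∫ θ : TT, gg F L θ ∂haarAddCircle := by
    refine integral_congr_ae (Filter.Eventually.of_forall (fun θ => ?_))
    simp only [ee_zero, Complex.one_re, mul_one]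
  rw [← h2, h]
  have h3 : ∑ n ∈ Finset.range L, ∑ m ∈ Finset.range L,
      F n * F m * (if (0 : ℤ) + n - m = 0 then (1 : ℝ) else 0) ≤ L := by
    have h4 : ∀ n ∈ Finset.range L, ∑ m ∈ Finset.range L,
        F n * F m * (if (0 : ℤ) + n - m = 0 then (1 : ℝ) else 0) ≤ 1 := by
      intro n hn
      rw [Finset.sum_eq_single_of_mem n hn]
      · rw [if_pos (by ring), mul_one]
        exact mul_le_one₀ (h1 _) (h0 _) (h1 _)
      · intro m _ hmn
        rw [if_neg (by omega), mul_zero]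
    refine (Finset.sum_le_sum h4).trans ?_
    simp
  refine ENNReal.ofReal_le_one.2 ?_
  rcases Nat.eq_zero_or_pos L with hL | hL
  · subst hL; simp
  · have hL' : (0 : ℝ) < L := by exact_mod_cast hL
    calc (1 / (L : ℝ)) * _ ≤ (1 / (L : ℝ)) * L := by
          exact mul_le_mul_of_nonneg_left h3 (by positivity)
      _ = 1 := by field_simp

theorem herglotz (F : ℤ → ℝ) (h0 : ∀ n, 0 ≤ F n) (h1 : ∀ n, F n ≤ 1) :
    ∃ μ : Measure TT, IsFiniteMeasure μ ∧ ∀ j : ℤ,
      Tendsto (fun L : ℕ => (1 / (L : ℝ)) * ∑ n ∈ Finset.range L, F n * F (n + j))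
        (hyperfilter ℕ : Filter ℕ) (𝓝 (∫ θ, (ee j θ).re ∂μ)) := by
  have hfin : ∀ L, IsFiniteMeasure (muL F L) := fun L =>
    ⟨(muL_univ F h0 h1 L).trans_lt ENNReal.one_lt_top⟩
  let M : ℕ → FiniteMeasure TT := fun L => ⟨muL F L, hfin L⟩
  have hmass : ∀ L, (M L).mass ≤ 1 := by
    intro L
    have : ((M L).mass : ENNReal) ≤ ((1 : NNReal) : ENNReal) := by
      rw [FiniteMeasure.ennreal_mass]
      exact muL_univ F h0 h1 L
    exact_mod_cast this
  have hcomp := isCompact_setOfPred_finiteMeasure_le_of_compactSpace TT 1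
  obtain ⟨μ, _, hμ⟩ := hcomp.ultrafilter_le_nhds' ((hyperfilter ℕ).map M) (by
    rw [Ultrafilter.mem_map]
    exact Filter.univ_mem' (fun L => hmass L))
  have hT : Tendsto M (hyperfilter ℕ : Filter ℕ) (𝓝 μ) := hμ
  refine ⟨(μ : Measure TT), inferInstance, fun j => ?_⟩
  have hint := (FiniteMeasure.tendsto_iff_forall_integral_tendsto.1 hT)
    (BoundedContinuousFunction.mkOfCompact
      (⟨fun θ => (ee j θ).re, Complex.continuous_re.comp (ee_continuous j)⟩ : C(TT, ℝ)))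
  have hint2 : Tendsto (fun L : ℕ => ∫ θ, (ee j θ).re ∂(muL F L)) (hyperfilter ℕ : Filter ℕ)
      (𝓝 (∫ θ, (ee j θ).re ∂(μ : Measure TT))) := hint
  have hdiff : Tendsto (fun L : ℕ => (1 / (L : ℝ)) * ∑ n ∈ Finset.range L, F n * F (n + j) -
      ∫ θ, (ee j θ).re ∂(muL F L)) (hyperfilter ℕ : Filter ℕ) (𝓝 0) := by
    refine Tendsto.mono_left ?_ Nat.hyperfilter_le_atTop
    have hlim : Tendsto (fun L : ℕ => |(j : ℝ)| / (L : ℝ)) atTop (𝓝 0) :=
      tendsto_const_div_atTop_nhds_zero_nat _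
    refine squeeze_zero_norm (fun L => ?_) hlim
    rw [muL_integral, gg_integral, ← mul_sub, Real.norm_eq_abs, abs_mul,
      abs_of_nonneg (one_div_nonneg.2 (Nat.cast_nonneg L) : (0 : ℝ) ≤ 1 / (L : ℝ)),
      mul_comm, abs_sub_comm]
    refine (mul_le_mul_of_nonneg_right (corr_close F h0 h1 L j)
      (one_div_nonneg.2 (Nat.cast_nonneg L))).trans (le_of_eq ?_)
    ring
  have := hdiff.add hint2
  simpa using this

lemma shift_one (G : ℤ → ℝ) (L : ℕ) (t : ℤ) :
    ∑ n ∈ Finset.range L, G (n + (t + 1)) - ∑ n ∈ Finset.range L, G (n + t) =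
      G (L + t) - G t := by
  have h := Finset.sum_range_sub (fun n : ℕ => G ((n : ℤ) + t)) L
  simp only [Nat.cast_add, Nat.cast_one, Nat.cast_zero, zero_add] at h
  rw [← h, Finset.sum_sub_distrib]
  congr 1
  refine Finset.sum_congr rfl (fun n _ => ?_)
  congr 1
  ring

lemma shift_close (G : ℤ → ℝ) (h0 : ∀ n, 0 ≤ G n) (h1 : ∀ n, G n ≤ 1) (L : ℕ) (t : ℤ) :
    |∑ n ∈ Finset.range L, G (n + t) - ∑ n ∈ Finset.range L, G n| ≤ |(t : ℝ)| := by
  induction t using Int.induction_on with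
  | zero => simp
  | succ i ih =>
    have h := shift_one G L i
    have hb : |G (L + i) - G i| ≤ 1 := by
      rw [abs_le]; constructor <;> linarith [h0 (L + i), h1 (L + i), h0 i, h1 i]
    rw [← h] at hb
    have htri := abs_sub_le (∑ n ∈ Finset.range L, G (n + ((i : ℤ) + 1)))
      (∑ n ∈ Finset.range L, G (n + (i : ℤ))) (∑ n ∈ Finset.range L, G n)
    have e1 : |(((i : ℤ) : ℤ) : ℝ)| = i := by simp
    have e2 : |(((i : ℤ) + 1 : ℤ) : ℝ)| = i + 1 := by
      push_cast; exact abs_of_nonneg (by positivity)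
    rw [e1] at ih
    rw [e2]
    linarith
  | pred i ih =>
    have h := shift_one G L (-(i : ℤ) - 1)
    have hb : |G (L + (-(i : ℤ) - 1)) - G (-(i : ℤ) - 1)| ≤ 1 := by
      rw [abs_le]
      constructor <;> linarith [h0 (L + (-(i : ℤ) - 1)), h1 (L + (-(i : ℤ) - 1)),
        h0 (-(i : ℤ) - 1), h1 (-(i : ℤ) - 1)]
    rw [← h, sub_add_cancel, abs_sub_comm] at hb
    have htri := abs_sub_le (∑ n ∈ Finset.range L, G (n + (-(i : ℤ) - 1)))
      (∑ n ∈ Finset.range L, G (n + (-(i : ℤ)))) (∑ n ∈ Finset.range L, G n)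
    have e1 : |((-(i : ℤ) : ℤ) : ℝ)| = i := by simp
    have e2 : |((-(i : ℤ) - 1 : ℤ) : ℝ)| = i + 1 := by
      push_cast
      rw [show (-(i : ℝ) - 1) = -((i : ℝ) + 1) by ring, abs_neg]
      exact abs_of_nonneg (by positivity)
    rw [e1] at ih
    rw [e2]
    linarith

/-- the limits of correlations -/
lemma corr_tendsto (F : ℤ → ℝ) (h0 : ∀ n, 0 ≤ F n) (h1 : ∀ n, F n ≤ 1) (μ : Measure TT)
    (hμ : ∀ j : ℤ, Tendsto (fun L : ℕ => (1 / (L : ℝ)) * ∑ n ∈ Finset.range L, F n * F (n + j))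
        (hyperfilter ℕ : Filter ℕ) (𝓝 (∫ θ, (ee j θ).re ∂μ))) (s t : ℤ) :
    Tendsto (fun L : ℕ => (1 / (L : ℝ)) * ∑ n ∈ Finset.range L, F (n - s) * F (n - t))
        (hyperfilter ℕ : Filter ℕ) (𝓝 (∫ θ, (ee (s - t) θ).re ∂μ)) := by
  have hdiff : Tendsto (fun L : ℕ => (1 / (L : ℝ)) * ∑ n ∈ Finset.range L, F (n - s) * F (n - t) -
      (1 / (L : ℝ)) * ∑ n ∈ Finset.range L, F n * F (n + (s - t)))
      (hyperfilter ℕ : Filter ℕ) (𝓝 0) := by
    refine Tendsto.mono_left ?_ Nat.hyperfilter_le_atTop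
    have hlim : Tendsto (fun L : ℕ => |((-s : ℤ) : ℝ)| / (L : ℝ)) atTop (𝓝 0) :=
      tendsto_const_div_atTop_nhds_zero_nat _
    refine squeeze_zero_norm (fun L => ?_) hlim
    have hsc := shift_close (fun m => F m * F (m + (s - t)))
      (fun m => mul_nonneg (h0 _) (h0 _)) (fun m => mul_le_one₀ (h1 _) (h0 _) (h1 _)) L (-s)
    have heq : ∑ n ∈ Finset.range L, F (n - s) * F (n - t) =
        ∑ n ∈ Finset.range L, (fun m => F m * F (m + (s - t))) ((n : ℤ) + -s) := by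
      refine Finset.sum_congr rfl (fun n _ => ?_)
      simp only
      congr 2
      ring
    rw [← mul_sub, heq, Real.norm_eq_abs, abs_mul,
      abs_of_nonneg (one_div_nonneg.2 (Nat.cast_nonneg L) : (0 : ℝ) ≤ 1 / (L : ℝ)), mul_comm]
    refine (mul_le_mul_of_nonneg_right hsc
      (one_div_nonneg.2 (Nat.cast_nonneg L))).trans (le_of_eq ?_)
    ring
  have := hdiff.add (hμ (s - t))
  simpa using this

lemma norm_sq_expand {ι : Type*} (I : Finset ι) (c : ι → ℝ) (s : ι → ℤ) (θ : TT) :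
    ‖∑ i ∈ I, (c i : ℂ) * ee (s i) θ‖ ^ 2 =
      ∑ i ∈ I, ∑ j ∈ I, c i * c j * (ee (s i - s j) θ).re := by
  have h2 : ((‖∑ i ∈ I, (c i : ℂ) * ee (s i) θ‖ ^ 2 : ℝ) : ℂ) =
      ∑ i ∈ I, ∑ j ∈ I, ((c i * c j : ℝ) : ℂ) * ee (s i - s j) θ := by
    have h3 : ((‖∑ i ∈ I, (c i : ℂ) * ee (s i) θ‖ ^ 2 : ℝ) : ℂ) =
        (∑ i ∈ I, (c i : ℂ) * ee (s i) θ) *
          (starRingEnd ℂ) (∑ i ∈ I, (c i : ℂ) * ee (s i) θ) := by
      rw [Complex.mul_conj']; push_cast; rfl
    rw [h3, map_sum, Finset.sum_mul_sum]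
    refine Finset.sum_congr rfl (fun n _ => ?_)
    refine Finset.sum_congr rfl (fun m _ => ?_)
    rw [ee_sub, map_mul, Complex.conj_ofReal]
    push_cast
    ring
  have h4 := congrArg Complex.re h2
  rw [Complex.ofReal_re, Complex.re_sum] at h4
  rw [h4]
  refine Finset.sum_congr rfl (fun n _ => ?_)
  rw [Complex.re_sum]
  refine Finset.sum_congr rfl (fun m _ => ?_)
  rw [Complex.re_ofReal_mul]

lemma norm_sq_integral {ι : Type*} (I : Finset ι) (c : ι → ℝ) (s : ι → ℤ) (μ : Measure TT)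
    [IsFiniteMeasure μ] :
    ∫ θ, ‖∑ i ∈ I, (c i : ℂ) * ee (s i) θ‖ ^ 2 ∂μ =
      ∑ i ∈ I, ∑ j ∈ I, c i * c j * ∫ θ, (ee (s i - s j) θ).re ∂μ := by
  have hint : ∀ i j : ι, Integrable (fun θ : TT => c i * c j * (ee (s i - s j) θ).re) μ := by
    intro n m
    exact (cont_integrable _ (Complex.continuous_re.comp (ee_continuous _)) _).const_mul _
  simp_rw [norm_sq_expand]
  rw [integral_finsetSum _ (fun n _ => integrable_finsetSum _ (fun m _ => hint n m))]
  refine Finset.sum_congr rfl (fun n _ => ?_)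
  rw [integral_finsetSum _ (fun m _ => hint n m)]
  refine Finset.sum_congr rfl (fun m _ => ?_)
  rw [integral_const_mul]

theorem quad_tendsto (F : ℤ → ℝ) (h0 : ∀ n, 0 ≤ F n) (h1 : ∀ n, F n ≤ 1) (μ : Measure TT)
    [IsFiniteMeasure μ]
    (hμ : ∀ j : ℤ, Tendsto (fun L : ℕ => (1 / (L : ℝ)) * ∑ n ∈ Finset.range L, F n * F (n + j))
        (hyperfilter ℕ : Filter ℕ) (𝓝 (∫ θ, (ee j θ).re ∂μ)))
    {ι : Type*} (I : Finset ι) (c : ι → ℝ) (s : ι → ℤ) :
    Tendsto (fun L : ℕ => (1 / (L : ℝ)) * ∑ n ∈ Finset.range L, (∑ i ∈ I, c i * F (n - s i)) ^ 2)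
        (hyperfilter ℕ : Filter ℕ) (𝓝 (∫ θ, ‖∑ i ∈ I, (c i : ℂ) * ee (s i) θ‖ ^ 2 ∂μ)) := by
  rw [norm_sq_integral]
  have h : ∀ L : ℕ, (1 / (L : ℝ)) * ∑ n ∈ Finset.range L, (∑ i ∈ I, c i * F (n - s i)) ^ 2 =
      ∑ i ∈ I, ∑ j ∈ I, c i * c j *
        ((1 / (L : ℝ)) * ∑ n ∈ Finset.range L, F (n - s i) * F (n - s j)) := by
    intro L
    have e1 : ∀ n : ℕ, (∑ i ∈ I, c i * F (n - s i)) ^ 2 =
        ∑ i ∈ I, ∑ j ∈ I, (c i * c j) * (F (n - s i) * F (n - s j)) := by
      intro n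
      rw [sq, Finset.sum_mul_sum]
      refine Finset.sum_congr rfl (fun i _ => Finset.sum_congr rfl (fun j _ => ?_))
      ring
    simp_rw [e1]
    rw [Finset.sum_comm, Finset.mul_sum]
    refine Finset.sum_congr rfl (fun i _ => ?_)
    rw [Finset.sum_comm, Finset.mul_sum]
    refine Finset.sum_congr rfl (fun j _ => ?_)
    rw [← Finset.mul_sum]
    ring
  simp_rw [h]
  refine tendsto_finsetSum _ (fun i _ => tendsto_finsetSum _ (fun j _ => ?_))
  exact (corr_tendsto F h0 h1 μ hμ (s i) (s j)).const_mul _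

noncomputable def zz (j : ℤ) (p : TT × TT) : ℂ := ee j p.1 * (starRingEnd ℂ) (ee j p.2)

noncomputable def psi (j : ℤ) (L : ℕ) (p : TT × TT) : ℝ :=
  (1 / (L : ℝ)) * ‖∑ i ∈ Finset.range L, (zz j p) ^ i‖

lemma zz_norm (j : ℤ) (p : TT × TT) : ‖zz j p‖ = 1 := by
  unfold zz
  rw [norm_mul, RCLike.norm_conj, ee_norm, ee_norm, one_mul]

lemma zz_continuous (j : ℤ) : Continuous (zz j) := by
  unfold zz
  exact ((ee_continuous j).comp continuous_fst).mul
    (Complex.continuous_conj.comp ((ee_continuous j).comp continuous_snd))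

lemma psi_continuous (j : ℤ) (L : ℕ) : Continuous (psi j L) := by
  unfold psi
  exact continuous_const.mul
    (continuous_finsetSum _ (fun i _ => (zz_continuous j).pow i)).norm

lemma psi_nonneg (j : ℤ) (L : ℕ) (p : TT × TT) : 0 ≤ psi j L p := by
  unfold psi; positivity

lemma psi_le_one (j : ℤ) (L : ℕ) (p : TT × TT) : psi j L p ≤ 1 := by
  unfold psi
  have h : ‖∑ i ∈ Finset.range L, (zz j p) ^ i‖ ≤ L := by
    refine (norm_sum_le _ _).trans ?_
    refine (Finset.sum_le_sum (fun i _ => (by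
      rw [norm_pow, zz_norm, one_pow] : ‖zz j p ^ i‖ ≤ 1))).trans ?_
    simp
  rcases Nat.eq_zero_or_pos L with hL | hL
  · subst hL; simp
  · have hL' : (0 : ℝ) < L := by exact_mod_cast hL
    calc (1 / (L : ℝ)) * _ ≤ (1 / (L : ℝ)) * L := by
          exact mul_le_mul_of_nonneg_left h (by positivity)
      _ = 1 := by field_simp

lemma psi_tendsto (j : ℤ) (p : TT × TT) (hp : zz j p ≠ 1) :
    Tendsto (fun L => psi j L p) atTop (𝓝 0) := by
  have hlim : Tendsto (fun L : ℕ => (2 / ‖zz j p - 1‖) / (L : ℝ)) atTop (𝓝 0) :=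
    tendsto_const_div_atTop_nhds_zero_nat _
  refine squeeze_zero (fun L => psi_nonneg j L p) (fun L => ?_) hlim
  unfold psi
  have hpos : 0 < ‖zz j p - 1‖ := norm_pos_iff.2 (sub_ne_zero.2 hp)
  have h : ‖∑ i ∈ Finset.range L, (zz j p) ^ i‖ ≤ 2 / ‖zz j p - 1‖ := by
    rw [geom_sum_eq hp, norm_div]
    refine div_le_div_of_nonneg_right ?_ hpos.le
    refine (norm_sub_le _ _).trans ?_
    rw [norm_pow, zz_norm, one_pow, norm_one]; norm_num
  rw [mul_comm, div_eq_mul_one_div (2 / ‖zz j p - 1‖) (L : ℝ)]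
  exact mul_le_mul_of_nonneg_right h (one_div_nonneg.2 (Nat.cast_nonneg L))

lemma zz_section_finite (j : ℤ) (hj : j ≠ 0) (θ : TT) : {θ' : TT | zz j (θ, θ') = 1}.Finite := by
  have hfin := finite_torsion (1 : ℝ) (Int.natAbs_pos.2 hj)
  refine (hfin.image (fun u => θ - u)).subset ?_
  intro θ' h
  simp only [Set.mem_ofPred_eq] at h
  unfold zz at h
  have h1 : ee j (θ - θ') = 1 := by
    have h2 : ee j (θ - θ') = ee j θ * (starRingEnd ℂ) (ee j θ') := by
      unfold ee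
      rw [← fourier_neg, fourier_apply, fourier_apply, fourier_apply, smul_sub, sub_eq_add_neg,
        AddCircle.toCircle_add, Circle.coe_mul, neg_smul]
    rw [h2]; exact h
  have h3 : j • (θ - θ') = 0 := by
    unfold ee at h1
    rw [fourier_apply] at h1
    have h4 : AddCircle.toCircle (j • (θ - θ')) = AddCircle.toCircle (0 : TT) := by
      rw [AddCircle.toCircle_zero]
      exact Circle.coe_injective (by rw [h1]; simp)
    exact injective_toCircle one_ne_zero h4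
  refine ⟨θ - θ', ?_, by simp⟩
  simp only [Set.mem_ofPred_eq]
  rcases Int.natAbs_eq j with h | h
  · rw [h, natCast_zsmul] at h3; exact h3
  · rw [h, neg_smul, neg_eq_zero, natCast_zsmul] at h3; exact h3

lemma psi_int_tendsto (ν : Measure TT) [IsFiniteMeasure ν] [NullSingletonClass ν] (j : ℤ) (hj : j ≠ 0) :
    Tendsto (fun L => ∫ p, psi j L p ∂(ν.prod ν)) atTop (𝓝 0) := by
  have h := tendsto_integral_of_dominated_convergence (μ := ν.prod ν) (F := psi j)
    (f := fun _ => (0 : ℝ)) (fun _ => (1 : ℝ)) (fun L => (psi_continuous j L).aestronglyMeasurable)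
    (integrable_const 1)
    (fun L => Filter.Eventually.of_forall (fun p => by
      rw [Real.norm_eq_abs, abs_of_nonneg (psi_nonneg j L p)]; exact psi_le_one j L p))
    (by
      have hnull : (ν.prod ν) {p | zz j p = 1} = 0 := by
        rw [Measure.measure_prod_null (isClosed_eq (zz_continuous j) continuous_const).measurableSet]
        refine Filter.Eventually.of_forall (fun θ => ?_)
        exact (zz_section_finite j hj θ).measure_zero ν
      have hae : ∀ᵐ p ∂(ν.prod ν), zz j p ≠ 1 := by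
        rw [ae_iff]
        simpa using hnull
      filter_upwards [hae] with p hp
      exact psi_tendsto j p hp)
  simpa using h

lemma sq_fourier_coeff (ν : Measure TT) [IsFiniteMeasure ν] (m : ℤ) :
    (‖∫ θ, ee m θ ∂ν‖ ^ 2 : ℝ) = (∫ p, zz m p ∂(ν.prod ν)).re := by
  unfold zz
  rw [integral_prod_mul (fun θ => ee m θ) (fun θ => (starRingEnd ℂ) (ee m θ)), integral_conj,
    Complex.mul_conj']
  norm_cast

lemma zz_mul_add (j c b : ℤ) (i : ℕ) (p : TT × TT) :
    zz (j * (b + i) + c) p = zz (j * b + c) p * zz j p ^ i := by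
  unfold zz
  have h : ∀ θ : TT, ee (j * (b + i) + c) θ = ee (j * b + c) θ * (ee j θ) ^ i := by
    intro θ
    rw [show j * (b + i) + c = (j * b + c) + i * j by ring, ee_add]
    congr 1
    induction i with
    | zero => simp [ee_zero]
    | succ k ih => rw [pow_succ, ← ih, Nat.cast_succ, add_mul, one_mul, ee_add]
  rw [h, h, map_mul, map_pow]
  ring

theorem wiener (ν : Measure TT) [IsFiniteMeasure ν] [NullSingletonClass ν] (j : ℤ) (hj : j ≠ 0) (c : ℤ)
    (ε : ℝ) (hε : 0 < ε) :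
    ∃ L0 : ℕ, ∀ L : ℕ, L0 ≤ L → ∀ x : ℤ,
      ∑ i ∈ Finset.range L, ‖∫ θ, ee (j * (x + i) + c) θ ∂ν‖ ^ 2 ≤ ε * L := by
  have h := (psi_int_tendsto ν j hj).eventually (gt_mem_nhds hε)
  obtain ⟨L0, hL0⟩ := Filter.eventually_atTop.1 h
  refine ⟨max L0 1, fun L hL x => ?_⟩
  have hL1 : 1 ≤ L := (le_max_right _ _).trans hL
  have hLpos : (0 : ℝ) < L := by exact_mod_cast hL1
  have h1 := hL0 L ((le_max_left _ _).trans hL)
  have hzint : ∀ m : ℤ, Integrable (zz m) (ν.prod ν) := by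
    intro m
    refine Integrable.of_bound (zz_continuous m).aestronglyMeasurable 1 ?_
    exact Filter.Eventually.of_forall (fun p => (zz_norm m p).le)
  have h2 : ∑ i ∈ Finset.range L, ‖∫ θ, ee (j * (x + i) + c) θ ∂ν‖ ^ 2 =
      (∫ p, ∑ i ∈ Finset.range L, zz (j * (x + i) + c) p ∂(ν.prod ν)).re := by
    rw [integral_finsetSum _ (fun i _ => hzint _), Complex.re_sum]
    exact Finset.sum_congr rfl (fun i _ => sq_fourier_coeff ν _)
  rw [h2]
  have h3 : ‖∫ p, ∑ i ∈ Finset.range L, zz (j * (x + i) + c) p ∂(ν.prod ν)‖ ≤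
      ∫ p, L * psi j L p ∂(ν.prod ν) := by
    refine (norm_integral_le_integral_norm _).trans (le_of_eq ?_)
    refine integral_congr_ae (Filter.Eventually.of_forall (fun p => ?_))
    simp only
    have : ∑ i ∈ Finset.range L, zz (j * (x + i) + c) p =
        zz (j * x + c) p * ∑ i ∈ Finset.range L, (zz j p) ^ i := by
      rw [Finset.mul_sum]
      exact Finset.sum_congr rfl (fun i _ => zz_mul_add j c x i p)
    rw [this, norm_mul, zz_norm, one_mul]
    unfold psi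
    field_simp
  rw [integral_const_mul] at h3
  have h4 := Complex.re_le_norm (∫ p, ∑ i ∈ Finset.range L, zz (j * (x + i) + c) p ∂(ν.prod ν))
  calc _ ≤ _ := h4
    _ ≤ _ := h3
    _ ≤ L * ε := mul_le_mul_of_nonneg_left h1.le hLpos.le
    _ = ε * L := mul_comm _ _

/-- selection of many elements of a set of positive density, with small Fourier coefficients at
all differences of squares -/
theorem select (ν : Measure TT) [IsFiniteMeasure ν] [NullSingletonClass ν] (η : ℝ) (hη : 0 < η)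
    (M : ℕ) (N : Set ℤ) (hN : PosD N) :
    ∃ T : Finset ℤ, (↑T : Set ℤ) ⊆ N ∧ M ≤ T.card ∧
      ∀ b ∈ T, ∀ b' ∈ T, b ≠ b' → ‖∫ θ, ee (b ^ 2 - b' ^ 2) θ ∂ν‖ ≤ η := by
  classical
  obtain ⟨ρ, hρ, hN⟩ := hN
  -- block length
  obtain ⟨H, hH⟩ : ∃ H : ℕ, 4 * (M : ℝ) / ρ < H := exists_nat_gt _
  have hHpos : (0 : ℝ) < H := lt_of_le_of_lt (by positivity) hH
  have hH' : 4 * (M : ℝ) ≤ ρ * H := by
    rw [div_lt_iff₀ hρ] at hH; linarith
  have hHn : 0 < H := by exact_mod_cast hHpos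
  set ε : ℝ := ρ * η ^ 2 / (2 * H) with hε
  have hεpos : 0 < ε := by rw [hε]; positivity
  -- thresholds
  have hW : ∀ h : ℕ, ∃ L0 : ℕ, 1 ≤ h → ∀ L : ℕ, L0 ≤ L → ∀ x : ℤ,
      ∑ i ∈ Finset.range L, ‖∫ θ, ee ((2 * (h : ℤ)) * (x + i) + (h : ℤ) ^ 2) θ ∂ν‖ ^ 2 ≤ ε * L := by
    intro h
    by_cases hh : 1 ≤ h
    · obtain ⟨L0, hL0⟩ := wiener ν (2 * (h : ℤ)) (by omega) ((h : ℤ) ^ 2) ε hεpos
      exact ⟨L0, fun _ => hL0⟩
    · exact ⟨0, fun hh' => absurd hh' hh⟩
  choose L0 hL0 using hW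
  obtain ⟨L, hLle, x, hx⟩ := hN (max H ((Finset.range (H + 1)).sup L0))
  have hLH : H ≤ L := (le_max_left _ _).trans hLle
  have hLh : ∀ h ∈ Finset.Icc 1 H, L0 h ≤ L := by
    intro h hh
    rw [Finset.mem_Icc] at hh
    have : L0 h ≤ (Finset.range (H + 1)).sup L0 :=
      Finset.le_sup (f := L0) (Finset.mem_range.2 (by omega))
    exact this.trans ((le_max_right _ _).trans hLle)
  have hLpos : (0 : ℝ) < L := by
    have : 0 < L := by omega
    exact_mod_cast this
  -- the finite sets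
  let G0 : Finset ℕ := (Finset.range L).filter (fun i : ℕ => x + (i : ℤ) ∈ N)
  let B : ℕ → Finset ℕ := fun h => (Finset.range L).filter
    (fun i : ℕ => η < ‖∫ θ, ee ((2 * (h : ℤ)) * (x + i) + (h : ℤ) ^ 2) θ ∂ν‖)
  let G : Finset ℕ := G0 \ (Finset.Icc 1 H).biUnion B
  have hG0 : ρ * L ≤ (G0.card : ℝ) := by
    have : ((N ∩ Set.Ico x (x + L)).ncard) = G0.card := by
      have h1 : N ∩ Set.Ico x (x + L) = ↑(G0.image (fun i : ℕ => x + (i : ℤ))) := by
        ext b
        simp only [G0, Set.mem_inter_iff, Set.mem_Ico, Finset.coe_image, Set.mem_image,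
          Finset.mem_coe, Finset.mem_filter, Finset.mem_range]
        constructor
        · rintro ⟨hb, h1, h2⟩
          refine ⟨(b - x).toNat, ⟨by omega, ?_⟩, by omega⟩
          have : x + ((b - x).toNat : ℤ) = b := by omega
          rw [this]; exact hb
        · rintro ⟨i, ⟨hi, hiN⟩, rfl⟩
          exact ⟨hiN, by omega, by omega⟩
      rw [h1, Set.ncard_coe_finset, Finset.card_image_of_injective]
      intro a b hab
      simp only at hab
      omega
    rw [← this]; exact hx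
  have hB : ∀ h ∈ Finset.Icc 1 H, ((B h).card : ℝ) ≤ ρ * L / (2 * H) := by
    intro h hh
    have h1 := hL0 h (Finset.mem_Icc.1 hh).1 L (hLh h hh) x
    have h2 : ((B h).card : ℝ) * η ^ 2 ≤
        ∑ i ∈ Finset.range L, ‖∫ θ, ee ((2 * (h : ℤ)) * (x + i) + (h : ℤ) ^ 2) θ ∂ν‖ ^ 2 := by
      rw [← nsmul_eq_mul]
      refine (Finset.card_nsmul_le_sum (B h) _ (η ^ 2) (fun i hi => ?_)).trans
        (Finset.sum_le_sum_of_subset_of_nonneg (Finset.filter_subset _ _)
          (fun i _ _ => by positivity))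
      have := (Finset.mem_filter.1 hi).2
      exact pow_le_pow_left₀ hη.le this.le 2
    have h3 : ((B h).card : ℝ) * η ^ 2 ≤ ρ * L / (2 * H) * η ^ 2 := by
      refine (h2.trans h1).trans (le_of_eq ?_)
      rw [hε]; ring
    exact le_of_mul_le_mul_right h3 (by positivity)
  have hGcard : ρ * L / 2 ≤ (G.card : ℝ) := by
    have h1 : G0 ⊆ G ∪ (Finset.Icc 1 H).biUnion B := by
      intro i hi
      rw [Finset.mem_union]
      by_cases hc : i ∈ (Finset.Icc 1 H).biUnion B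
      · right; exact hc
      · left; exact Finset.mem_sdiff.2 ⟨hi, hc⟩
    have h2 : (G0.card : ℝ) ≤ G.card + ((Finset.Icc 1 H).biUnion B).card := by
      exact_mod_cast (Finset.card_le_card h1).trans (Finset.card_union_le _ _)
    have h3 : (((Finset.Icc 1 H).biUnion B).card : ℝ) ≤ ∑ h ∈ Finset.Icc 1 H, ((B h).card : ℝ) := by
      exact_mod_cast Finset.card_biUnion_le
    have h4 : ∑ h ∈ Finset.Icc 1 H, ((B h).card : ℝ) ≤ ρ * L / 2 := by
      refine (Finset.sum_le_sum hB).trans ?_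
      rw [Finset.sum_const, Nat.card_Icc, nsmul_eq_mul]
      have : ((H + 1 - 1 : ℕ) : ℝ) = H := by norm_num
      rw [this]
      apply le_of_eq
      field_simp
    linarith
  -- pigeonhole
  have hmaps : ∀ i ∈ G, i / H ∈ Finset.range (L / H + 1) := by
    intro i hi
    have hi0 := (Finset.mem_filter.1 (Finset.mem_sdiff.1 hi).1).1
    rw [Finset.mem_range] at hi0 ⊢
    have := Nat.div_le_div_right (c := H) hi0.le
    omega
  have hcount : (Finset.range (L / H + 1)).card * M ≤ G.card := by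
    rw [Finset.card_range]
    have h1 : (((L / H + 1) * M : ℕ) : ℝ) ≤ (G.card : ℝ) := by
      push_cast
      have h2 : ((L / H : ℕ) : ℝ) ≤ (L : ℝ) / H := Nat.cast_div_le
      have h3 : (((L / H : ℕ) : ℝ) + 1) * M ≤ ((L : ℝ) / H + 1) * M :=
        mul_le_mul_of_nonneg_right (by linarith) (Nat.cast_nonneg M)
      have h4 : (L : ℝ) / H * M ≤ ρ * L / 4 := by
        rw [div_mul_eq_mul_div, div_le_iff₀ hHpos]
        have := mul_le_mul_of_nonneg_left hH' hLpos.le
        nlinarith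
      have h5 : (M : ℝ) ≤ ρ * L / 4 := by
        have : (H : ℝ) ≤ L := by exact_mod_cast hLH
        have := mul_le_mul_of_nonneg_left this hρ.le
        linarith
      linarith
    exact_mod_cast h1
  obtain ⟨y, _, hy⟩ := Finset.exists_le_card_fiber_of_mul_le_card_of_maps_to hmaps
    ⟨0, Finset.mem_range.2 (Nat.succ_pos _)⟩ hcount
  let T0 : Finset ℕ := G.filter (fun i => i / H = y)
  have hkey : ∀ i ∈ T0, ∀ i' ∈ T0, i' < i →
      ‖∫ θ, ee ((x + (i : ℤ)) ^ 2 - (x + (i' : ℤ)) ^ 2) θ ∂ν‖ ≤ η := by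
    intro i hi i' hi' hlt
    have hiy := (Finset.mem_filter.1 hi).2
    have hiy' := (Finset.mem_filter.1 hi').2
    have hd : i - i' ∈ Finset.Icc 1 H := by
      rw [Finset.mem_Icc]
      have e1 := Nat.div_add_mod i H
      have e2 := Nat.div_add_mod i' H
      have e3 := Nat.mod_lt i hHn
      rw [hiy] at e1
      rw [hiy'] at e2
      omega
    have hnot := (Finset.mem_sdiff.1 (Finset.mem_filter.1 hi').1).2
    have hrange := (Finset.mem_filter.1 (Finset.mem_sdiff.1 (Finset.mem_filter.1 hi').1).1).1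
    have h1 : ¬ (η < ‖∫ θ, ee ((2 * ((i - i' : ℕ) : ℤ)) * (x + i') + ((i - i' : ℕ) : ℤ) ^ 2) θ ∂ν‖) := by
      intro hlt'
      exact hnot (Finset.mem_biUnion.2 ⟨_, hd, Finset.mem_filter.2 ⟨hrange, hlt'⟩⟩)
    have h2 : (x + (i : ℤ)) ^ 2 - (x + (i' : ℤ)) ^ 2 =
        (2 * ((i - i' : ℕ) : ℤ)) * (x + i') + ((i - i' : ℕ) : ℤ) ^ 2 := by
      rw [Nat.cast_sub hlt.le]; ring
    rw [h2]
    exact not_lt.1 h1
  refine ⟨T0.image (fun i : ℕ => x + (i : ℤ)), ?_, ?_, ?_⟩
  · intro b hb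
    rw [Finset.coe_image] at hb
    obtain ⟨i, hi, rfl⟩ := hb
    exact (Finset.mem_filter.1 (Finset.mem_sdiff.1 (Finset.mem_filter.1
      (Finset.mem_coe.1 hi)).1).1).2
  · rw [Finset.card_image_of_injective]
    · exact hy
    · intro a b hab
      simp only at hab
      omega
  · intro b hb b' hb' hne
    obtain ⟨i, hi, rfl⟩ := Finset.mem_image.1 hb
    obtain ⟨i', hi', rfl⟩ := Finset.mem_image.1 hb'
    rcases lt_trichotomy i i' with h | h | h
    · have h1 := hkey i' hi' i hi h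
      have h2 : ∫ θ, ee ((x + (i : ℤ)) ^ 2 - (x + (i' : ℤ)) ^ 2) θ ∂ν =
          (starRingEnd ℂ) (∫ θ, ee ((x + (i' : ℤ)) ^ 2 - (x + (i : ℤ)) ^ 2) θ ∂ν) := by
        rw [← integral_conj]
        refine integral_congr_ae (Filter.Eventually.of_forall (fun θ => ?_))
        simp only
        rw [← ee_neg]; congr 1; ring
      rw [h2, RCLike.norm_conj]; exact h1
    · exact absurd (by rw [h]) hne
    · exact hkey i hi i' hi' h

noncomputable def av (T : Finset ℤ) (θ : TT) : ℂ :=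
  ∑ b ∈ T, ((1 / (T.card : ℝ) : ℝ) : ℂ) * ee (b ^ 2) θ

lemma av_continuous (T : Finset ℤ) : Continuous (av T) := by
  unfold av
  exact continuous_finsetSum _ (fun n _ => continuous_const.mul (ee_continuous _))

lemma av_norm_le (T : Finset ℤ) (θ : TT) : ‖av T θ‖ ≤ 1 := by
  unfold av
  rw [← Finset.mul_sum, norm_mul, Complex.norm_real, Real.norm_eq_abs,
    abs_of_nonneg (one_div_nonneg.2 (Nat.cast_nonneg _))]
  have h : ‖∑ b ∈ T, ee (b ^ 2) θ‖ ≤ T.card := by
    refine (norm_sum_le _ _).trans ?_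
    refine (Finset.sum_le_sum (fun i _ => (ee_norm _ _).le)).trans ?_
    simp
  rcases Nat.eq_zero_or_pos T.card with hL | hL
  · rw [hL]; simp
  · have hL' : (0 : ℝ) < T.card := by exact_mod_cast hL
    calc (1 / (T.card : ℝ)) * _ ≤ (1 / (T.card : ℝ)) * T.card := by
          exact mul_le_mul_of_nonneg_left h (by positivity)
      _ = 1 := by field_simp

lemma av_integral_le (ν : Measure TT) [IsFiniteMeasure ν] (η : ℝ) (hη : 0 < η) (M : ℕ)
    (hM : 0 < M) (T : Finset ℤ) (hT : M ≤ T.card)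
    (h : ∀ b ∈ T, ∀ b' ∈ T, b ≠ b' → ‖∫ θ, ee (b ^ 2 - b' ^ 2) θ ∂ν‖ ≤ η) :
    ∫ θ, ‖av T θ‖ ^ 2 ∂ν ≤ ν.real Set.univ / M + η := by
  classical
  unfold av
  rw [norm_sq_integral]
  have hTpos : (0 : ℝ) < T.card := by
    have : 0 < T.card := lt_of_lt_of_le hM hT
    exact_mod_cast this
  have hre : ∀ m : ℤ, ∫ θ, (ee m θ).re ∂ν ≤ ‖∫ θ, ee m θ ∂ν‖ := by
    intro m
    have h := integral_re (𝕜 := ℂ) (ee_integrable m ν)
    have h2 : ∫ θ : TT, (ee m θ).re ∂ν = (∫ θ : TT, ee m θ ∂ν).re := h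
    rw [h2]; exact Complex.re_le_norm _
  have hterm : ∀ b ∈ T, ∀ b' ∈ T,
      1 / (T.card : ℝ) * (1 / (T.card : ℝ)) * ∫ θ, (ee (b ^ 2 - b' ^ 2) θ).re ∂ν ≤
      1 / (T.card : ℝ) * (1 / (T.card : ℝ)) * (η + if b = b' then ν.real Set.univ else 0) := by
    intro b hb b' hb'
    refine mul_le_mul_of_nonneg_left ?_ (by positivity)
    split_ifs with hbb
    · subst hbb
      simp only [sub_self, ee_zero, Complex.one_re, integral_const, smul_eq_mul, mul_one]
      linarith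
    · rw [add_zero]; exact (hre _).trans (h b hb b' hb' hbb)
  refine (Finset.sum_le_sum (fun b hb => Finset.sum_le_sum (fun b' hb' => hterm b hb b' hb'))).trans
    ?_
  have hsum : ∑ b ∈ T, ∑ b' ∈ T,
      1 / (T.card : ℝ) * (1 / (T.card : ℝ)) * (η + if b = b' then ν.real Set.univ else 0) =
      η + ν.real Set.univ / T.card := by
    simp_rw [← Finset.mul_sum, Finset.sum_add_distrib]
    simp only [Finset.sum_const, nsmul_eq_mul, Finset.sum_ite_eq]
    rw [Finset.sum_congr rfl (fun b hb => if_pos hb)]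
    simp only [Finset.sum_const, nsmul_eq_mul]
    field_simp
  rw [hsum]
  have hMpos : (0 : ℝ) < M := by exact_mod_cast hM
  have hMT : (M : ℝ) ≤ T.card := by exact_mod_cast hT
  have : ν.real Set.univ / T.card ≤ ν.real Set.univ / M :=
    div_le_div_of_nonneg_left measureReal_nonneg hMpos hMT
  linarith

/-- A finite measure has a finite set outside of which its atoms have small mass. -/
lemma atoms_tail (μ : Measure TT) [IsFiniteMeasure μ] (ε : ℝ) (hε : 0 < ε) :
    ∃ (Th : Finset TT) (A : Set TT), MeasurableSet A ∧ (∀ θ, θ ∉ A → μ {θ} = 0) ∧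
      μ (A \ ↑Th) ≤ ENNReal.ofReal ε := by
  let A : Set TT := {θ | 0 < μ {θ}}
  have hdisj : Pairwise (Function.onFun Disjoint (fun θ : TT => ({θ} : Set TT))) := by
    intro a b hab
    exact Set.disjoint_singleton.2 hab
  have hA : A.Countable :=
    Measure.countable_meas_pos_of_disjoint_iUnion (μ := μ)
      (fun θ : TT => measurableSet_singleton θ) hdisj
  have hsum : ∑' θ : TT, μ {θ} ≠ ⊤ := by
    have h := tsum_meas_le_meas_iUnion_of_disjoint μ
      (fun θ : TT => measurableSet_singleton θ) hdisj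
    exact (h.trans_lt (measure_lt_top μ _)).ne
  have ht := (tendsto_order.1 (ENNReal.tendsto_tsum_compl_atTop_zero hsum)).2
    (ENNReal.ofReal ε) (ENNReal.ofReal_pos.2 hε)
  obtain ⟨Th, hTh⟩ := ht.exists
  refine ⟨Th, A, hA.measurableSet, ?_, ?_⟩
  · intro θ hθ
    simp only [A, Set.mem_ofPred_eq, not_lt, nonpos_iff_eq_zero] at hθ
    exact hθ
  · have hcount : (A \ (↑Th : Set TT)).Countable := hA.mono Set.sdiff_subset
    have h1 : μ (A \ ↑Th) ≤ ∑' θ : (A \ (↑Th : Set TT) : Set TT), μ {(θ : TT)} := by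
      have := measure_biUnion_le μ hcount (fun θ : TT => ({θ} : Set TT))
      rw [Set.biUnion_of_singleton] at this
      exact this
    refine h1.trans ?_
    have h2 : ∑' θ : (A \ (↑Th : Set TT) : Set TT), μ {(θ : TT)} ≤
        ∑' θ : ({θ | θ ∉ Th} : Set TT), μ {(θ : TT)} := by
      refine ENNReal.tsum_mono_subtype (fun θ => μ {θ}) ?_
      intro θ hθ
      exact hθ.2
    exact h2.trans hTh.le

theorem A4 (μ : Measure TT) [IsFiniteMeasure μ] (ε : ℝ) (hε : 0 < ε) :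
    ∃ Th : Finset TT, ∀ N : Set ℤ, PosD N → ∃ T : Finset ℤ, (↑T : Set ℤ) ⊆ N ∧ T.Nonempty ∧
      ∫ θ in (↑Th : Set TT)ᶜ, ‖av T θ‖ ^ 2 ∂μ ≤ ε := by
  obtain ⟨Th, A, hAm, hA0, hAT⟩ := atoms_tail μ (ε / 4) (by linarith)
  refine ⟨Th, fun N hN => ?_⟩
  let ν : Measure TT := μ.restrict Aᶜ
  have : NullSingletonClass ν := by
    refine ⟨fun θ => ?_⟩
    by_cases hθ : θ ∈ A
    · have : ν {θ} = 0 := by
        simp only [ν]
        rw [Measure.restrict_apply (measurableSet_singleton θ)]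
        have : ({θ} : Set TT) ∩ Aᶜ = ∅ := by
          ext y
          simp only [Set.mem_inter_iff, Set.mem_singleton_iff, Set.mem_compl_iff,
            Set.mem_empty_iff_false, iff_false, not_and, not_not]
          intro h; rw [h]; exact hθ
        rw [this, measure_empty]
      exact this
    · have h1 := hA0 θ hθ
      exact le_antisymm ((Measure.restrict_apply_le _ _).trans h1.le) (zero_le)
  obtain ⟨M, hM⟩ : ∃ M : ℕ, ν.real Set.univ / (ε / 4) < M := exists_nat_gt _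
  have hMpos : (0 : ℝ) < M := lt_of_le_of_lt (by positivity) hM
  have hMn : 0 < M := by exact_mod_cast hMpos
  obtain ⟨T, hTN, hTM, hT⟩ := select ν (ε / 4) (by linarith) M N hN
  have hTne : T.Nonempty := Finset.card_pos.1 (lt_of_lt_of_le hMn hTM)
  refine ⟨T, hTN, hTne, ?_⟩
  have h1 := av_integral_le ν (ε / 4) (by linarith) M hMn T hTM hT
  have h2 : ν.real Set.univ / M ≤ ε / 4 := by
    rw [div_le_iff₀ hMpos]
    rw [div_lt_iff₀ (by linarith)] at hM
    linarith
  have hcont : Continuous (fun θ => ‖av T θ‖ ^ 2) := (av_continuous T).norm.pow 2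
  have hint := cont_integrable _ hcont μ
  have hnn : ∀ θ, 0 ≤ ‖av T θ‖ ^ 2 := fun θ => by positivity
  have hle1 : ∀ θ, ‖av T θ‖ ^ 2 ≤ 1 := fun θ => pow_le_one₀ (norm_nonneg _) (av_norm_le T θ)
  have hTm : MeasurableSet (↑Th : Set TT) := Th.finite_toSet.measurableSet
  have h3 : ∫ θ in (↑Th : Set TT)ᶜ, ‖av T θ‖ ^ 2 ∂μ ≤
      ∫ θ in (A \ ↑Th) ∪ Aᶜ, ‖av T θ‖ ^ 2 ∂μ := by
    refine setIntegral_mono_set hint.integrableOn
      (Filter.Eventually.of_forall (fun θ => hnn θ)) ?_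
    refine LE.le.eventuallyLE ?_
    intro θ hθ
    by_cases hc : θ ∈ A
    · left; exact ⟨hc, hθ⟩
    · right; exact hc
  have hdis : Disjoint (A \ (↑Th : Set TT)) Aᶜ :=
    Set.disjoint_left.2 (fun θ h h' => h' h.1)
  rw [setIntegral_union hdis hAm.compl hint.integrableOn hint.integrableOn] at h3
  have h4 : ∫ θ in (A \ ↑Th), ‖av T θ‖ ^ 2 ∂μ ≤ ε / 4 := by
    have h5 : ∫ θ in (A \ ↑Th), ‖av T θ‖ ^ 2 ∂μ ≤ ∫ θ in (A \ ↑Th), (1 : ℝ) ∂μ :=
      integral_mono hint.integrableOn (integrable_const 1) hle1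
    refine h5.trans ?_
    rw [setIntegral_const, smul_eq_mul, mul_one]
    exact ENNReal.toReal_le_of_le_ofReal (by linarith) hAT
  have h6 : ∫ θ in Aᶜ, ‖av T θ‖ ^ 2 ∂μ = ∫ θ, ‖av T θ‖ ^ 2 ∂ν := rfl
  linarith

noncomputable def ind (S : Set ℤ) (n : ℤ) : ℝ := by
  classical
  exact if n ∈ S then 1 else 0

lemma ind_nonneg (S : Set ℤ) (n : ℤ) : 0 ≤ ind S n := by
  unfold ind; split_ifs <;> norm_num

lemma ind_le_one (S : Set ℤ) (n : ℤ) : ind S n ≤ 1 := by
  unfold ind; split_ifs <;> norm_num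

lemma ind_of_mem (S : Set ℤ) (n : ℤ) (h : n ∈ S) : ind S n = 1 := by
  unfold ind; rw [if_pos h]

lemma mem_of_ind_ne (S : Set ℤ) (n : ℤ) (h : ind S n ≠ 0) : n ∈ S := by
  unfold ind at h
  by_contra hc
  rw [if_neg hc] at h
  exact h rfl

lemma ind_mono_shift (S W : Set ℤ) (e : ℤ) (h : ∀ n ∈ W, n - e ∈ S) (n : ℤ) :
    ind W n ≤ ind S (n - e) := by
  by_cases hn : n ∈ W
  · rw [ind_of_mem W n hn, ind_of_mem S _ (h n hn)]
  · have : ind W n = 0 := by unfold ind; rw [if_neg hn]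
    rw [this]; exact ind_nonneg _ _

/-- a syndetic set occurs with frequency at least `1/(2g)` in every window -/
lemma syn_count (W : Set ℤ) (g : ℕ) (hg : ∀ a : ℤ, ∃ n ∈ W, a ≤ n ∧ n < a + g) (m : ℕ) (x : ℤ) :
    (m : ℝ) ≤ ∑ n ∈ Finset.range (m * g), ind W (n + x) := by
  induction m with
  | zero => simp
  | succ m ih =>
    rw [Nat.succ_mul, Finset.sum_range_add]
    have h1 : (1 : ℝ) ≤ ∑ n ∈ Finset.range g, ind W (((m * g + n : ℕ) : ℤ) + x) := by
      obtain ⟨n, hnW, hn1, hn2⟩ := hg (((m * g : ℕ) : ℤ) + x)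
      have hmem : (n - (((m * g : ℕ) : ℤ) + x)).toNat ∈ Finset.range g := by
        rw [Finset.mem_range]; omega
      have hval : ind W (((m * g + (n - (((m * g : ℕ) : ℤ) + x)).toNat : ℕ) : ℤ) + x) = 1 := by
        apply ind_of_mem
        have : (((m * g + (n - (((m * g : ℕ) : ℤ) + x)).toNat : ℕ) : ℤ) + x) = n := by
          push_cast
          rw [Int.toNat_of_nonneg (by push_cast at hn1 ⊢; linarith)]
          ring
        rw [this]; exact hnW
      rw [← hval]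
      exact Finset.single_le_sum
        (f := fun n : ℕ => ind W (((m * g + n : ℕ) : ℤ) + x)) (fun i _ => ind_nonneg _ _) hmem
    push_cast at h1 ih ⊢
    linarith

lemma syn_freq (W : Set ℤ) (g : ℕ) (hgpos : 0 < g)
    (hg : ∀ a : ℤ, ∃ n ∈ W, a ≤ n ∧ n < a + g) (L : ℕ) (hL : g ≤ L) (x : ℤ) :
    (L : ℝ) / (2 * g) ≤ ∑ n ∈ Finset.range L, ind W (n + x) := by
  have h1 := syn_count W g hg (L / g) x
  have h2 : ∑ n ∈ Finset.range (L / g * g), ind W (n + x) ≤
      ∑ n ∈ Finset.range L, ind W (n + x) := by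
    refine Finset.sum_le_sum_of_subset_of_nonneg ?_ (fun i _ _ => ind_nonneg _ _)
    intro i hi
    rw [Finset.mem_range] at hi ⊢
    exact lt_of_lt_of_le hi (Nat.div_mul_le_self L g)
  have h3 : (L : ℝ) / (2 * g) ≤ ((L / g : ℕ) : ℝ) := by
    have hgR : (0 : ℝ) < g := by exact_mod_cast hgpos
    rw [div_le_iff₀ (by positivity)]
    have h4 : L ≤ (L / g) * (2 * g) := by
      have e1 := Nat.div_add_mod L g
      have e2 := Nat.mod_lt L hgpos
      have e3 : 1 ≤ L / g := (Nat.one_le_div_iff hgpos).2 hL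
      nlinarith
    exact_mod_cast h4
  linarith

lemma exists_d (δ : ℝ) (hδ : 0 < δ) : ∃ d : ℝ, 0 < d ∧ ∀ (m : ℤ) (θ : TT), ‖m • θ‖ < d →
    ‖ee m θ - 1‖ ≤ δ := by
  have hc : Continuous (fun u : TT => ((AddCircle.toCircle u : Circle) : ℂ)) :=
    continuous_induced_dom.comp AddCircle.continuous_toCircle
  have hc0 := (Metric.continuous_iff.1 hc) 0 δ hδ
  obtain ⟨d, hd, h⟩ := hc0
  refine ⟨d, hd, fun m θ hm => ?_⟩
  have h1 := h (m • θ) (by rw [dist_zero_right]; exact hm)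
  rw [dist_eq_norm] at h1
  have h2 : ((AddCircle.toCircle (0 : TT) : Circle) : ℂ) = 1 := by simp
  rw [h2] at h1
  exact h1.le

lemma posD_of_syn (R : Set ℤ) (h : Syn R) : PosD R := by
  classical
  obtain ⟨g, hg⟩ := h
  have hgpos : 0 < g := by
    obtain ⟨n, _, h1, h2⟩ := hg 0
    omega
  have hgR : (0 : ℝ) < g := by exact_mod_cast hgpos
  refine ⟨1 / (2 * g), by positivity, fun L0 => ⟨max L0 g, le_max_left _ _, 0, ?_⟩⟩
  have h1 := syn_freq R g hgpos hg (max L0 g) (le_max_right _ _) 0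
  have h2 : ((R ∩ Set.Ico (0 : ℤ) (0 + ((max L0 g : ℕ) : ℤ))).ncard : ℝ) =
      ∑ n ∈ Finset.range (max L0 g), ind R (n + 0) := by
    have h3 : R ∩ Set.Ico (0 : ℤ) (0 + ((max L0 g : ℕ) : ℤ)) =
        ↑(((Finset.range (max L0 g)).filter (fun n : ℕ => (n : ℤ) ∈ R)).image
          (fun n : ℕ => (n : ℤ))) := by
      ext b
      simp only [Set.mem_inter_iff, Set.mem_Ico, Finset.coe_image, Set.mem_image,
        Finset.mem_coe, Finset.mem_filter, Finset.mem_range]
      constructor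
      · rintro ⟨hb, h1, h2⟩
        refine ⟨b.toNat, ⟨by omega, ?_⟩, by omega⟩
        have : (b.toNat : ℤ) = b := by omega
        rw [this]; exact hb
      · rintro ⟨i, ⟨hi, hiN⟩, rfl⟩
        exact ⟨hiN, by omega, by omega⟩
    rw [h3, Set.ncard_coe_finset, Finset.card_image_of_injective _ Nat.cast_injective,
      Finset.card_filter]
    push_cast
    refine Finset.sum_congr rfl (fun n _ => ?_)
    unfold ind
    rw [add_zero]
  rw [h2]
  refine le_trans (le_of_eq ?_) h1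
  ring

lemma av_close (T : Finset ℤ) (hT : T.Nonempty) (θ : TT) (w : ℂ) (δ : ℝ)
    (h : ∀ b ∈ T, ‖ee (b ^ 2) θ - w‖ ≤ δ) : ‖av T θ - w‖ ≤ δ := by
  have hTpos : (0 : ℝ) < T.card := by exact_mod_cast Finset.card_pos.2 hT
  have hTne : ((T.card : ℝ) : ℂ) ≠ 0 := by exact_mod_cast hTpos.ne'
  have h1 : av T θ - w = ((1 / (T.card : ℝ) : ℝ) : ℂ) * ∑ b ∈ T, (ee (b ^ 2) θ - w) := by
    unfold av
    rw [Finset.sum_sub_distrib, mul_sub, Finset.mul_sum, Finset.sum_const, nsmul_eq_mul]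
    congr 1
    push_cast at hTne ⊢
    field_simp
  rw [h1, norm_mul, Complex.norm_real, Real.norm_eq_abs,
    abs_of_nonneg (one_div_nonneg.2 hTpos.le)]
  have h2 : ‖∑ b ∈ T, (ee (b ^ 2) θ - w)‖ ≤ T.card * δ := by
    refine (norm_sum_le _ _).trans ?_
    refine (Finset.sum_le_sum h).trans ?_
    rw [Finset.sum_const, nsmul_eq_mul]
  calc 1 / (T.card : ℝ) * ‖∑ b ∈ T, (ee (b ^ 2) θ - w)‖ ≤ 1 / (T.card : ℝ) * (T.card * δ) :=
        mul_le_mul_of_nonneg_left h2 (one_div_nonneg.2 hTpos.le)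
    _ = δ := by field_simp

lemma comb_integral (μ μt : Measure TT) [IsFiniteMeasure μ] [IsFiniteMeasure μt] (hle : μ ≤ μt)
    (Th : Finset TT) (T T0 : Finset ℤ) (hT : T.Nonempty) (hT0 : T0.Nonempty) (δ ε1 : ℝ)
    (hδ : 0 < δ) (Y : ℤ) (hTint : ∫ θ in (↑Th : Set TT)ᶜ, ‖av T θ‖ ^ 2 ∂μt ≤ ε1)
    (hT0int : ∫ θ in (↑Th : Set TT)ᶜ, ‖av T0 θ‖ ^ 2 ∂μt ≤ ε1)
    (hTc : ∀ b ∈ T, ∀ θ ∈ Th, ‖ee (b ^ 2 - Y) θ - 1‖ ≤ δ)
    (hT0c : ∀ b ∈ T0, ∀ θ ∈ Th, ‖ee (b ^ 2) θ - 1‖ ≤ δ) :
    ∫ θ, ‖av T θ - ee Y θ * av T0 θ‖ ^ 2 ∂μ ≤ 4 * δ ^ 2 * μt.real Set.univ + 4 * ε1 := by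
  have hm : MeasurableSet (↑Th : Set TT) := Th.finite_toSet.measurableSet
  have hcont : Continuous (fun θ => ‖av T θ - ee Y θ * av T0 θ‖ ^ 2) :=
    ((av_continuous T).sub ((ee_continuous Y).mul (av_continuous T0))).norm.pow 2
  have hint := cont_integrable _ hcont μ
  have hcT : Continuous (fun θ => ‖av T θ‖ ^ 2) := (av_continuous T).norm.pow 2
  have hcT0 : Continuous (fun θ => ‖av T0 θ‖ ^ 2) := (av_continuous T0).norm.pow 2
  have hiT := cont_integrable _ hcT μ
  have hiT0 := cont_integrable _ hcT0 μ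
  have hiTt := cont_integrable _ hcT μt
  have hiT0t := cont_integrable _ hcT0 μt
  rw [← integral_add_compl hm hint]
  have h1 : ∫ θ in (↑Th : Set TT), ‖av T θ - ee Y θ * av T0 θ‖ ^ 2 ∂μ ≤
      4 * δ ^ 2 * μt.real Set.univ := by
    have h2 : ∫ θ in (↑Th : Set TT), ‖av T θ - ee Y θ * av T0 θ‖ ^ 2 ∂μ ≤
        ∫ θ in (↑Th : Set TT), (4 * δ ^ 2 : ℝ) ∂μ := by
      refine setIntegral_mono_on hint.integrableOn (integrable_const _).integrableOn hm ?_
      intro θ hθ
      have hθ' : θ ∈ Th := Finset.mem_coe.1 hθ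
      have h3 : ‖av T θ - ee Y θ‖ ≤ δ := by
        refine av_close T hT θ _ δ (fun b hb => ?_)
        have h4 := hTc b hb θ hθ'
        have h5 : ee (b ^ 2) θ - ee Y θ = ee Y θ * (ee (b ^ 2 - Y) θ - 1) := by
          rw [mul_sub, mul_one, ← ee_add]
          congr 2; ring
        rw [h5, norm_mul, ee_norm, one_mul]; exact h4
      have h6 : ‖av T0 θ - 1‖ ≤ δ :=
        av_close T0 hT0 θ _ δ (fun b hb => hT0c b hb θ hθ')
      have h7 : ‖av T θ - ee Y θ * av T0 θ‖ ≤ 2 * δ := by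
        have h8 : av T θ - ee Y θ * av T0 θ = (av T θ - ee Y θ) - ee Y θ * (av T0 θ - 1) := by ring
        rw [h8]
        refine (norm_sub_le _ _).trans ?_
        rw [norm_mul, ee_norm, one_mul]
        linarith
      have h9 := pow_le_pow_left₀ (norm_nonneg _) h7 2
      linarith
    refine h2.trans ?_
    rw [setIntegral_const, smul_eq_mul, mul_comm]
    refine mul_le_mul_of_nonneg_left ?_ (by positivity)
    have h10 : μ.real (↑Th : Set TT) ≤ μ.real Set.univ := measureReal_mono (Set.subset_univ _)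
    have h11 : μ.real Set.univ ≤ μt.real Set.univ := by
      unfold Measure.real
      exact ENNReal.toReal_mono (measure_ne_top _ _) (hle _)
    exact h10.trans h11
  have h2 : ∫ θ in (↑Th : Set TT)ᶜ, ‖av T θ - ee Y θ * av T0 θ‖ ^ 2 ∂μ ≤ 4 * ε1 := by
    have h3 : ∫ θ in (↑Th : Set TT)ᶜ, ‖av T θ - ee Y θ * av T0 θ‖ ^ 2 ∂μ ≤
        ∫ θ in (↑Th : Set TT)ᶜ, (2 * ‖av T θ‖ ^ 2 + 2 * ‖av T0 θ‖ ^ 2) ∂μ := by
      refine setIntegral_mono hint.integrableOn
        ((hiT.const_mul 2).add (hiT0.const_mul 2)).integrableOn ?_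
      intro θ
      simp only
      have h4 : ‖av T θ - ee Y θ * av T0 θ‖ ≤ ‖av T θ‖ + ‖av T0 θ‖ := by
        refine (norm_sub_le _ _).trans ?_
        rw [norm_mul, ee_norm, one_mul]
      have h5 := pow_le_pow_left₀ (norm_nonneg _) h4 2
      nlinarith [sq_nonneg (‖av T θ‖ - ‖av T0 θ‖)]
    have h4 : ∫ θ in (↑Th : Set TT)ᶜ, (2 * ‖av T θ‖ ^ 2 + 2 * ‖av T0 θ‖ ^ 2) ∂μ =
        2 * ∫ θ in (↑Th : Set TT)ᶜ, ‖av T θ‖ ^ 2 ∂μ + 2 * ∫ θ in (↑Th : Set TT)ᶜ, ‖av T0 θ‖ ^ 2 ∂μ := by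
      rw [integral_add (hiT.const_mul 2).integrableOn (hiT0.const_mul 2).integrableOn,
        integral_const_mul, integral_const_mul]
    have hmono : ∀ f : TT → ℝ, Continuous f → (∀ θ, 0 ≤ f θ) →
        ∫ θ in (↑Th : Set TT)ᶜ, f θ ∂μ ≤ ∫ θ in (↑Th : Set TT)ᶜ, f θ ∂μt := by
      intro f hf hf0
      exact integral_mono_measure (Measure.restrict_mono_measure hle _)
        (Filter.Eventually.of_forall hf0) (cont_integrable f hf μt).integrableOn
    have h5 := hmono _ hcT (fun θ => by positivity)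
    have h6 := hmono _ hcT0 (fun θ => by positivity)
    linarith
  linarith

theorem analyticCore (hRZ : ReturnZero) : AnalyticCore := by
  classical
  intro κ _ S e hsyn
  obtain ⟨g, hg⟩ := hsyn
  set W : Set ℤ := {n : ℤ | ∀ k, n - e k ∈ S k} with hWdef
  have hgpos : 0 < g := by
    obtain ⟨n, _, h1, h2⟩ := hg 0
    omega
  have hgR : (0 : ℝ) < g := by exact_mod_cast hgpos
  have hher := fun k => herglotz (ind (S k)) (ind_nonneg _) (ind_le_one _)
  choose μ hμfin hμ using hher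
  let μt : Measure TT := ∑ k, μ k
  have hμt : IsFiniteMeasure μt := inferInstanceAs (IsFiniteMeasure (∑ k, μ k))
  have hle : ∀ k, μ k ≤ μt := by
    intro k
    exact Finset.single_le_sum (fun i _ => Measure.zero_le (μ i)) (Finset.mem_univ k)
  set C : ℝ := μt.real Set.univ with hC
  have hC0 : 0 ≤ C := measureReal_nonneg
  set q : ℝ := (Fintype.card κ : ℝ) with hq
  have hq0 : 0 ≤ q := by rw [hq]; positivity
  set ε1 : ℝ := 1 / (32 * g ^ 2 * (q + 1)) with hε1
  have hε1pos : 0 < ε1 := by rw [hε1]; positivity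
  obtain ⟨Th, hTh⟩ := A4 μt ε1 hε1pos
  set δ : ℝ := min 1 (ε1 / (C + 1)) with hδ
  have hδpos : 0 < δ := by rw [hδ]; exact lt_min one_pos (by positivity)
  have hδC : δ ^ 2 * C ≤ ε1 := by
    have h1 : δ ≤ 1 := min_le_left _ _
    have h2 : δ ≤ ε1 / (C + 1) := min_le_right _ _
    have h3 : δ * (C + 1) ≤ ε1 := by
      rw [le_div_iff₀ (by positivity)] at h2; exact h2
    nlinarith [mul_nonneg hδpos.le hC0]
  obtain ⟨d, hd, hdδ⟩ := exists_d δ hδpos
  refine ⟨Th, d, hd, fun X N hN hNTh => ?_⟩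
  choose T hTN hTne hTint using fun k => hTh (N k) (hN k)
  obtain ⟨T0, hT0N, hT0ne, hT0int⟩ := hTh _ (posD_of_syn _ (hRZ Th d hd))
  let c : κ → (ℤ ⊕ ℤ) → ℝ := fun k =>
    Sum.elim (fun _ => 1 / ((T k).card : ℝ)) (fun _ => -(1 / (T0.card : ℝ)))
  let s : κ → (ℤ ⊕ ℤ) → ℤ := fun k => Sum.elim (fun b => b ^ 2) (fun b => X + e k + b ^ 2)
  let I : κ → Finset (ℤ ⊕ ℤ) := fun k => (T k).disjSum T0
  have hpt : ∀ k θ, ∑ i ∈ I k, (c k i : ℂ) * ee (s k i) θ =
      av (T k) θ - ee (X + e k) θ * av T0 θ := by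
    intro k θ
    simp only [I, c, s]
    rw [Finset.sum_disjSum]
    simp only [Sum.elim_inl, Sum.elim_inr]
    unfold av
    rw [sub_eq_add_neg, Finset.mul_sum, ← Finset.sum_neg_distrib]
    congr 1
    refine Finset.sum_congr rfl (fun b _ => ?_)
    rw [ee_add]
    push_cast
    ring
  have hI : ∀ k, ∫ θ, ‖∑ i ∈ I k, (c k i : ℂ) * ee (s k i) θ‖ ^ 2 ∂(μ k) ≤ 8 * ε1 := by
    intro k
    simp_rw [hpt k]
    have hfin := hμfin k
    have h1 := comb_integral (μ k) μt (hle k) Th (T k) T0 (hTne k) hT0ne δ ε1 hδpos (X + e k)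
      (hTint k) hT0int
      (fun b hb θ hθ => by
        refine hdδ _ θ ?_
        rw [← sub_sub]
        exact hNTh k b (hTN k (Finset.mem_coe.2 hb)) θ hθ)
      (fun b hb θ hθ => by
        refine hdδ _ θ ?_
        exact (hT0N (Finset.mem_coe.2 hb) θ hθ).2)
    linarith
  -- convergence along the ultrafilter
  have hconv : Tendsto (fun L : ℕ => ∑ k, (1 / (L : ℝ)) * ∑ n ∈ Finset.range L,
      (∑ i ∈ I k, c k i * ind (S k) (n - s k i)) ^ 2) (hyperfilter ℕ : Filter ℕ)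
      (𝓝 (∑ k, ∫ θ, ‖∑ i ∈ I k, (c k i : ℂ) * ee (s k i) θ‖ ^ 2 ∂(μ k))) := by
    refine tendsto_finsetSum _ (fun k _ => ?_)
    have hfin := hμfin k
    exact quad_tendsto (ind (S k)) (ind_nonneg _) (ind_le_one _) (μ k) (hμ k) (I k) (c k) (s k)
  have hlim : ∑ k, ∫ θ, ‖∑ i ∈ I k, (c k i : ℂ) * ee (s k i) θ‖ ^ 2 ∂(μ k) < 1 / (4 * g ^ 2) := by
    refine (Finset.sum_le_sum (fun k _ => hI k)).trans_lt ?_
    rw [Finset.sum_const, nsmul_eq_mul, Finset.card_univ, ← hq]
    have h1 : q * (8 * ε1) = (q / (q + 1)) * (1 / (4 * g ^ 2)) := by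
      rw [hε1]; field_simp; ring
    rw [h1]
    have h2 : q / (q + 1) < 1 := by rw [div_lt_one (by linarith)]; linarith
    have h3 : (0 : ℝ) < 1 / (4 * g ^ 2) := by positivity
    nlinarith
  have hev := hconv.eventually (gt_mem_nhds hlim)
  have hev2 : ∀ᶠ L : ℕ in (hyperfilter ℕ : Filter ℕ), g ≤ L :=
    Nat.hyperfilter_le_atTop (Filter.eventually_ge_atTop g)
  obtain ⟨L, hL1, hL2⟩ := (hev.and hev2).exists
  have hLpos : (0 : ℝ) < L := by
    have : 0 < L := lt_of_lt_of_le hgpos hL2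
    exact_mod_cast this
  by_contra hneg
  push Not at hneg
  have hTk : ∀ n : ℤ, ∃ k, ∀ b ∈ T k, n - b ^ 2 ∉ S k := by
    intro n
    by_contra hc
    push Not at hc
    choose b hb hbS using hc
    obtain ⟨k, hk⟩ := hneg n b
    exact hk (hTN k (Finset.mem_coe.2 (hb k))) (hbS k)
  -- the weight
  let w : ℕ → ℝ := fun n => ∑ b ∈ T0, (1 / (T0.card : ℝ)) * ind W (n + (-X - b ^ 2))
  have hT0pos : (0 : ℝ) < T0.card := by exact_mod_cast Finset.card_pos.2 hT0ne
  have hw0 : ∀ n, 0 ≤ w n := fun n =>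
    Finset.sum_nonneg (fun b _ => mul_nonneg (by positivity) (ind_nonneg _ _))
  have hwle : ∀ n : ℕ, w n ^ 2 ≤ ∑ k, (∑ i ∈ I k, c k i * ind (S k) (n - s k i)) ^ 2 := by
    intro n
    obtain ⟨k, hk⟩ := hTk n
    have h1 : ∑ i ∈ I k, c k i * ind (S k) (n - s k i) =
        -∑ b ∈ T0, (1 / (T0.card : ℝ)) * ind (S k) (n - (X + e k + b ^ 2)) := by
      simp only [I, c, s]
      rw [Finset.sum_disjSum]
      simp only [Sum.elim_inl, Sum.elim_inr]
      rw [Finset.sum_eq_zero (s := T k), zero_add, ← Finset.sum_neg_distrib]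
      · refine Finset.sum_congr rfl (fun b _ => ?_)
        ring
      · intro b hb
        have : ind (S k) ((n : ℤ) - b ^ 2) = 0 := by
          by_contra hc
          exact hk b hb (mem_of_ind_ne _ _ hc)
        rw [this, mul_zero]
    have h2 : w n ≤ ∑ b ∈ T0, (1 / (T0.card : ℝ)) * ind (S k) (n - (X + e k + b ^ 2)) := by
      refine Finset.sum_le_sum (fun b _ => mul_le_mul_of_nonneg_left ?_ (by positivity))
      have h3 := ind_mono_shift (S k) W (e k) (fun m hm => hm k) ((n : ℤ) + (-X - b ^ 2))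
      refine h3.trans (le_of_eq ?_)
      congr 1; ring
    have h4 : w n ^ 2 ≤ (∑ i ∈ I k, c k i * ind (S k) (n - s k i)) ^ 2 := by
      rw [h1, neg_sq]
      exact pow_le_pow_left₀ (hw0 n) h2 2
    refine h4.trans ?_
    exact Finset.single_le_sum
      (f := fun k => (∑ i ∈ I k, c k i * ind (S k) (n - s k i)) ^ 2)
      (fun i _ => sq_nonneg _) (Finset.mem_univ k)
  have hwsum : (L : ℝ) / (2 * g) ≤ ∑ n ∈ Finset.range L, w n := by
    simp only [w]
    rw [Finset.sum_comm]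
    simp_rw [← Finset.mul_sum]
    have h1 : ∀ b ∈ T0, (L : ℝ) / (2 * g) ≤ ∑ n ∈ Finset.range L, ind W (n + (-X - b ^ 2)) :=
      fun b _ => syn_freq W g hgpos hg L hL2 (-X - b ^ 2)
    have h2 := Finset.sum_le_sum h1
    rw [Finset.sum_const, nsmul_eq_mul] at h2
    have h3 := mul_le_mul_of_nonneg_left h2 (one_div_nonneg.2 hT0pos.le)
    refine le_trans (le_of_eq ?_) h3
    field_simp
  have hCS : (∑ n ∈ Finset.range L, w n) ^ 2 ≤ L * ∑ n ∈ Finset.range L, w n ^ 2 := by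
    have := sq_sum_le_card_mul_sum_sq (s := Finset.range L) (f := w)
    rwa [Finset.card_range] at this
  have hfinal : ∑ n ∈ Finset.range L, w n ^ 2 ≤
      ∑ k, ∑ n ∈ Finset.range L, (∑ i ∈ I k, c k i * ind (S k) (n - s k i)) ^ 2 := by
    rw [Finset.sum_comm]
    exact Finset.sum_le_sum (fun n _ => hwle n)
  have hL1' : ∑ k, ∑ n ∈ Finset.range L, (∑ i ∈ I k, c k i * ind (S k) (n - s k i)) ^ 2 <
      L * (1 / (4 * g ^ 2)) := by
    rw [← Finset.mul_sum] at hL1
    rw [one_div, inv_mul_lt_iff₀ hLpos] at hL1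
    exact hL1
  have h1 : ((L : ℝ) / (2 * g)) ^ 2 ≤ (∑ n ∈ Finset.range L, w n) ^ 2 :=
    pow_le_pow_left₀ (by positivity) hwsum 2
  have h2 : ((L : ℝ) / (2 * g)) ^ 2 < L * (L * (1 / (4 * g ^ 2))) := by
    refine (h1.trans hCS).trans_lt ?_
    exact mul_lt_mul_of_pos_left (hfinal.trans_lt hL1') hLpos
  have h3 : ((L : ℝ) / (2 * g)) ^ 2 = L * (L * (1 / (4 * g ^ 2))) := by
    field_simp; ring
  rw [h3] at h2
  exact lt_irrefl _ h2

end Pool.Agent.MP31db24.An

/-- Module A. -/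
theorem Pool.Agent.MP31db24.analytic_core (hZ : Pool.Agent.MP31db24.ReturnZero) :
    Pool.Agent.MP31db24.AnalyticCore :=
  Pool.Agent.MP31db24.An.analyticCore hZ
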