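import Mathlib

set_option autoImplicit false

namespace Pool.Agent.MP31db24

open Finset

/-- Simultaneous shifts to nonzero squares modulo a large prime (via Hales-Jewett). -/
theorem paley (κ : Type) [Fintype κ] : ∃ C : ℕ, ∀ p : ℕ, p.Prime → C < p → ∀ e : κ → ZMod p,
    ∃ x : ZMod p, ∀ k, ∃ y : ZMod p, y ≠ 0 ∧ y ^ 2 = x + e k := by
  classical
  obtain ⟨ι, hι, hHJ⟩ :=
    Combinatorics.Line.exists_mono_in_high_dimension (κ ⊕ κ) (Bool × Bool)
  refine ⟨Fintype.card ι + 2, fun p hp hC e => ?_⟩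
  have : Fact p.Prime := ⟨hp⟩
  have hp2 : ringChar (ZMod p) ≠ 2 := by
    rw [ZMod.ringChar_zmod_n]; omega
  obtain ⟨ν, hν⟩ := quadraticChar_exists_neg_one hp2
  have hν0 : ν ≠ 0 := by
    intro h
    rw [h, quadraticChar_zero] at hν
    norm_num at hν
  have hν1 : ν ≠ 1 := by
    intro h
    rw [h, map_one] at hν
    norm_num at hν
  let E : κ ⊕ κ → ZMod p := Sum.elim e (fun k => ν * e k)
  obtain ⟨l, c, hl⟩ := hHJ fun w =>
    (decide (quadraticChar (ZMod p) (∑ i, E (w i)) = 0),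
      decide (quadraticChar (ZMod p) (∑ i, E (w i)) = 1))
  let v : ℕ := (univ.filter fun i => l.idxFun i = none).card
  let s : ZMod p := ∑ i, (l.idxFun i).elim 0 E
  have hsum : ∀ x, ∑ i, E (l x i) = s + v * E x := by
    intro x
    have h1 : ∀ i, E (l x i) = (l.idxFun i).elim 0 E + if l.idxFun i = none then E x else 0 := by
      intro i
      have h2 : l x i = (l.idxFun i).getD x := rfl
      rw [h2]
      cases l.idxFun i with
      | none => simp
      | some y => simp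
    rw [sum_congr rfl fun i _ => h1 i, sum_add_distrib, sum_ite, sum_const_zero, add_zero,
      sum_const, nsmul_eq_mul]
  have hv0 : (v : ZMod p) ≠ 0 := by
    have h1 : 0 < v := by
      obtain ⟨i₀, hi₀⟩ := l.proper
      exact card_pos.2 ⟨i₀, by simp [hi₀]⟩
    have h2 : v ≤ Fintype.card ι := card_le_univ _
    intro h3
    rw [ZMod.natCast_eq_zero_iff] at h3
    have := Nat.le_of_dvd h1 h3
    omega
  let x₀ : ZMod p := s / v
  have hx₀ : ∀ a, s + v * E a = v * (x₀ + E a) := by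
    intro a
    simp only [x₀]
    field_simp
  -- the character is constant along the line
  have hconst : ∀ a b, quadraticChar (ZMod p) (x₀ + E a) = quadraticChar (ZMod p) (x₀ + E b) := by
    intro a b
    have h1 : quadraticChar (ZMod p) (v * (x₀ + E a)) = quadraticChar (ZMod p) (v * (x₀ + E b)) := by
      rw [← hx₀, ← hx₀, ← hsum, ← hsum]
      have ha := hl a
      have hb := hl b
      rw [← hb] at ha
      simp only [Prod.mk.injEq, decide_eq_decide] at ha
      obtain ⟨h2, h3⟩ := ha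
      by_cases h4 : ∑ i, E (l a i) = 0
      · rw [← quadraticChar_eq_zero_iff] at h4
        rw [h4, (h2.1 h4)]
      · by_cases h5 : ∑ i, E (l b i) = 0
        · rw [← quadraticChar_eq_zero_iff] at h5
          rw [h5, (h2.2 h5)]
        · rcases quadraticChar_dichotomy h4 with h6 | h6
          · rw [h6, h3.1 h6]
          · rcases quadraticChar_dichotomy h5 with h7 | h7
            · rw [h7, h3.2 h7]
            · rw [h6, h7]
    rw [map_mul, map_mul] at h1
    have h2 : quadraticChar (ZMod p) (v : ZMod p) ≠ 0 := by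
      rw [Ne, quadraticChar_eq_zero_iff]; exact hv0
    exact mul_left_cancel₀ h2 h1
  have hsq : ∀ z : ZMod p, quadraticChar (ZMod p) z = 1 → ∃ y : ZMod p, y ≠ 0 ∧ y ^ 2 = z := by
    intro z hz
    have hz0 : z ≠ 0 := by
      intro h
      rw [h, quadraticChar_zero] at hz
      norm_num at hz
    obtain ⟨y, hy⟩ := (quadraticChar_one_iff_isSquare hz0).1 hz
    refine ⟨y, ?_, by rw [hy]; ring⟩
    rintro rfl
    exact hz0 (by rw [hy]; ring)
  rcases isEmpty_or_nonempty κ with hκ | ⟨⟨k₀⟩⟩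
  · exact ⟨0, fun k => (hκ.false k).elim⟩
  by_cases h0 : x₀ + E (Sum.inl k₀) = 0
  · -- all values vanish
    have hall : ∀ a, x₀ + E a = 0 := by
      intro a
      rw [← quadraticChar_eq_zero_iff, hconst a (Sum.inl k₀), quadraticChar_eq_zero_iff]
      exact h0
    refine ⟨1, fun k => ⟨1, one_ne_zero, ?_⟩⟩
    have h1 := hall (Sum.inl k)
    have h2 := hall (Sum.inr k)
    simp only [E, Sum.elim_inl, Sum.elim_inr] at h1 h2
    have h3 : (1 - ν) * e k = 0 := by linear_combination h1 - h2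
    have h4 : e k = 0 := by
      rcases mul_eq_zero.1 h3 with h | h
      · exact absurd (sub_eq_zero.1 h).symm hν1
      · exact h
    rw [h4]; ring
  · rcases quadraticChar_dichotomy h0 with h1 | h1
    · refine ⟨x₀, fun k => hsq _ ?_⟩
      have := hconst (Sum.inl k) (Sum.inl k₀)
      rw [h1] at this
      exact this
    · refine ⟨x₀ / ν, fun k => hsq _ ?_⟩
      have h2 := hconst (Sum.inr k) (Sum.inl k₀)
      rw [h1] at h2
      have h3 : x₀ + E (Sum.inr k) = ν * (x₀ / ν + e k) := by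
        simp only [E, Sum.elim_inr]
        field_simp
      rw [h3, map_mul, hν] at h2
      linarith

/-- Square roots of `1 + 4 N u` close to one. -/
theorem sqrt_one (N u : ℤ) (J : ℕ) (hJ : 1 ≤ J) :
    ∃ s : ℤ, N ∣ s - 1 ∧ 4 * N ^ J ∣ s ^ 2 - 1 - 4 * N * u := by
  induction J, hJ using Nat.le_induction with
  | base =>
    refine ⟨1, by simp, ?_⟩
    rw [pow_one]
    exact ⟨-u, by ring⟩
  | succ J hJ ih =>
    obtain ⟨s, ⟨a, ha⟩, r, hr⟩ := ih
    refine ⟨s - 2 * N ^ J * r, ?_, ?_⟩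
    · obtain ⟨j, rfl⟩ : ∃ j, J = j + 1 := ⟨J - 1, by omega⟩
      exact ⟨a - 2 * N ^ j * r, by rw [pow_succ]; linear_combination ha⟩
    · obtain ⟨j, rfl⟩ : ∃ j, J = j + 1 := ⟨J - 1, by omega⟩
      refine ⟨-r * a + N ^ j * r ^ 2, ?_⟩
      have hs : s = 1 + N * a := by linear_combination ha
      have h1 : (s - 2 * N ^ (j + 1) * r) ^ 2 - 1 - 4 * N * u =
          (s ^ 2 - 1 - 4 * N * u) - 4 * N ^ (j + 1) * r * s + 4 * (N ^ (j + 1)) ^ 2 * r ^ 2 := by
        ring
      rw [h1, hr, hs]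
      ring

/-- Hensel lifting of square roots modulo an odd prime. -/
theorem hensel_sq (p : ℕ) (hp : p.Prime) (hp2 : p ≠ 2) (a y : ℤ) (hy : ¬ (p : ℤ) ∣ y)
    (hya : (p : ℤ) ∣ y ^ 2 - a) (v : ℕ) (hv : 1 ≤ v) :
    ∃ n : ℤ, (p : ℤ) ∣ n - y ∧ (p : ℤ) ^ v ∣ n ^ 2 - a := by
  induction v, hv using Nat.le_induction with
  | base => exact ⟨y, by simp, by simpa using hya⟩
  | succ v hv ih =>
    obtain ⟨n, hny, r, hr⟩ := ih
    have hpn : ¬ (p : ℤ) ∣ 2 * n := by
      intro h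
      rcases (Nat.prime_iff_prime_int.1 hp).dvd_or_dvd h with h1 | h1
      · have h2 := Int.natCast_dvd_natCast.1 (show ((p : ℕ) : ℤ) ∣ ((2 : ℕ) : ℤ) by exact_mod_cast h1)
        exact hp2 ((Nat.prime_dvd_prime_iff_eq hp Nat.prime_two).1 h2)
      · exact hy ((dvd_sub_right h1).1 hny)
    have hcop : IsCoprime (p : ℤ) (2 * n) :=
      (Prime.coprime_iff_not_dvd (Nat.prime_iff_prime_int.1 hp)).2 hpn
    obtain ⟨α, β, hαβ⟩ := hcop
    -- choose w = - r β
    refine ⟨n + p ^ v * (-(r * β)), ?_, ?_⟩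
    · obtain ⟨j, rfl⟩ : ∃ j, v = j + 1 := ⟨v - 1, by omega⟩
      have : n + (p : ℤ) ^ (j + 1) * (-(r * β)) - y = (n - y) + p * (p ^ j * (-(r * β))) := by ring
      rw [this]
      exact dvd_add hny (dvd_mul_right _ _)
    · obtain ⟨j, rfl⟩ : ∃ j, v = j + 1 := ⟨v - 1, by omega⟩
      refine ⟨r * α + p ^ j * (r * β) ^ 2, ?_⟩
      have h1 : (n + (p : ℤ) ^ (j + 1) * (-(r * β))) ^ 2 - a =
          (n ^ 2 - a) + p ^ (j + 1) * (-r) * (β * (2 * n)) + (p ^ (j + 1)) ^ 2 * (r * β) ^ 2 := by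
        ring
      have h2 : β * (2 * n) = 1 - α * p := by linear_combination hαβ
      rw [h1, hr, h2]
      ring

/-- Chinese remaindering for integers. -/
theorem crt (a b : ℤ) (h : IsCoprime a b) (x y : ℤ) : ∃ z : ℤ, a ∣ z - x ∧ b ∣ z - y := by
  obtain ⟨u, v, huv⟩ := h
  refine ⟨x * (v * b) + y * (u * a), ⟨u * (y - x), ?_⟩, ⟨v * (x - y), ?_⟩⟩
  · linear_combination x * huv
  · linear_combination y * huv

/-- A local solution of the square system. -/
def Sol {κ : Type} (m e : κ → ℤ) (X₀ : ℤ) (D M : ℕ) : Prop :=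
  ∃ (X : ℤ) (n : κ → ℤ), (∀ k, (M : ℤ) ∣ n k ^ 2 - X - e k) ∧
    ((D.gcd M : ℕ) : ℤ) ∣ X - X₀ ∧ ∀ k, ((D.gcd M : ℕ) : ℤ) ∣ n k - m k

theorem Sol.mul {κ : Type} {m e : κ → ℤ} {X₀ : ℤ} {D M₁ M₂ : ℕ} (hc : M₁.Coprime M₂)
    (h1 : Sol m e X₀ D M₁) (h2 : Sol m e X₀ D M₂) : Sol m e X₀ D (M₁ * M₂) := by
  obtain ⟨X₁, n₁, a1, b1, c1⟩ := h1
  obtain ⟨X₂, n₂, a2, b2, c2⟩ := h2
  have hc' : IsCoprime (M₁ : ℤ) (M₂ : ℤ) := Nat.isCoprime_iff_coprime.2 hc
  obtain ⟨X, hX1, hX2⟩ := crt _ _ hc' X₁ X₂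
  have hn : ∀ k, ∃ n : ℤ, (M₁ : ℤ) ∣ n - n₁ k ∧ (M₂ : ℤ) ∣ n - n₂ k := fun k =>
    crt _ _ hc' (n₁ k) (n₂ k)
  choose n hn1 hn2 using hn
  have hg : D.gcd (M₁ * M₂) = D.gcd M₁ * D.gcd M₂ := Nat.Coprime.gcd_mul D hc
  have hgc : IsCoprime ((D.gcd M₁ : ℕ) : ℤ) ((D.gcd M₂ : ℕ) : ℤ) :=
    Nat.isCoprime_iff_coprime.2 (Nat.Coprime.coprime_dvd_left (Nat.gcd_dvd_right _ _)
      (Nat.Coprime.coprime_dvd_right (Nat.gcd_dvd_right _ _) hc))
  have hd1 : ((D.gcd M₁ : ℕ) : ℤ) ∣ (M₁ : ℤ) := Int.natCast_dvd_natCast.2 (Nat.gcd_dvd_right _ _)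
  have hd2 : ((D.gcd M₂ : ℕ) : ℤ) ∣ (M₂ : ℤ) := Int.natCast_dvd_natCast.2 (Nat.gcd_dvd_right _ _)
  refine ⟨X, n, fun k => ?_, ?_, fun k => ?_⟩
  · push_cast
    apply hc'.mul_dvd
    · have : n k ^ 2 - X - e k = (n₁ k ^ 2 - X₁ - e k) + (n k - n₁ k) * (n k + n₁ k) -
          (X - X₁) := by ring
      rw [this]
      exact dvd_sub (dvd_add (a1 k) (Dvd.dvd.mul_right (hn1 k) _)) hX1
    · have : n k ^ 2 - X - e k = (n₂ k ^ 2 - X₂ - e k) + (n k - n₂ k) * (n k + n₂ k) -
          (X - X₂) := by ring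
      rw [this]
      exact dvd_sub (dvd_add (a2 k) (Dvd.dvd.mul_right (hn2 k) _)) hX2
  · rw [hg]
    push_cast
    apply hgc.mul_dvd
    · have : X - X₀ = (X - X₁) + (X₁ - X₀) := by ring
      rw [this]
      exact dvd_add (hd1.trans hX1) b1
    · have : X - X₀ = (X - X₂) + (X₂ - X₀) := by ring
      rw [this]
      exact dvd_add (hd2.trans hX2) b2
  · rw [hg]
    push_cast
    apply hgc.mul_dvd
    · have : n k - m k = (n k - n₁ k) + (n₁ k - m k) := by ring
      rw [this]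
      exact dvd_add (hd1.trans (hn1 k)) (c1 k)
    · have : n k - m k = (n k - n₂ k) + (n₂ k - m k) := by ring
      rw [this]
      exact dvd_add (hd2.trans (hn2 k)) (c2 k)

/-- Simultaneous square roots modulo every integer, close to given ones. -/
theorem profinite (κ : Type) [Fintype κ] (m : κ → ℤ) (hm : ∀ k, m k ≠ 0) (D : ℕ) (hD : 0 < D) :
    ∃ Q : ℕ, 0 < Q ∧ ∀ (X₀ : ℤ) (e : κ → ℤ), (∀ k, (Q : ℤ) ∣ X₀ + e k - m k ^ 2) →
      ∀ M : ℕ, 0 < M → Sol m e X₀ D M := by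
  classical
  obtain ⟨C, hC⟩ := paley κ
  let P : ℕ := ∏ k, (m k).natAbs ^ 2
  have hP : 0 < P := Finset.prod_pos fun k _ => pow_pos (Int.natAbs_pos.2 (hm k)) 2
  let N : ℕ := D * (C + 2).factorial * P
  have hN : 0 < N := Nat.mul_pos (Nat.mul_pos hD (Nat.factorial_pos _)) hP
  refine ⟨4 * N * P, by positivity, fun X₀ e he M hM => ?_⟩
  induction M using Nat.recOnPosPrimePosCoprime with
  | prime_pow p v hp hv =>
    by_cases hpN : p ∣ N
    · -- primes dividing N : near the given roots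
      have hroot : ∀ k, ∃ n : ℤ, ((p : ℤ) ^ v) ∣ n ^ 2 - X₀ - e k ∧ (N : ℤ) ∣ n - m k := by
        intro k
        obtain ⟨c, hc⟩ := he k
        obtain ⟨P', hP'⟩ : (m k).natAbs ^ 2 ∣ P := Finset.dvd_prod_of_mem _ (Finset.mem_univ k)
        have hPk : (P : ℤ) = m k ^ 2 * P' := by
          rw [hP']; push_cast; rw [sq_abs]
        obtain ⟨s, ⟨a, ha⟩, b, hb⟩ := sqrt_one N (P' * c) v hv
        refine ⟨m k * s, ?_, ?_⟩
        · have h1 : (m k * s) ^ 2 - X₀ - e k = m k ^ 2 * (s ^ 2 - 1 - 4 * N * (P' * c)) := by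
            push_cast at hc
            rw [hPk] at hc
            linear_combination -hc
          rw [h1, hb]
          refine Dvd.dvd.mul_left (Dvd.dvd.mul_right (Dvd.dvd.mul_left ?_ _) _) _
          exact pow_dvd_pow_of_dvd (Int.natCast_dvd_natCast.2 hpN) v
        · exact ⟨m k * a, by linear_combination m k * ha⟩
      choose n hn1 hn2 using hroot
      refine ⟨X₀, n, fun k => by push_cast; exact hn1 k, by simp, fun k => ?_⟩
      refine dvd_trans (Int.natCast_dvd_natCast.2 ?_) (hn2 k)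
      exact (Nat.gcd_dvd_left _ _).trans (by
        rw [show N = D * ((C + 2).factorial * P) by simp only [N]; ring]
        exact Nat.dvd_mul_right _ _)
    · have hpD : ¬ p ∣ D := fun h => hpN (by
        rw [show N = D * ((C + 2).factorial * P) by simp only [N]; ring]
        exact h.mul_right _)
      have hpC : ¬ p ∣ (C + 2).factorial := fun h => hpN (by
        rw [show N = (C + 2).factorial * (D * P) by simp only [N]; ring]
        exact h.mul_right _)
      have hpC' : C + 2 < p := by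
        by_contra hle
        push Not at hle
        exact hpC ((hp.dvd_factorial).2 hle)
      have hg : D.gcd (p ^ v) = 1 := by
        have : D.Coprime p := (Nat.Prime.coprime_iff_not_dvd hp).2 hpD |>.symm
        exact Nat.Coprime.pow_right v this
      have : Fact p.Prime := ⟨hp⟩
      obtain ⟨x, hx⟩ := hC p hp (by omega) (fun k => (e k : ZMod p))
      have hroot : ∀ k, ∃ n : ℤ, ((p : ℤ) ^ v) ∣ n ^ 2 - (x.val : ℤ) - e k := by
        intro k
        obtain ⟨y, hy0, hy⟩ := hx k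
        have h1 : ¬ (p : ℤ) ∣ (y.val : ℤ) := by
          intro h
          apply hy0
          have h2 : (((y.val : ℕ) : ℤ) : ZMod p) = 0 := (ZMod.intCast_zmod_eq_zero_iff_dvd _ p).2 h
          simpa using h2
        have h2 : (p : ℤ) ∣ (y.val : ℤ) ^ 2 - ((x.val : ℤ) + e k) := by
          rw [← ZMod.intCast_zmod_eq_zero_iff_dvd]
          push_cast
          rw [ZMod.natCast_zmod_val, ZMod.natCast_zmod_val, hy]
          ring
        obtain ⟨n, -, hn⟩ := hensel_sq p hp (by omega) _ _ h1 h2 v hv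
        refine ⟨n, ?_⟩
        rw [show n ^ 2 - (x.val : ℤ) - e k = n ^ 2 - ((x.val : ℤ) + e k) by ring]
        exact hn
      choose n hn using hroot
      refine ⟨x.val, n, fun k => by push_cast; exact hn k, ?_, fun k => ?_⟩
      · rw [hg]; simp
      · rw [hg]; simp
  | zero => omega
  | one => exact ⟨X₀, m, fun k => by simp, by simp, fun k => by simp⟩
  | coprime a b ha hb hab iha ihb => exact Sol.mul hab (iha (by omega)) (ihb (by omega))

end Pool.Agent.MP31db24
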