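import Pool.Agent.Lib.MP_31db24_co.Greedy

set_option autoImplicit false

namespace Pool.Agent.MP31db24

open Set Filter Topology

variable {r : ℕ} {χ : ℤ → Fin r} {M : Set (Om r)}

theorem alg8 (y θ : TT) (a u w s' : ℤ) (h : s' = a - u + w) :
    y + a • θ - u • θ + w • θ = y + s' • θ := by
  subst h
  rw [add_smul, sub_smul]
  abel

theorem MinS.contradiction (h : MinS χ M) (hno : ¬ Pattern χ) (hAC : AnalyticCore)
    (hZ : ReturnZero) (hN0 : NtZero) (hNC : NtCore) : False := by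
  classical
  obtain ⟨A, Y, hA, hYA, hP⟩ := h.greedy hno hZ hN0 Finset.univ
  -- alive colours
  let κ : Type := {k : Fin r // Alive M k A}
  have hD : ∀ k : κ, ∃ D : Data χ M k.1, ∀ Y' : ℤ, (fun θ => Y' • θ) ∈ A →
        ∀ (Θ' : Finset TT) (δ : ℝ), 0 < δ → ∃ u' : ℤ,
          (∀ θ ∈ Θ', ‖(u' - (Y' - D.t - D.m ^ 2)) • θ‖ < δ) ∧
          (∀ θ ∈ D.Θ, ‖(u' - D.m) • θ‖ < D.η ∧ ‖(u' ^ 2 - D.m ^ 2) • θ‖ < D.η) :=
    fun k => hP k.1 (Finset.mem_univ _) k.2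
  choose D hD using hD
  -- there is an alive colour
  obtain ⟨p₀, hp₀M, hp₀⟩ := h.exact hZ Y
  have hk₀ : Alive M (p₀.1 0) A := ⟨p₀, hp₀M, rfl, by rw [hp₀]; exact hYA⟩
  let k₀ : κ := ⟨p₀.1 0, hk₀⟩
  -- basic neighbourhood of Y
  obtain ⟨Θs, ρ, hρ, hbas⟩ := exists_basic hA hYA
  -- the common frequencies and tolerance
  let Θ₀ : Finset TT := (Finset.univ.biUnion fun k : κ => (D k).Θ) ∪ Θs
  obtain ⟨η, hη, hηD, hηρ⟩ : ∃ η : ℝ, 0 < η ∧ (∀ k : κ, η ≤ (D k).η) ∧ η ≤ ρ / 8 := by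
    have hne : (Finset.univ : Finset κ).Nonempty := ⟨k₀, Finset.mem_univ _⟩
    refine ⟨min (Finset.univ.inf' hne fun k => (D k).η) (ρ / 8), ?_, ?_, min_le_right _ _⟩
    · exact lt_min ((Finset.lt_inf'_iff hne).2 fun k _ => (D k).hη) (by linarith)
    · intro k
      exact (min_le_left _ _).trans (Finset.inf'_le _ (Finset.mem_univ k))
  obtain ⟨Θ₁, η₁, hη₁, hNT⟩ := hNC κ (fun k => (D k).m) (fun k => (D k).hm) Θ₀ η hη
  let Θ₂ : Finset TT := Θ₁ ∪ Θs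
  let η₂ : ℝ := min (η₁ / 2) (ρ / 8)
  have hη₂ : 0 < η₂ := lt_min (by linarith) (by linarith)
  let u : κ → ℤ := fun k => Y - (D k).t - (D k).m ^ 2
  -- the sets U_k
  let U : κ → Set (Om r) := fun k => (D k).V ∩ {p | ∀ θ ∈ Θ₂, ‖p.2.1 θ - (u k) • θ‖ < η₂}
  have hUo : ∀ k, IsOpen (U k) := by
    intro k
    refine (D k).hV.inter ?_
    exact (isOpen_close Θ₂ η₂ fun θ => (u k) • θ).preimage (continuous_fst.comp continuous_snd)
  have hUM : ∀ k, (U k ∩ M).Nonempty := by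
    intro k
    obtain ⟨u', hu1, hu2⟩ := hD k Y hYA Θ₂ η₂ hη₂
    obtain ⟨p, hpV, hpM, hpl⟩ := (D k).locate u' hu2
    refine ⟨p, ⟨hpV, ?_⟩, hpM⟩
    intro θ hθ
    rw [hpl]
    show ‖u' • θ - (u k) • θ‖ < η₂
    rw [← sub_smul]
    exact hu1 θ hθ
  -- return times
  obtain ⟨f₀, hf₀⟩ := h.ne
  have hj : ∀ k, ∃ j : ℤ, act (-j) f₀ ∈ U k := by
    intro k
    obtain ⟨n, hn⟩ := h.hit (hUo k) (hUM k) hf₀
    exact ⟨-n, by rw [neg_neg]; exact hn⟩
  choose j hj using hj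
  let e : κ → ℤ := fun k => j k - (D k).t
  let c : ℤ := u k₀ + j k₀
  let X₀ : ℤ := Y - c
  have hloc : ∀ k, ∀ θ ∈ Θ₂, ‖f₀.2.1 θ - (u k + j k) • θ‖ < η₂ := by
    intro k θ hθ
    have h1 := (hj k).2 θ hθ
    have h2 : (act (-(j k)) f₀).2.1 θ - (u k) • θ = f₀.2.1 θ - (u k + j k) • θ := by
      show f₀.2.1 θ + (-(j k)) • θ - (u k) • θ = _
      rw [add_smul, neg_smul]
      abel
    rwa [h2] at h1
  have hX₀ : ∀ k, ∀ θ ∈ Θ₂, ‖(X₀ + e k - (D k).m ^ 2) • θ‖ < 2 * η₂ := by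
    intro k θ hθ
    have h1 := hloc k θ hθ
    have h2 := hloc k₀ θ hθ
    have h3 : (X₀ + e k - (D k).m ^ 2) • θ =
        (f₀.2.1 θ - (u k₀ + j k₀) • θ) - (f₀.2.1 θ - (u k + j k) • θ) := by
      have h4 : (X₀ + e k - (D k).m ^ 2) = (u k + j k) - (u k₀ + j k₀) := by
        simp only [X₀, c, e, u]; ring
      rw [h4, sub_smul]
      abel
    rw [h3]
    calc _ ≤ _ := norm_sub_le _ _
      _ < η₂ + η₂ := add_lt_add h2 h1
      _ = 2 * η₂ := by ring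
  -- the analytic core
  obtain ⟨ΘA, δA, hδA, hcore⟩ := hAC κ
    (fun k => {s : ℤ | act (s - (D k).t) f₀ ∈ U k}) e (by
      let V : Set (Om r) := ⋂ k : κ, act (-(j k)) ⁻¹' U k
      have hV : IsOpen V := isOpen_iInter_of_finite fun k => (hUo k).preimage (continuous_act _)
      have hVM : (V ∩ M).Nonempty := ⟨f₀, by simpa [V] using hj, hf₀⟩
      obtain ⟨g, hg⟩ := h.synd hV hVM
      refine ⟨g, fun a => ?_⟩
      obtain ⟨n, hn0, hn1, hn2⟩ := hg _ (h.inv a f₀ hf₀)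
      refine ⟨n + a, ?_, by omega, by omega⟩
      intro k
      rw [act_add] at hn2
      simp only [V, mem_iInter, mem_preimage] at hn2
      have h1 := hn2 k
      rw [act_add] at h1
      show act (n + a - e k - (D k).t) f₀ ∈ U k
      have h2 : n + a - e k - (D k).t = -(j k) + (n + a) := by
        simp only [e]; ring
      rw [h2]
      exact h1)
  let Θ : Finset TT := ΘA ∪ Θ₂
  let δ : ℝ := min δA η₂
  have hδ : 0 < δ := lt_min hδA hη₂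
  obtain ⟨X, n, hX, hn1, hn2⟩ := hNT X₀ e (by
    intro k θ hθ
    have h1 := hX₀ k θ (Finset.mem_union_left _ hθ)
    have h2 : η₂ ≤ η₁ / 2 := min_le_left _ _
    linarith) Θ (δ / 2) (by linarith)
  let N : κ → Set ℤ := fun k => {b : ℤ | (D k).n₀ ≤ b ∧ act b (base χ) ∈
    (D k).V ∩ {p | ∀ θ ∈ Θ, ‖p.2.2 θ - (n k ^ 2) • θ‖ < δ / 2}}
  have hND : ∀ k, PosD (N k) := by
    intro k
    refine h.posD ?_ ?_ _
    · refine (D k).hV.inter ?_
      exact (isOpen_close Θ (δ / 2) fun θ => (n k ^ 2) • θ).preimage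
        (continuous_snd.comp continuous_snd)
    · obtain ⟨p, hpV, hpM, hpl⟩ := (D k).locate (n k) (by
        intro θ hθ
        have h1 := hn1 k θ (Finset.mem_union_left _
          (Finset.mem_biUnion.2 ⟨k, Finset.mem_univ _, hθ⟩))
        exact ⟨lt_of_lt_of_le h1.1 (hηD k), lt_of_lt_of_le h1.2 (hηD k)⟩)
      refine ⟨p, ⟨hpV, ?_⟩, hpM⟩
      intro θ _
      rw [hpl]
      simp only [loc, sub_self, norm_zero]
      linarith
  have hNclose : ∀ k, ∀ b ∈ N k, ∀ θ ∈ Θ, ‖(b ^ 2 - X - e k) • θ‖ < δ := by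
    intro k b hb θ hθ
    have h1 := hb.2.2 θ hθ
    rw [act_base] at h1
    simp only at h1
    rw [← sub_smul] at h1
    have h2 := hn2 k θ hθ
    have h3 : (b ^ 2 - X - e k) • θ = (b ^ 2 - n k ^ 2) • θ + (n k ^ 2 - X - e k) • θ := by
      rw [← add_smul]; congr 1; ring
    rw [h3]
    calc _ ≤ _ := norm_add_le _ _
      _ < δ / 2 + δ / 2 := add_lt_add h1 h2
      _ = δ := by ring
  obtain ⟨s, b, hsb⟩ := hcore X N hND (by
    intro k b hb θ hθ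
    exact lt_of_lt_of_le (hNclose k b hb θ (Finset.mem_union_left _ hθ)) (min_le_left _ _))
  -- the point giving the contradiction
  have hsM : act s f₀ ∈ M := h.inv s f₀ hf₀
  have hcol : ∀ k : κ, (act s f₀).1 0 ≠ k.1 := by
    intro k
    obtain ⟨hbN, hbS⟩ := hsb k
    have hbS' : act (s - (b k) ^ 2 - (D k).t) f₀ ∈ U k := hbS
    have h1 := (D k).good _ hbS'.1 (h.inv _ _ hf₀) (b k) hbN.1 hbN.2.1
    have h2 : (act (s - (b k) ^ 2 - (D k).t) f₀).1 ((D k).t + (b k) ^ 2) = (act s f₀).1 0 := by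
      show f₀.1 ((D k).t + (b k) ^ 2 + (s - (b k) ^ 2 - (D k).t)) = f₀.1 (0 + s)
      have h3 : (D k).t + (b k) ^ 2 + (s - (b k) ^ 2 - (D k).t) = 0 + s := by ring
      rw [h3]
    rwa [h2] at h1
  have hal : Alive M ((act s f₀).1 0) A := by
    refine ⟨act s f₀, hsM, rfl, hbas _ ?_⟩
    intro θ hθ
    have hθ₂ : θ ∈ Θ₂ := Finset.mem_union_right _ hθ
    have hθΘ : θ ∈ Θ := Finset.mem_union_right _ hθ₂
    have hθ₀ : θ ∈ Θ₀ := Finset.mem_union_right _ hθ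
    obtain ⟨hbN, hbS⟩ := hsb k₀
    have hbS' : act (s - (b k₀) ^ 2 - (D k₀).t) f₀ ∈ U k₀ := hbS
    have h1 := hbS'.2 θ hθ₂
    have h1' : (act (s - (b k₀) ^ 2 - (D k₀).t) f₀).2.1 θ =
        f₀.2.1 θ + (s - (b k₀) ^ 2 - (D k₀).t) • θ := rfl
    rw [h1'] at h1
    have h2 := hNclose k₀ (b k₀) hbN θ hθΘ
    have h3 := hX₀ k₀ θ hθ₂
    have h4 := hX θ hθ₀
    have h5 : (act s f₀).2.1 θ - Y • θ =
        (f₀.2.1 θ + (s - (b k₀) ^ 2 - (D k₀).t) • θ - (u k₀) • θ) +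
        ((b k₀ ^ 2 - X - e k₀) • θ + (X₀ + e k₀ - (D k₀).m ^ 2) • θ + (X - X₀) • θ) := by
      have h6 : (act s f₀).2.1 θ = f₀.2.1 θ + s • θ := rfl
      rw [h6, ← add_smul, ← add_smul]
      have h7 : f₀.2.1 θ + s • θ - Y • θ = f₀.2.1 θ + (s - Y) • θ := by
        rw [sub_smul]; abel
      have h8 : f₀.2.1 θ + (s - (b k₀) ^ 2 - (D k₀).t) • θ - (u k₀) • θ +
          (b k₀ ^ 2 - X - e k₀ + (X₀ + e k₀ - (D k₀).m ^ 2) + (X - X₀)) • θ =
          f₀.2.1 θ + (s - Y) • θ := by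
        apply alg8
        simp only [u]
        ring
      rw [h7, h8]
    rw [h5]
    have hη₂ρ : η₂ ≤ ρ / 8 := min_le_right _ _
    have hδη : δ ≤ η₂ := min_le_right _ _
    calc _ ≤ ‖f₀.2.1 θ + (s - (b k₀) ^ 2 - (D k₀).t) • θ - (u k₀) • θ‖ +
          ‖(b k₀ ^ 2 - X - e k₀) • θ + (X₀ + e k₀ - (D k₀).m ^ 2) • θ + (X - X₀) • θ‖ :=
            norm_add_le _ _
      _ ≤ ‖f₀.2.1 θ + (s - (b k₀) ^ 2 - (D k₀).t) • θ - (u k₀) • θ‖ +
          (‖(b k₀ ^ 2 - X - e k₀) • θ‖ + ‖(X₀ + e k₀ - (D k₀).m ^ 2) • θ‖ + ‖(X - X₀) • θ‖) := by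
            gcongr
            exact norm_add₃_le
      _ < η₂ + (δ + 2 * η₂ + η) := by linarith
      _ ≤ ρ := by linarith
  exact hcol ⟨_, hal⟩ rfl

/-- The main theorem, modulo the three modules. -/
theorem main_of (hAC : AnalyticCore) (hZ : ReturnZero) (hN0 : NtZero) (hNC : NtCore)
    (χ : ℤ → Fin r) : Pattern χ := by
  by_contra hno
  obtain ⟨M, h1, h2, h3, h4, h5⟩ := exists_minimal χ
  exact MinS.contradiction (M := M) ⟨h1, h2, h3, h4, h5⟩ hno hAC hZ hN0 hNC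

/-- The main theorem in the form of the frozen statement. -/
theorem frozen_of (hAC : AnalyticCore) (hZ : ReturnZero) (hN0 : NtZero) (hNC : NtCore)
    (r : ℕ) (c : ℕ → Fin r) :
      ∃ (b : ℕ → ℕ) (t : ℤ) (k : Fin r),
        StrictMono b ∧ 0 < b 0 ∧
        (∀ i : ℕ, ∃ n : ℕ, (n : ℤ) = (b i : ℤ) + t ∧ c n = k) ∧
        (∀ i j : ℕ, i < j →
          ∃ n : ℕ, (n : ℤ) = (b i : ℤ) ^ 2 + (b j : ℤ) + t ∧ c n = k) := by
  obtain ⟨b, t, k, hb, hbt, hb0, h1, h2⟩ := main_of hAC hZ hN0 hNC (fun i : ℤ => c i.toNat)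
  have hbpos : ∀ i, 0 < b i := fun i => lt_of_lt_of_le hb0 (hb.monotone (Nat.zero_le i))
  have hcast : ∀ i, ((b i).toNat : ℤ) = b i := fun i => Int.toNat_of_nonneg (hbpos i).le
  refine ⟨fun i => (b i).toNat, t, k, ?_, ?_, ?_, ?_⟩
  · intro i j hij
    have := hb hij
    have h3 := hcast i
    have h4 := hcast j
    show (b i).toNat < (b j).toNat
    omega
  · have := hcast 0
    show 0 < (b 0).toNat
    omega
  · intro i
    refine ⟨(b i + t).toNat, ?_, h1 i⟩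
    rw [hcast i, Int.toNat_of_nonneg (hbt i).le]
  · intro i j hij
    refine ⟨(b i ^ 2 + b j + t).toNat, ?_, h2 i j hij⟩
    rw [hcast i, hcast j, Int.toNat_of_nonneg]
    have h3 := hbt j
    have h4 := sq_nonneg (b i)
    linarith

end Pool.Agent.MP31db24
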