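import Mathlib

set_option autoImplicit false

namespace Pool.Agent.MP31db24

/-- The circle group `ℝ/ℤ`. -/
abbrev TT := AddCircle (1 : ℝ)

/-- A set of integers meeting every window of some fixed length. -/
def Syn (R : Set ℤ) : Prop := ∃ g : ℕ, ∀ a : ℤ, ∃ n ∈ R, a ≤ n ∧ n < a + g

/-- Positive upper Banach density. -/
def PosD (N : Set ℤ) : Prop :=
  ∃ ρ : ℝ, 0 < ρ ∧ ∀ L₀ : ℕ, ∃ L : ℕ, L₀ ≤ L ∧ ∃ x : ℤ,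
    ρ * L ≤ ((N ∩ Set.Ico x (x + L)).ncard : ℝ)

/-- Statement of module A. -/
def AnalyticCore : Prop :=
  ∀ (κ : Type) [Fintype κ] (S : κ → Set ℤ) (e : κ → ℤ),
    Syn {n : ℤ | ∀ k, n - e k ∈ S k} →
    ∃ (Θ : Finset TT) (δ : ℝ), 0 < δ ∧ ∀ (X : ℤ) (N : κ → Set ℤ), (∀ k, PosD (N k)) →
      (∀ k, ∀ b ∈ N k, ∀ θ ∈ Θ, ‖(b ^ 2 - X - e k) • θ‖ < δ) →
      ∃ (n : ℤ) (b : κ → ℤ), ∀ k, b k ∈ N k ∧ n - (b k) ^ 2 ∈ S k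

/-- Module B, part Z. -/
def ReturnZero : Prop :=
  ∀ (Θ : Finset TT) (δ : ℝ), 0 < δ →
    Syn {b : ℤ | ∀ θ ∈ Θ, ‖b • θ‖ < δ ∧ ‖b ^ 2 • θ‖ < δ}

/-- Module B, part NT0. -/
def NtZero : Prop :=
  ∀ (m : ℤ) (Θ₀ : Finset TT) (η : ℝ), 0 < η →
    ∃ (Θ₁ : Finset TT) (η₁ : ℝ), 0 < η₁ ∧
      ∀ u : ℤ, (∀ θ ∈ Θ₁, ‖(u - m) • θ‖ < η₁) →
        ∀ (Θ : Finset TT) (δ : ℝ), 0 < δ →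
          ∃ u' : ℤ, (∀ θ ∈ Θ, ‖(u' - u) • θ‖ < δ) ∧
            (∀ θ ∈ Θ₀, ‖(u' ^ 2 - m ^ 2) • θ‖ < η)

/-- Module B, part NT'. -/
def NtCore : Prop :=
  ∀ (κ : Type) [Fintype κ] (m : κ → ℤ), (∀ k, m k ≠ 0) →
    ∀ (Θ₀ : Finset TT) (η : ℝ), 0 < η →
    ∃ (Θ₁ : Finset TT) (η₁ : ℝ), 0 < η₁ ∧
      ∀ (X₀ : ℤ) (e : κ → ℤ), (∀ k, ∀ θ ∈ Θ₁, ‖(X₀ + e k - (m k) ^ 2) • θ‖ < η₁) →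
        ∀ (Θ : Finset TT) (δ : ℝ), 0 < δ →
          ∃ (X : ℤ) (n : κ → ℤ), (∀ θ ∈ Θ₀, ‖(X - X₀) • θ‖ < η) ∧
            (∀ k, ∀ θ ∈ Θ₀, ‖(n k - m k) • θ‖ < η ∧ ‖((n k) ^ 2 - (m k) ^ 2) • θ‖ < η) ∧
            (∀ k, ∀ θ ∈ Θ, ‖((n k) ^ 2 - X - e k) • θ‖ < δ)

end Pool.Agent.MP31db24
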