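import Pool.Agent.Lib.MP_31db24_co.Defs

set_option autoImplicit false

namespace Pool.Agent.MP31db24

open Set Filter Topology

variable {r : ℕ}

/-- State space: colourings together with a linear and a quadratic location. -/
abbrev Om (r : ℕ) : Type := (ℤ → Fin r) × (TT → TT) × (TT → TT)

/-- The shift action of the integers. -/
def act (n : ℤ) (p : Om r) : Om r :=
  (fun i => p.1 (i + n), fun θ => p.2.1 θ + n • θ,
    fun θ => p.2.2 θ + (2 * n) • p.2.1 θ + (n ^ 2) • θ)

theorem act_zero (p : Om r) : act 0 p = p := by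
  obtain ⟨f, y, z⟩ := p
  simp [act]

theorem act_add (m n : ℤ) (p : Om r) : act m (act n p) = act (m + n) p := by
  obtain ⟨f, y, z⟩ := p
  simp only [act]
  refine Prod.ext ?_ (Prod.ext ?_ ?_)
  · funext i
    simp only
    congr 1
    ring
  · funext θ
    simp only
    rw [add_assoc, ← add_smul, add_comm n m]
  · funext θ
    simp only [smul_add, smul_smul]
    have h1 : ((m + n) ^ 2) • θ = (m ^ 2) • θ + (2 * m * n) • θ + (n ^ 2) • θ := by
      rw [← add_smul, ← add_smul]; congr 1; ring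
    have h2 : (2 * (m + n)) • y θ = (2 * m) • y θ + (2 * n) • y θ := by
      rw [← add_smul]; congr 1; ring
    rw [h1, h2]
    abel

theorem continuous_act (n : ℤ) : Continuous (act n : Om r → Om r) := by
  unfold act
  refine Continuous.prodMk ?_ (Continuous.prodMk ?_ ?_)
  · exact continuous_pi fun i => (continuous_apply (i + n)).comp continuous_fst
  · exact continuous_pi fun θ =>
      ((continuous_apply θ).comp (continuous_fst.comp continuous_snd)).add continuous_const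
  · refine continuous_pi fun θ => ?_
    refine Continuous.add (Continuous.add ?_ ?_) continuous_const
    · exact (continuous_apply θ).comp (continuous_snd.comp continuous_snd)
    · exact ((continuous_apply θ).comp (continuous_fst.comp continuous_snd)).zsmul (2 * n)

/-- The base point over a colouring. -/
def base (χ : ℤ → Fin r) : Om r := (χ, fun _ => 0, fun _ => 0)

theorem act_base (χ : ℤ → Fin r) (b : ℤ) :
    act b (base χ) = (fun i => χ (i + b), fun θ => b • θ, fun θ => (b ^ 2) • θ) := by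
  simp [act, base]

/-- The orbit closure at infinity. -/
def Lim (χ : ℤ → Fin r) : Set (Om r) :=
  ⋂ n : ℕ, closure {p | ∃ b : ℤ, (n : ℤ) ≤ b ∧ act b (base χ) = p}

theorem lim_closed (χ : ℤ → Fin r) : IsClosed (Lim χ) :=
  isClosed_iInter fun _ => isClosed_closure

theorem lim_nonempty (χ : ℤ → Fin r) : (Lim χ).Nonempty := by
  unfold Lim
  refine IsCompact.nonempty_iInter_of_directed_nonempty_isCompact_isClosed _ ?_ ?_ ?_ ?_
  · intro i j
    refine ⟨max i j, closure_mono ?_, closure_mono ?_⟩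
    · rintro p ⟨b, hb, rfl⟩
      exact ⟨b, le_trans (by exact_mod_cast le_max_left i j) hb, rfl⟩
    · rintro p ⟨b, hb, rfl⟩
      exact ⟨b, le_trans (by exact_mod_cast le_max_right i j) hb, rfl⟩
  · intro i
    exact ⟨_, subset_closure ⟨i, le_refl _, rfl⟩⟩
  · intro i
    exact isClosed_closure.isCompact
  · intro i
    exact isClosed_closure

theorem lim_inv (χ : ℤ → Fin r) (n : ℤ) (p : Om r) (hp : p ∈ Lim χ) : act n p ∈ Lim χ := by
  unfold Lim at hp ⊢
  rw [mem_iInter] at hp ⊢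
  intro k
  have h1 := hp (k + n.natAbs)
  have h2 : act n p ∈ closure (act n '' {p | ∃ b : ℤ, ((k + n.natAbs : ℕ) : ℤ) ≤ b ∧
      act b (base χ) = p}) :=
    image_closure_subset_closure_image (continuous_act n) ⟨p, h1, rfl⟩
  refine closure_mono ?_ h2
  rintro _ ⟨_, ⟨b, hb, rfl⟩, rfl⟩
  refine ⟨n + b, ?_, (act_add n b _).symm⟩
  push_cast at hb
  have : -|n| ≤ n := neg_abs_le n
  omega

theorem exists_minimal (χ : ℤ → Fin r) :
    ∃ M : Set (Om r), M ⊆ Lim χ ∧ IsClosed M ∧ M.Nonempty ∧ (∀ (n : ℤ), ∀ p ∈ M, act n p ∈ M) ∧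
      (∀ M' ⊆ M, IsClosed M' → M'.Nonempty → (∀ (n : ℤ), ∀ p ∈ M', act n p ∈ M') → M' = M) := by
  let F : Set (Set (Om r)) :=
    {A | A ⊆ Lim χ ∧ IsClosed A ∧ A.Nonempty ∧ ∀ (n : ℤ), ∀ p ∈ A, act n p ∈ A}
  have hF : Lim χ ∈ F := ⟨Subset.rfl, lim_closed χ, lim_nonempty χ, lim_inv χ⟩
  obtain ⟨M, hM1, hM2⟩ := zorn_superset_nonempty F (by
    intro c hc hchain hcne
    refine ⟨⋂₀ c, ⟨?_, ?_, ?_, ?_⟩, fun s hs => sInter_subset_of_mem hs⟩
    · obtain ⟨s, hs⟩ := hcne
      exact (sInter_subset_of_mem hs).trans (hc hs).1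
    · exact isClosed_sInter fun s hs => (hc hs).2.1
    · have : Nonempty c := hcne.to_subtype
      rw [sInter_eq_iInter]
      refine IsCompact.nonempty_iInter_of_directed_nonempty_isCompact_isClosed _ ?_ ?_ ?_ ?_
      · rintro ⟨s, hs⟩ ⟨t, ht⟩
        rcases hchain.total hs ht with h | h
        · exact ⟨⟨s, hs⟩, Subset.rfl, h⟩
        · exact ⟨⟨t, ht⟩, h, Subset.rfl⟩
      · rintro ⟨s, hs⟩
        exact (hc hs).2.2.1
      · rintro ⟨s, hs⟩
        exact (hc hs).2.1.isCompact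
      · rintro ⟨s, hs⟩
        exact (hc hs).2.1
    · intro n p hp s hs
      exact (hc hs).2.2.2 n p (hp s hs)) (Lim χ) hF
  refine ⟨M, hM2.prop.1, hM2.prop.2.1, hM2.prop.2.2.1, hM2.prop.2.2.2, ?_⟩
  intro M' hsub hcl hne hinv
  exact (hM2.eq_of_subset ⟨hsub.trans hM2.prop.1, hcl, hne, hinv⟩ hsub).symm ▸ rfl

/-- A minimal set for the colouring. -/
structure MinS (χ : ℤ → Fin r) (M : Set (Om r)) : Prop where
  sub : M ⊆ Lim χ
  closed : IsClosed M
  ne : M.Nonempty
  inv : ∀ (n : ℤ), ∀ p ∈ M, act n p ∈ M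
  mnl : ∀ M' ⊆ M, IsClosed M' → M'.Nonempty → (∀ (n : ℤ), ∀ p ∈ M', act n p ∈ M') → M' = M

variable {χ : ℤ → Fin r} {M : Set (Om r)}

theorem MinS.approx (h : MinS χ M) {p : Om r} (hp : p ∈ M) {V : Set (Om r)} (hV : IsOpen V)
    (hpV : p ∈ V) (n₀ : ℤ) : ∃ b : ℤ, n₀ ≤ b ∧ act b (base χ) ∈ V := by
  have h1 := h.sub hp
  unfold Lim at h1
  rw [mem_iInter] at h1
  have h2 := h1 n₀.toNat
  rw [mem_closure_iff] at h2
  obtain ⟨q, hq, b, hb, rfl⟩ := h2 V hV hpV
  exact ⟨b, le_trans (Int.self_le_toNat n₀) hb, hq⟩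

theorem MinS.hit (h : MinS χ M) {V : Set (Om r)} (hV : IsOpen V) (hVM : (V ∩ M).Nonempty)
    {p : Om r} (hp : p ∈ M) : ∃ n : ℤ, act n p ∈ V := by
  by_contra hcon
  push Not at hcon
  let M' : Set (Om r) := {q | q ∈ M ∧ ∀ n : ℤ, act n q ∉ V}
  have hM' : M' = M := by
    apply h.mnl
    · exact fun q hq => hq.1
    · have : M' = M ∩ ⋂ n : ℤ, (act n ⁻¹' V)ᶜ := by
        ext q; simp [M']
      rw [this]
      exact h.closed.inter (isClosed_iInter fun n =>
        (hV.preimage (continuous_act n)).isClosed_compl)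
    · exact ⟨p, hp, hcon⟩
    · intro n q hq
      refine ⟨h.inv n q hq.1, fun k => ?_⟩
      rw [act_add]
      exact hq.2 _
  obtain ⟨q, hqV, hqM⟩ := hVM
  rw [← hM'] at hqM
  have := hqM.2 0
  rw [act_zero] at this
  exact this hqV

theorem MinS.synd (h : MinS χ M) {V : Set (Om r)} (hV : IsOpen V) (hVM : (V ∩ M).Nonempty) :
    ∃ g : ℕ, ∀ p ∈ M, ∃ n : ℤ, 0 ≤ n ∧ n < g ∧ act n p ∈ V := by
  have hcomp : IsCompact M := h.closed.isCompact
  obtain ⟨t, ht⟩ := hcomp.elim_finite_subcover (fun n : ℤ => act n ⁻¹' V)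
    (fun n => hV.preimage (continuous_act n)) (by
      intro p hp
      obtain ⟨n, hn⟩ := h.hit hV hVM hp
      exact mem_iUnion.2 ⟨n, hn⟩)
  let B : ℕ := t.sup Int.natAbs
  refine ⟨2 * B + 1, fun p hp => ?_⟩
  have h1 := ht (h.inv B p hp)
  rw [mem_iUnion₂] at h1
  obtain ⟨n, hn, hnV⟩ := h1
  have hle : n.natAbs ≤ B := Finset.le_sup (f := Int.natAbs) hn
  refine ⟨n + B, ?_, ?_, ?_⟩
  · omega
  · push_cast; omega
  · rw [← act_add]; exact hnV

/-- Visits of the base point to an open set meeting the minimal set have positive density. -/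
theorem MinS.posD (h : MinS χ M) {V : Set (Om r)} (hV : IsOpen V) (hVM : (V ∩ M).Nonempty)
    (n₀ : ℤ) : PosD {b : ℤ | n₀ ≤ b ∧ act b (base χ) ∈ V} := by
  obtain ⟨g, hg⟩ := h.synd hV hVM
  obtain ⟨p, hp⟩ := h.ne
  have hg0 : 0 < g := by
    obtain ⟨n, hn0, hn1, -⟩ := hg p hp
    omega
  refine ⟨1 / g, by positivity, fun L₀ => ?_⟩
  -- choose return times in consecutive blocks
  have hch : ∀ j : ℕ, ∃ n : ℤ, (j * g : ℤ) ≤ n ∧ n < (j + 1) * g ∧ act n p ∈ V := by
    intro j
    obtain ⟨n, h0, h1, h2⟩ := hg _ (h.inv (j * g) p hp)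
    refine ⟨n + j * g, by omega, by linarith, ?_⟩
    rw [← act_add]; exact h2
  choose s hs0 hs1 hs2 using hch
  let W : Set (Om r) := ⋂ j ∈ Finset.range L₀, act (s j) ⁻¹' V
  have hW : IsOpen W := isOpen_biInter_finset fun j _ => hV.preimage (continuous_act _)
  have hpW : p ∈ W := by
    simp only [W, mem_iInter]
    intro j _
    exact hs2 j
  obtain ⟨x, hx0, hxW⟩ := h.approx hp hW hpW n₀
  refine ⟨L₀ * g, Nat.le_mul_of_pos_right _ hg0, x, ?_⟩
  have hsub : ((Finset.range L₀).image fun j => x + s j : Set ℤ) ⊆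
      {b : ℤ | n₀ ≤ b ∧ act b (base χ) ∈ V} ∩ Set.Ico x (x + ((L₀ * g : ℕ) : ℤ)) := by
    intro b hb
    simp only [Finset.coe_image, mem_image, Finset.mem_coe, Finset.mem_range] at hb
    obtain ⟨j, hj, rfl⟩ := hb
    have hsj0 := hs0 j
    have hsj1 := hs1 j
    have hpos : (0 : ℤ) ≤ j * g := by positivity
    have hle : ((j : ℤ) + 1) * g ≤ (L₀ : ℤ) * g := by
      have : (j : ℤ) + 1 ≤ L₀ := by exact_mod_cast hj
      exact mul_le_mul_of_nonneg_right this (by positivity)
    refine ⟨⟨by linarith, ?_⟩, by linarith, by push_cast; linarith⟩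
    rw [add_comm, ← act_add]
    simp only [W, mem_iInter] at hxW
    exact hxW j (Finset.mem_range.2 hj)
  have hinj : Set.InjOn (fun j => x + s j) (Finset.range L₀ : Set ℕ) := by
    intro i _ j _ hij
    simp only [add_right_inj] at hij
    rcases lt_trichotomy i j with hlt | heq | hgt
    · exfalso
      have h1 := hs1 i
      have h2 := hs0 j
      have : ((i : ℤ) + 1) * g ≤ (j : ℤ) * g := by
        have : (i : ℤ) + 1 ≤ j := by exact_mod_cast hlt
        exact mul_le_mul_of_nonneg_right this (by positivity)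
      omega
    · exact heq
    · exfalso
      have h1 := hs1 j
      have h2 := hs0 i
      have : ((j : ℤ) + 1) * g ≤ (i : ℤ) * g := by
        have : (j : ℤ) + 1 ≤ i := by exact_mod_cast hgt
        exact mul_le_mul_of_nonneg_right this (by positivity)
      omega
  have hcard : L₀ ≤ ({b : ℤ | n₀ ≤ b ∧ act b (base χ) ∈ V} ∩
      Set.Ico x (x + ((L₀ * g : ℕ) : ℤ))).ncard := by
    have h1 := Set.ncard_le_ncard hsub ((Set.finite_Ico _ _).subset inter_subset_right)
    rw [Set.ncard_coe_finset, Finset.card_image_of_injOn hinj, Finset.card_range] at h1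
    exact h1
  have hgR : (0 : ℝ) < g := by exact_mod_cast hg0
  calc (1 / (g : ℝ)) * ((L₀ * g : ℕ) : ℝ) = L₀ := by push_cast; field_simp
    _ ≤ _ := by exact_mod_cast hcard

end Pool.Agent.MP31db24
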