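import Pool.Agent.Lib.MP_31db24_co.Dyn

set_option autoImplicit false

namespace Pool.Agent.MP31db24

open Set Filter Topology

variable {r : ℕ} {χ : ℤ → Fin r} {M : Set (Om r)}

/-- The pattern we look for, for a colouring of the integers. -/
def Pattern (χ : ℤ → Fin r) : Prop :=
  ∃ (b : ℕ → ℤ) (t : ℤ) (k : Fin r), StrictMono b ∧ (∀ i, 0 < b i + t) ∧ 0 < b 0 ∧
    (∀ i, χ (b i + t) = k) ∧ (∀ i j, i < j → χ (b i ^ 2 + b j + t) = k)

/-- Extraction of the pattern from a point. -/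
theorem pattern_of (χ : ℤ → Fin r) (f : ℤ → Fin r) (t : ℤ)
    (h : ∀ m : ℕ, ∃ b : ℤ, (m : ℤ) ≤ b ∧ (∀ i : ℤ, |i| ≤ m → χ (i + b) = f i) ∧
      f (t + b ^ 2) = f t) : Pattern χ := by
  choose B hB1 hB2 hB3 using h
  -- recursive choice
  let step : ℕ → ℕ := fun m => ((B m) ^ 2).natAbs + t.natAbs + (B m).natAbs + 1
  let s : ℕ → ℕ := fun n => step^[n] (t.natAbs + 1)
  have hs0 : s 0 = t.natAbs + 1 := rfl
  have hs1 : ∀ n, s (n + 1) = ((B (s n)) ^ 2).natAbs + t.natAbs + (B (s n)).natAbs + 1 := by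
    intro n
    simp only [s, Function.iterate_succ_apply']
    rfl
  have hBpos : ∀ n, (t.natAbs : ℤ) + 1 ≤ B (s n) := by
    intro n
    have h1 := hB1 (s n)
    cases n with
    | zero => rw [hs0] at h1 ⊢; push_cast at h1 ⊢; linarith
    | succ n => rw [hs1] at h1 ⊢; push_cast at h1 ⊢; linarith [abs_nonneg (B (s n)), abs_nonneg (B (s n) ^ 2)]
  have hmonos : StrictMono fun n => B (s n) := by
    apply strictMono_nat_of_lt_succ
    intro n
    have h1 := hB1 (s (n + 1))
    rw [hs1] at h1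
    rw [hs1]
    have : B (s n) ≤ |B (s n)| := le_abs_self _
    push_cast at h1
    have h2 : (0 : ℤ) ≤ |B (s n) ^ 2| := abs_nonneg _
    have h3 : (0 : ℤ) ≤ |t| := abs_nonneg _
    linarith
  have hge : ∀ i j, i < j → ((B (s i)) ^ 2).natAbs + t.natAbs + 1 ≤ s j := by
    intro i j hij
    have hsm : ∀ n, s n ≤ s (n + 1) := by
      intro n
      rw [hs1]
      have := hB1 (s n)
      omega
    have hmono : Monotone s := monotone_nat_of_le_succ hsm
    calc ((B (s i)) ^ 2).natAbs + t.natAbs + 1 ≤ s (i + 1) := by rw [hs1]; omega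
      _ ≤ s j := hmono hij
  refine ⟨fun n => B (s n), t, f t, hmonos, ?_, ?_, ?_, ?_⟩
  · intro i
    have := hBpos i
    show 0 < B (s i) + t
    omega
  · have := hBpos 0
    simp only
    omega
  · intro i
    have h1 := hB2 (s i) t (by
      have : t.natAbs + 1 ≤ s i := by
        cases i with
        | zero => rw [hs0]
        | succ n => rw [hs1]; omega
      have h2 : ((t.natAbs : ℕ) : ℤ) = |t| := Int.natCast_natAbs t
      rw [← h2]
      exact_mod_cast (by omega : t.natAbs ≤ s i))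
    rw [add_comm]; exact h1
  · intro i j hij
    have h1 := hB2 (s j) (t + (B (s i)) ^ 2) (by
      have h3 := hge i j hij
      have h4 : |t + (B (s i)) ^ 2| ≤ |t| + |(B (s i)) ^ 2| := abs_add_le _ _
      have h5 : (((B (s i) ^ 2).natAbs : ℕ) : ℤ) = |(B (s i)) ^ 2| := Int.natCast_natAbs _
      have h6 : ((t.natAbs : ℕ) : ℤ) = |t| := Int.natCast_natAbs t
      have h7 : (((B (s i) ^ 2).natAbs : ℕ) : ℤ) + ((t.natAbs : ℕ) : ℤ) + 1 ≤ s j := by
        exact_mod_cast h3
      rw [h5, h6] at h7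
      linarith)
    have h2 : B (s i) ^ 2 + B (s j) + t = (t + B (s i) ^ 2) + B (s j) := by ring
    show χ (B (s i) ^ 2 + B (s j) + t) = f t
    rw [h2, h1]
    exact hB3 (s i)

/-- Uniformization by the Baire category theorem. -/
theorem MinS.good (h : MinS χ M) (hno : ¬ Pattern χ) (t : ℤ) {O : Set (Om r)} (hO : IsOpen O)
    (hOM : (O ∩ M).Nonempty) :
    ∃ V : Set (Om r), IsOpen V ∧ (V ∩ M).Nonempty ∧ V ⊆ O ∧ ∃ n₀ : ℤ,
      ∀ g ∈ V, g ∈ M → ∀ b : ℤ, n₀ ≤ b → act b (base χ) ∈ V → g.1 (t + b ^ 2) ≠ g.1 t := by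
  have hcomp : CompactSpace M := isCompact_iff_compactSpace.1 h.closed.isCompact
  let C : ℕ → Set M := fun m => {f | ∀ b : ℤ, (m : ℤ) ≤ b →
    (∀ i : ℤ, |i| ≤ m → χ (i + b) = f.1.1 i) → f.1.1 (t + b ^ 2) ≠ f.1.1 t}
  have hcont : ∀ i : ℤ, Continuous fun f : M => f.1.1 i := fun i =>
    (continuous_apply i).comp (continuous_fst.comp continuous_subtype_val)
  have hclosed : ∀ m, IsClosed (C m) := by
    intro m
    have : C m = ⋂ b : ℤ, ⋂ _ : (m : ℤ) ≤ b,
        ((⋃ i ∈ Set.Icc (-(m : ℤ)) m, {f : M | χ (i + b) ≠ f.1.1 i}) ∪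
          {f : M | f.1.1 (t + b ^ 2) ≠ f.1.1 t}) := by
      ext f
      simp only [C, mem_ofPred_eq, mem_iInter, mem_union, mem_iUnion, Set.mem_Icc, abs_le]
      constructor
      · intro h1 b hb
        by_cases h2 : ∀ i : ℤ, -(m : ℤ) ≤ i ∧ i ≤ m → χ (i + b) = f.1.1 i
        · right
          exact h1 b hb h2
        · left
          push Not at h2
          obtain ⟨i, hi, hne⟩ := h2
          exact ⟨i, hi, hne⟩
      · intro h1 b hb h2
        rcases h1 b hb with ⟨i, hi, hne⟩ | h3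
        · exact absurd (h2 i hi) hne
        · exact h3
    rw [this]
    refine isClosed_iInter fun b => isClosed_iInter fun _ => IsClosed.union ?_ ?_
    · refine Set.Finite.isClosed_biUnion (Set.finite_Icc _ _) fun i _ => ?_
      have : {f : M | χ (i + b) ≠ f.1.1 i} = (fun f : M => f.1.1 i) ⁻¹' {χ (i + b)}ᶜ := by
        ext f; simp [eq_comm]
      rw [this]
      exact (isClosed_discrete _).preimage (hcont i)
    · have : {f : M | f.1.1 (t + b ^ 2) ≠ f.1.1 t} =
          (fun f : M => (f.1.1 (t + b ^ 2), f.1.1 t)) ⁻¹' {q | q.1 ≠ q.2} := by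
        ext f; simp
      rw [this]
      exact (isClosed_discrete _).preimage ((hcont _).prodMk (hcont _))
  have hun : ⋃ m, C m = univ := by
    rw [eq_univ_iff_forall]
    intro f
    by_contra hf
    simp only [mem_iUnion, not_exists] at hf
    apply hno
    apply pattern_of χ f.1.1 t
    intro m
    have := hf m
    simp only [C, mem_ofPred_eq] at this
    push Not at this
    obtain ⟨b, hb, h1, h2⟩ := this
    exact ⟨b, hb, h1, h2⟩
  have hdense := dense_iUnion_interior_of_closed hclosed hun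
  have hO' : IsOpen (Subtype.val ⁻¹' O : Set M) := hO.preimage continuous_subtype_val
  have hne' : (Subtype.val ⁻¹' O : Set M).Nonempty := by
    obtain ⟨p, hpO, hpM⟩ := hOM
    exact ⟨⟨p, hpM⟩, hpO⟩
  obtain ⟨p, hpO, hpC⟩ := hdense.inter_open_nonempty _ hO' hne'
  rw [mem_iUnion] at hpC
  obtain ⟨m, hpm⟩ := hpC
  obtain ⟨V₁, hV₁, hV₁eq⟩ := isOpen_induced_iff.1 (isOpen_interior (s := C m))
  have hpV₁ : p.1 ∈ V₁ := by
    have : p ∈ Subtype.val ⁻¹' V₁ := by rw [hV₁eq]; exact hpm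
    exact this
  let V : Set (Om r) := O ∩ V₁ ∩ ⋂ i ∈ Set.Icc (-(m : ℤ)) m, {f : Om r | f.1 i = p.1.1 i}
  refine ⟨V, ?_, ⟨p.1, ⟨⟨hpO, hpV₁⟩, ?_⟩, p.2⟩, fun q hq => hq.1.1, m, ?_⟩
  · refine (hO.inter hV₁).inter ?_
    refine Set.Finite.isOpen_biInter (Set.finite_Icc _ _) fun i _ => ?_
    have : {f : Om r | f.1 i = p.1.1 i} = (fun f : Om r => f.1 i) ⁻¹' {p.1.1 i} := by
      ext f; simp
    rw [this]
    exact (isOpen_discrete _).preimage ((continuous_apply i).comp continuous_fst)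
  · simp only [mem_iInter]
    intro i _
    rfl
  · intro g hgV hgM b hb hbV
    have hgC : (⟨g, hgM⟩ : M) ∈ C m := by
      apply interior_subset
      rw [← hV₁eq]
      exact hgV.1.2
    apply hgC b hb
    intro i hi
    have h1 := hgV.2
    have h2 := hbV.2
    rw [abs_le] at hi
    simp only [mem_iInter, Set.mem_Icc, mem_ofPred_eq] at h1 h2
    rw [h1 i hi, ← h2 i hi, act_base]

end Pool.Agent.MP31db24
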