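import Pool.Agent.Lib.MP_31db24_co.Loc

set_option autoImplicit false

namespace Pool.Agent.MP31db24

open Set Filter Topology

variable {r : ℕ} {χ : ℤ → Fin r} {M : Set (Om r)}

/-- A colour is alive over a set of linear locations. -/
def Alive (M : Set (Om r)) (k : Fin r) (A : Set (TT → TT)) : Prop :=
  ∃ p ∈ M, p.1 0 = k ∧ p.2.1 ∈ A

/-- The data attached to an alive colour. -/
structure Data (χ : ℤ → Fin r) (M : Set (Om r)) (k : Fin r) where
  t : ℤ
  V : Set (Om r)
  n₀ : ℤ
  m : ℤ
  Θ : Finset TT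
  η : ℝ
  hV : IsOpen V
  hη : 0 < η
  hm : m ≠ 0
  good : ∀ g ∈ V, g ∈ M → ∀ b : ℤ, n₀ ≤ b → act b (base χ) ∈ V → g.1 (t + b ^ 2) ≠ k
  locate : ∀ m' : ℤ, (∀ θ ∈ Θ, ‖(m' - m) • θ‖ < η ∧ ‖(m' ^ 2 - m ^ 2) • θ‖ < η) →
      ∃ p ∈ V, p ∈ M ∧ p.2 = loc m'

/-- The greedy choice of good sets over the colours. -/
theorem MinS.greedy (h : MinS χ M) (hno : ¬ Pattern χ) (hZ : ReturnZero) (hN0 : NtZero)
    (P : Finset (Fin r)) :
    ∃ (A : Set (TT → TT)) (Y : ℤ), IsOpen A ∧ (fun θ => Y • θ) ∈ A ∧
      ∀ k ∈ P, Alive M k A → ∃ D : Data χ M k, ∀ Y' : ℤ, (fun θ => Y' • θ) ∈ A →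
        ∀ (Θ' : Finset TT) (δ : ℝ), 0 < δ → ∃ u' : ℤ,
          (∀ θ ∈ Θ', ‖(u' - (Y' - D.t - D.m ^ 2)) • θ‖ < δ) ∧
          (∀ θ ∈ D.Θ, ‖(u' - D.m) • θ‖ < D.η ∧ ‖(u' ^ 2 - D.m ^ 2) • θ‖ < D.η) := by
  classical
  induction P using Finset.induction_on with
  | empty => exact ⟨univ, 0, isOpen_univ, mem_univ _, by simp⟩
  | insert k P hk ih =>
    obtain ⟨A, Y, hA, hYA, hP⟩ := ih
    by_cases hal : Alive M k A
    · obtain ⟨gt, hgM, hgk, hgA⟩ := hal
      obtain ⟨Θ₁, η₁, hη₁, hb1⟩ := exists_basic hA hgA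
      obtain ⟨t, ht⟩ := h.back hZ hgM Θ₁ hη₁
      set ft : Om r := act (-t) gt with hft
      have hgt : gt = act t ft := by rw [hft, act_add]; simp [act_zero]
      -- the open set O
      let O : Set (Om r) := {p | p.1 t = k} ∩ {p | (fun θ => p.2.1 θ + t • θ + p.2.2 θ) ∈ A}
      have hO : IsOpen O := by
        refine IsOpen.inter ?_ ?_
        · have : {p : Om r | p.1 t = k} = (fun p : Om r => p.1 t) ⁻¹' {k} := by ext; simp
          rw [this]
          exact (isOpen_discrete _).preimage ((continuous_apply t).comp continuous_fst)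
        · refine hA.preimage ?_
          refine continuous_pi fun θ => ?_
          exact (((continuous_apply θ).comp (continuous_fst.comp continuous_snd)).add
            continuous_const).add
            ((continuous_apply θ).comp (continuous_snd.comp continuous_snd))
      have hftO : ft ∈ O := by
        refine ⟨?_, ?_⟩
        · show ft.1 t = k
          rw [← hgk, hgt]
          simp [act]
        · show (fun θ => ft.2.1 θ + t • θ + ft.2.2 θ) ∈ A
          apply hb1
          intro θ hθ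
          have h1 : gt.2.1 θ = ft.2.1 θ + t • θ := by
            rw [hgt]; rfl
          rw [h1]
          simpa using (ht θ hθ).2
      obtain ⟨V, hV, hVM, hVO, n₀, hgood⟩ := h.good hno t hO ⟨ft, hftO, h.inv _ _ hgM⟩
      obtain ⟨m, Θm, ηm, hm0, hηm, hloc⟩ := h.locate hZ hV hVM
      obtain ⟨Θ₂, η₂, hη₂, hN⟩ := hN0 m Θm ηm hηm
      let D : Data χ M k :=
        { t := t, V := V, n₀ := n₀, m := m, Θ := Θm, η := ηm, hV := hV, hη := hηm, hm := hm0
          good := by
            intro g hg hgM' b hb hbV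
            have h1 := hgood g hg hgM' b hb hbV
            have h2 : g.1 t = k := (hVO hg).1
            rwa [h2] at h1
          locate := hloc }
      let Y' : ℤ := m + t + m ^ 2
      let B : Set (TT → TT) :=
        {y | ∀ θ ∈ Θ₂ ∪ Θm, ‖y θ - Y' • θ‖ < min η₂ (ηm / 2)}
      have hB : IsOpen B := isOpen_close _ _ _
      have hY'A : (fun θ => Y' • θ) ∈ A := by
        obtain ⟨p, hpV, hpM, hpl⟩ := hloc m (by intro θ _; simp [hηm])
        have h1 := (hVO hpV).2
        have h2 : (fun θ => Y' • θ) = fun θ => p.2.1 θ + t • θ + p.2.2 θ := by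
          funext θ
          rw [hpl]
          simp only [loc, Y']
          rw [add_smul, add_smul]
        rw [h2]
        exact h1
      have hY'B : (fun θ => Y' • θ) ∈ B := by
        intro θ _
        simp only [sub_self, norm_zero]
        exact lt_min hη₂ (by linarith)
      refine ⟨A ∩ B, Y', hA.inter hB, ⟨hY'A, hY'B⟩, ?_⟩
      intro k' hk' hal'
      rcases Finset.mem_insert.1 hk' with rfl | hk'P
      · refine ⟨D, ?_⟩
        intro Y'' hY'' Θ' δ hδ
        have hB'' := hY''.2
        have hu : ∀ θ : TT, (Y'' - t - m ^ 2 - m) • θ = Y'' • θ - Y' • θ := by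
          intro θ
          rw [← sub_smul]
          congr 1
          simp only [Y']
          ring
        obtain ⟨u', hu1, hu2⟩ := hN (Y'' - t - m ^ 2) (by
          intro θ hθ
          rw [hu]
          exact lt_of_lt_of_le (hB'' θ (Finset.mem_union_left _ hθ)) (min_le_left _ _))
          (Θ' ∪ Θm) (min δ (ηm / 2)) (lt_min hδ (by linarith))
        refine ⟨u', ?_, ?_⟩
        · intro θ hθ
          exact lt_of_lt_of_le (hu1 θ (Finset.mem_union_left _ hθ)) (min_le_left _ _)
        · intro θ hθ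
          refine ⟨?_, hu2 θ hθ⟩
          have h1 := lt_of_lt_of_le (hu1 θ (Finset.mem_union_right _ hθ)) (min_le_right _ _)
          have h2 := lt_of_lt_of_le (hB'' θ (Finset.mem_union_right _ hθ)) (min_le_right _ _)
          rw [← hu] at h2
          have h3 : (u' - m) • θ = (u' - (Y'' - t - m ^ 2)) • θ + (Y'' - t - m ^ 2 - m) • θ := by
            rw [← add_smul]; congr 1; ring
          show ‖(u' - m) • θ‖ < ηm
          rw [h3]
          calc _ ≤ _ := norm_add_le _ _
            _ < ηm / 2 + ηm / 2 := add_lt_add h1 h2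
            _ = ηm := by ring
      · have hal'' : Alive M k' A := by
          obtain ⟨p, hp, h1, h2⟩ := hal'
          exact ⟨p, hp, h1, h2.1⟩
        obtain ⟨D', hD'⟩ := hP k' hk'P hal''
        exact ⟨D', fun Y'' hY'' => hD' Y'' hY''.1⟩
    · refine ⟨A, Y, hA, hYA, ?_⟩
      intro k' hk' hal'
      rcases Finset.mem_insert.1 hk' with rfl | hk'P
      · exact absurd hal' hal
      · exact hP k' hk'P hal'

end Pool.Agent.MP31db24
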