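import Pool.Agent.Lib.MP_31db24_co.Weyl

set_option autoImplicit false

namespace Pool.Agent.MP31db24

open Finset UnitAddTorus

variable {d : Type} [Fintype d]

theorem mFourier_apply_add (n : d → ℤ) (x y : UnitAddTorus d) :
    mFourier n (x + y) = mFourier n x * mFourier n y := by
  simp only [mFourier, ContinuousMap.coe_mk, Pi.add_apply, fourier_apply, smul_add,
    AddCircle.toCircle_add, Circle.coe_mul, Finset.prod_mul_distrib]

/-- Uniform convergence of averages along a sequence. -/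
def UAvg (x : ℤ → UnitAddTorus d) (f : C(UnitAddTorus d, ℂ)) : Prop :=
  ∃ c : ℂ, ∀ ε : ℝ, 0 < ε → ∃ L₀ : ℕ, ∀ L : ℕ, L₀ ≤ L → ∀ (a : ℤ) (h : UnitAddTorus d),
    ‖∑ k ∈ range L, f (x (a + k) + h) - L * c‖ ≤ ε * L

theorem uavg_span (x : ℤ → UnitAddTorus d)
    (hW : ∀ n : d → ℤ, n ≠ 0 → ∀ ε : ℝ, 0 < ε → ∃ L₀ : ℕ, ∀ L : ℕ, L₀ ≤ L → ∀ a : ℤ,
      ‖∑ k ∈ range L, mFourier n (x (a + k))‖ ≤ ε * L)
    (f : C(UnitAddTorus d, ℂ)) (hf : f ∈ Submodule.span ℂ (Set.range (mFourier (d := d)))) :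
    UAvg x f := by
  induction hf using Submodule.span_induction with
  | mem f hf =>
    obtain ⟨n, rfl⟩ := hf
    by_cases hn : n = 0
    · subst hn
      refine ⟨1, fun ε hε => ⟨0, fun L _ a h => ?_⟩⟩
      rw [mFourier_zero]
      simp
      positivity
    · refine ⟨0, fun ε hε => ?_⟩
      obtain ⟨L₀, hL₀⟩ := hW n hn ε hε
      refine ⟨L₀, fun L hL a h => ?_⟩
      have h1 : ∀ k ∈ range L, mFourier n (x (a + k) + h) =
          mFourier n (x (a + k)) * mFourier n h := fun k _ => mFourier_apply_add _ _ _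
      rw [sum_congr rfl h1, ← sum_mul, mul_zero, sub_zero, norm_mul]
      have h2 : ‖mFourier n h‖ ≤ 1 := by
        calc _ ≤ ‖(mFourier n : C(UnitAddTorus d, ℂ))‖ := ContinuousMap.norm_coe_le_norm _ _
          _ = 1 := mFourier_norm
      have h3 := hL₀ L hL a
      have h4 := norm_nonneg (∑ k ∈ range L, mFourier n (x (a + k)))
      nlinarith [norm_nonneg (mFourier n h)]
  | zero =>
    refine ⟨0, fun ε hε => ⟨0, fun L _ a h => ?_⟩⟩
    simp
    positivity
  | add f g _ _ ihf ihg =>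
    obtain ⟨c, hc⟩ := ihf
    obtain ⟨c', hc'⟩ := ihg
    refine ⟨c + c', fun ε hε => ?_⟩
    obtain ⟨L₁, h1⟩ := hc (ε / 2) (by positivity)
    obtain ⟨L₂, h2⟩ := hc' (ε / 2) (by positivity)
    refine ⟨max L₁ L₂, fun L hL a h => ?_⟩
    have h3 := h1 L (le_trans (le_max_left _ _) hL) a h
    have h4 := h2 L (le_trans (le_max_right _ _) hL) a h
    have h5 : ∑ k ∈ range L, (f + g) (x (a + k) + h) - L * (c + c') =
        (∑ k ∈ range L, f (x (a + k) + h) - L * c) +
        (∑ k ∈ range L, g (x (a + k) + h) - L * c') := by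
      simp only [ContinuousMap.add_apply, sum_add_distrib]
      ring
    rw [h5]
    refine (norm_add_le _ _).trans ?_
    linarith
  | smul s f _ ihf =>
    obtain ⟨c, hc⟩ := ihf
    refine ⟨s * c, fun ε hε => ?_⟩
    obtain ⟨L₁, h1⟩ := hc (ε / (‖s‖ + 1)) (by positivity)
    refine ⟨L₁, fun L hL a h => ?_⟩
    have h3 := h1 L hL a h
    have h5 : ∑ k ∈ range L, (s • f) (x (a + k) + h) - L * (s * c) =
        s * (∑ k ∈ range L, f (x (a + k) + h) - L * c) := by
      simp only [ContinuousMap.smul_apply, smul_eq_mul, ← mul_sum]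
      ring
    rw [h5, norm_mul]
    calc ‖s‖ * _ ≤ (‖s‖ + 1) * (ε / (‖s‖ + 1) * L) := by
          gcongr
          linarith
      _ = ε * L := by field_simp

/-- The bump function. -/
noncomputable def bump (ε : ℝ) : C(UnitAddTorus d, ℂ) where
  toFun x := ((max 0 (1 - ‖x‖ / ε) : ℝ) : ℂ)
  continuous_toFun := by
    refine Complex.continuous_ofReal.comp ?_
    exact continuous_const.max (continuous_const.sub (continuous_norm.div_const _))

theorem aux6 (L T : ℝ) (hT : 0 < T) :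
    L * (1 / (4 * T)) - (L * (1 / (8 * T)) + 1 / (16 * T) * L) = L * (1 / (16 * T)) := by
  field_simp
  ring

theorem aux7 (L T c : ℝ) (hT : 0 < T) :
    T * (L * c + 1 / (16 * T) * L + 1 / (8 * T) * L) = L * (T * c + 1 / 16 + 1 / 8) := by
  field_simp

theorem torus_dense (x : ℤ → UnitAddTorus d)
    (hW : ∀ n : d → ℤ, n ≠ 0 → ∀ ε : ℝ, 0 < ε → ∃ L₀ : ℕ, ∀ L : ℕ, L₀ ≤ L → ∀ a : ℤ,
      ‖∑ k ∈ range L, mFourier n (x (a + k))‖ ≤ ε * L)
    (ε : ℝ) (hε : 0 < ε) :
    ∃ g : ℕ, ∀ (a : ℤ) (τ : UnitAddTorus d), ∃ k : ℤ, a ≤ k ∧ k < a + g ∧ ‖x k - τ‖ < ε := by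
  classical
  -- finitely many translates cover
  have hcov : ∃ t : Finset (UnitAddTorus d), ∀ y : UnitAddTorus d, ∃ h ∈ t, ‖y + h‖ < ε / 2 := by
    obtain ⟨t, ht⟩ := (isCompact_univ (X := UnitAddTorus d)).elim_finite_subcover
      (fun h : UnitAddTorus d => {y | ‖y + h‖ < ε / 2})
      (fun h => isOpen_lt ((continuous_id.add continuous_const).norm) continuous_const)
      (fun y _ => Set.mem_iUnion.2 ⟨-y, by simp; positivity⟩)
    refine ⟨t, fun y => ?_⟩
    have := ht (Set.mem_univ y)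
    simp only [Set.mem_iUnion] at this
    obtain ⟨h, hh, hy⟩ := this
    exact ⟨h, hh, hy⟩
  obtain ⟨t, ht⟩ := hcov
  have htne : 0 < t.card := by
    obtain ⟨h, hh, -⟩ := ht 0
    exact card_pos.2 ⟨h, hh⟩
  have htr : (0 : ℝ) < t.card := by exact_mod_cast htne
  -- approximation of the bump
  have hmem : (bump ε : C(UnitAddTorus d, ℂ)) ∈
      (Submodule.span ℂ (Set.range (mFourier (d := d)))).topologicalClosure := by
    rw [span_mFourier_closure_eq_top]; trivial
  have hmem' : (bump ε : C(UnitAddTorus d, ℂ)) ∈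
      closure ((Submodule.span ℂ (Set.range (mFourier (d := d))) : Submodule ℂ _) :
        Set C(UnitAddTorus d, ℂ)) := hmem
  rw [Metric.mem_closure_iff] at hmem'
  obtain ⟨p, hp, hdist⟩ := hmem' (1 / (8 * t.card)) (by positivity)
  rw [dist_eq_norm] at hdist
  have hpb : ∀ y, ‖bump ε y - p y‖ ≤ 1 / (8 * t.card) := by
    intro y
    calc _ = ‖(bump ε - p : C(UnitAddTorus d, ℂ)) y‖ := rfl
      _ ≤ ‖(bump ε - p : C(UnitAddTorus d, ℂ))‖ := ContinuousMap.norm_coe_le_norm _ _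
      _ ≤ _ := hdist.le
  obtain ⟨c, hc⟩ := uavg_span x hW p hp
  obtain ⟨L₀, hL₀⟩ := hc (1 / (16 * t.card)) (by positivity)
  -- the window length
  let L : ℕ := L₀ + 1
  have hLpos : (0 : ℝ) < L := by positivity
  -- lower bound for the constant
  have hre : ∀ (a : ℤ) (h : UnitAddTorus d),
      |∑ k ∈ range L, (p (x (a + k) + h)).re - L * c.re| ≤ 1 / (16 * t.card) * L := by
    intro a h
    have h1 := hL₀ L (Nat.le_succ _) a h
    have h2 := Complex.abs_re_le_norm (∑ k ∈ range L, p (x (a + k) + h) - L * c)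
    have h3 : (∑ k ∈ range L, p (x (a + k) + h) - L * c).re =
        ∑ k ∈ range L, (p (x (a + k) + h)).re - L * c.re := by
      rw [Complex.sub_re, Complex.re_sum]
      congr 1
      simp
    rw [h3] at h2
    exact h2.trans h1
  have hbre : ∀ y, |(max 0 (1 - ‖y‖ / ε)) - (p y).re| ≤ 1 / (8 * t.card) := by
    intro y
    have h1 := hpb y
    have h2 := Complex.abs_re_le_norm (bump ε y - p y)
    have h3 : (bump ε y - p y).re = (max 0 (1 - ‖y‖ / ε)) - (p y).re := by
      rw [Complex.sub_re]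
      rfl
    rw [h3] at h2
    exact h2.trans h1
  have hlow : 1 / (4 * t.card) ≤ c.re := by
    -- average the sum over translates
    have h1 : (L : ℝ) * (1 / 2) ≤ ∑ k ∈ range L, ∑ h ∈ t, max 0 (1 - ‖x (0 + (k : ℤ)) + h‖ / ε) := by
      calc (L : ℝ) * (1 / 2) = ∑ k ∈ range L, (1 / 2 : ℝ) := by simp
        _ ≤ _ := by
          refine sum_le_sum fun k _ => ?_
          obtain ⟨h, hh, hlt⟩ := ht (x (0 + (k : ℤ)))
          calc (1 / 2 : ℝ) ≤ max 0 (1 - ‖x (0 + (k : ℤ)) + h‖ / ε) := by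
                refine le_trans ?_ (le_max_right _ _)
                have : ‖x (0 + (k : ℤ)) + h‖ / ε ≤ 1 / 2 := by
                  rw [div_le_iff₀ hε]; linarith
                linarith
            _ ≤ _ := single_le_sum (f := fun h => max 0 (1 - ‖x (0 + (k : ℤ)) + h‖ / ε))
                (fun _ _ => le_max_left _ _) hh
    have h2 : ∑ k ∈ range L, ∑ h ∈ t, max 0 (1 - ‖x (0 + (k : ℤ)) + h‖ / ε) ≤
        ∑ h ∈ t, (L * c.re + 1 / (16 * t.card) * L + 1 / (8 * t.card) * L) := by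
      rw [sum_comm]
      refine sum_le_sum fun h _ => ?_
      have h3 := (abs_le.1 (hre 0 h)).2
      calc ∑ k ∈ range L, max 0 (1 - ‖x (0 + (k : ℤ)) + h‖ / ε)
          ≤ ∑ k ∈ range L, ((p (x (0 + (k : ℤ)) + h)).re + 1 / (8 * t.card)) := by
            refine sum_le_sum fun k _ => ?_
            have := (abs_le.1 (hbre (x (0 + (k : ℤ)) + h))).2
            linarith
        _ = ∑ k ∈ range L, (p (x (0 + (k : ℤ)) + h)).re + 1 / (8 * t.card) * L := by
            rw [sum_add_distrib]; simp; ring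
        _ ≤ _ := by linarith
    rw [sum_const, nsmul_eq_mul] at h2
    have h4 : (L : ℝ) * (1 / 2) ≤ L * (t.card * c.re + 1 / 16 + 1 / 8) := by
      exact (h1.trans h2).trans (le_of_eq (aux7 _ _ _ htr))
    have h5 : (1 / 2 : ℝ) ≤ t.card * c.re + 1 / 16 + 1 / 8 := le_of_mul_le_mul_left h4 hLpos
    rw [div_le_iff₀ (by positivity)]
    nlinarith
  refine ⟨L, fun a τ => ?_⟩
  by_contra hcon
  push Not at hcon
  have h1 : ∀ k ∈ range L, (p (x (a + k) + -τ)).re ≤ 1 / (8 * t.card) := by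
    intro k hk
    have h2 := hcon (a + k) (by omega) (by
      have := mem_range.1 hk
      omega)
    have h3 := (abs_le.1 (hbre (x (a + k) + -τ))).1
    have h4 : max 0 (1 - ‖x (a + k) + -τ‖ / ε) = 0 := by
      apply max_eq_left
      rw [← sub_eq_add_neg]
      have : 1 ≤ ‖x (a + k) - τ‖ / ε := by rwa [le_div_iff₀ hε, one_mul]
      linarith
    rw [h4] at h3
    linarith
  have h2 := (abs_le.1 (hre a (-τ))).1
  have h3 : ∑ k ∈ range L, (p (x (a + k) + -τ)).re ≤ L * (1 / (8 * t.card)) := by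
    calc _ ≤ ∑ k ∈ range L, (1 / (8 * t.card) : ℝ) := sum_le_sum h1
      _ = _ := by simp
  have h4 : (L : ℝ) * (1 / (4 * t.card)) ≤ L * c.re := by gcongr
  have h5 : (L : ℝ) * (1 / (4 * t.card)) ≤ L * (1 / (8 * t.card)) + 1 / (16 * t.card) * L := by
    linarith
  have h6 : (L : ℝ) * (1 / (4 * t.card)) - (L * (1 / (8 * t.card)) + 1 / (16 * t.card) * L) =
      L * (1 / (16 * t.card)) := aux6 _ _ htr
  have h7 : 0 < L * (1 / (16 * (t.card : ℝ))) := by positivity
  linarith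

end Pool.Agent.MP31db24
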