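import Pool.Agent.Lib.MP_31db24_co.Defs
import Pool.Agent.Lib.MP_31db24_co.Torus

set_option autoImplicit false

namespace Pool.Agent.MP31db24

open Finset

/-- A Hamel basis of the reals containing one. -/
theorem exists_hamel : ∃ B : Set ℝ, (1 : ℝ) ∈ B ∧ LinearIndepOn ℚ id B ∧
    Submodule.span ℚ B = ⊤ := by
  have h1 : LinearIndepOn ℚ id ({1} : Set ℝ) := by
    rw [linearIndepOn_singleton_iff]
    exact one_ne_zero
  refine ⟨h1.extend (Set.subset_univ _), h1.subset_extend _ rfl, h1.linearIndepOn_extend _, ?_⟩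
  rw [h1.span_extend_eq_span, Submodule.span_univ]

/-- `x` is an integral combination of the elements of `I` and `1`, divided by `D`. -/
def Rep (I : Finset ℝ) (D : ℕ) (x : ℝ) : Prop :=
  ∃ (a : ℝ → ℤ) (c : ℤ), (D : ℝ) * x = c + ∑ i ∈ I, (a i : ℝ) * i

theorem Rep.mono {I I' : Finset ℝ} {D D' : ℕ} {x : ℝ} (h : Rep I D x) (hI : I ⊆ I')
    (hD : D ∣ D') : Rep I' D' x := by
  classical
  obtain ⟨a, c, hx⟩ := h
  obtain ⟨s, rfl⟩ := hD
  refine ⟨fun i => if i ∈ I then s * a i else 0, s * c, ?_⟩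
  have h1 : ∑ i ∈ I', (((if i ∈ I then (s : ℤ) * a i else 0 : ℤ)) : ℝ) * i =
      ∑ i ∈ I, ((s : ℝ) * a i) * i := by
    rw [← Finset.sum_subset hI]
    · refine sum_congr rfl fun i hi => ?_
      rw [if_pos hi]; push_cast; ring
    · intro i _ hi
      rw [if_neg hi]; simp
  rw [h1]
  push_cast
  have h2 : (D : ℝ) * s * x = s * (D * x) := by ring
  rw [h2, hx, mul_add, mul_sum]
  congr 1
  exact sum_congr rfl fun i _ => by ring

theorem exists_rep {B : Set ℝ} (hspan : Submodule.span ℚ B = ⊤) (x : ℝ) :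
    ∃ (I : Finset ℝ) (D : ℕ), (∀ i ∈ I, i ∈ B ∧ i ≠ 1) ∧ 0 < D ∧ Rep I D x := by
  classical
  have hx : x ∈ Submodule.span ℚ B := by rw [hspan]; trivial
  induction hx using Submodule.span_induction with
  | mem x hx =>
    by_cases hx1 : x = 1
    · exact ⟨∅, 1, by simp, one_pos, fun _ => 0, 1, by simp [hx1]⟩
    · exact ⟨{x}, 1, by simpa using ⟨hx, hx1⟩, one_pos, fun _ => 1, 0, by simp⟩
  | zero => exact ⟨∅, 1, by simp, one_pos, fun _ => 0, 0, by simp⟩
  | add x y _ _ ihx ihy =>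
    obtain ⟨I, D, hI, hD, hx⟩ := ihx
    obtain ⟨I', D', hI', hD', hy⟩ := ihy
    obtain ⟨a, c, h2⟩ := hx.mono (Finset.subset_union_left (s₂ := I')) (Dvd.intro D' rfl)
    obtain ⟨a', c', h3⟩ := hy.mono (Finset.subset_union_right (s₁ := I)) (Dvd.intro_left D rfl)
    refine ⟨I ∪ I', D * D', ?_, Nat.mul_pos hD hD', fun i => a i + a' i, c + c', ?_⟩
    · intro i hi
      rcases Finset.mem_union.1 hi with h | h
      · exact hI i h
      · exact hI' i h
    · rw [mul_add, h2, h3]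
      push_cast
      have : ∑ i ∈ I ∪ I', ((a i : ℝ) + a' i) * i =
          ∑ i ∈ I ∪ I', (a i : ℝ) * i + ∑ i ∈ I ∪ I', (a' i : ℝ) * i := by
        rw [← sum_add_distrib]
        exact sum_congr rfl fun i _ => by ring
      rw [this]
      ring
  | smul q x _ ihx =>
    obtain ⟨I, D, hI, hD, a, c, hx⟩ := ihx
    refine ⟨I, q.den * D, hI, Nat.mul_pos q.den_pos hD, fun i => q.num * a i, q.num * c, ?_⟩
    have h2 : (q.den : ℝ) * (q : ℝ) = q.num := by
      have := Rat.den_mul_eq_num q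
      exact_mod_cast this
    rw [Rat.smul_def]
    push_cast
    have h3 : (q.den : ℝ) * D * (q * x) = (q.den * q) * (D * x) := by ring
    rw [h3, h2, hx, mul_add, mul_sum]
    congr 1
    exact sum_congr rfl fun i _ => by ring

theorem exists_rep_finset {B : Set ℝ} (hspan : Submodule.span ℚ B = ⊤)
    (Θ : Finset TT) :
    ∃ (I : Finset ℝ) (D : ℕ), (∀ i ∈ I, i ∈ B ∧ i ≠ 1) ∧ 0 < D ∧
      ∀ θ ∈ Θ, ∃ x : ℝ, (x : TT) = θ ∧ Rep I D x := by
  classical
  induction Θ using Finset.induction_on with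
  | empty => exact ⟨∅, 1, by simp, one_pos, by simp⟩
  | insert θ Θ _ ih =>
    obtain ⟨I, D, hI, hD, h⟩ := ih
    obtain ⟨x, hx⟩ : ∃ x : ℝ, (x : TT) = θ := QuotientAddGroup.mk_surjective θ
    obtain ⟨I', D', hI', hD', h'⟩ := exists_rep hspan x
    refine ⟨I ∪ I', D * D', ?_, Nat.mul_pos hD hD', ?_⟩
    · intro i hi
      rcases Finset.mem_union.1 hi with h | h
      · exact hI i h
      · exact hI' i h
    · intro θ' hθ'
      rcases Finset.mem_insert.1 hθ' with rfl | h2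
      · exact ⟨x, hx, h'.mono Finset.subset_union_right (Dvd.intro_left D rfl)⟩
      · obtain ⟨y, hy, hr⟩ := h θ' h2
        exact ⟨y, hy, hr.mono Finset.subset_union_left (Dvd.intro D' rfl)⟩

/-- Closeness to zero with respect to finitely many basis elements. -/
def Cl (I : Finset ℝ) (D : ℕ) (δ : ℝ) (n : ℤ) : Prop :=
  (D : ℤ) ∣ n ∧ ∀ i ∈ I, ‖((n * i / D : ℝ) : TT)‖ < δ

theorem coe_smul_int (n : ℤ) (x : ℝ) : n • (x : TT) = ((n * x : ℝ) : TT) := by
  rw [← AddCircle.coe_zsmul, zsmul_eq_mul]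

theorem norm_int_mul_le (n : ℤ) (x : TT) : ‖n • x‖ ≤ |(n : ℝ)| * ‖x‖ := by
  have h := norm_zsmul_le n x
  rw [Int.norm_eq_abs] at h
  exact h

theorem Rep.close {I : Finset ℝ} {D : ℕ} {x : ℝ} (hD : 0 < D) (h : Rep I D x) {ε : ℝ}
    (hε : 0 < ε) : ∃ δ : ℝ, 0 < δ ∧ ∀ n : ℤ, Cl I D δ n → ‖n • (x : TT)‖ < ε := by
  obtain ⟨a, c, hx⟩ := h
  have hDr : (0 : ℝ) < D := by exact_mod_cast hD
  let A : ℝ := ∑ i ∈ I, |(a i : ℝ)|
  have hA : 0 ≤ A := sum_nonneg fun _ _ => abs_nonneg _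
  refine ⟨ε / (A + 1), by positivity, fun n hn => ?_⟩
  obtain ⟨⟨s, hs⟩, hcl⟩ := hn
  have h1 : ((n * x : ℝ) : TT) = ∑ i ∈ I, (a i) • ((n * i / D : ℝ) : TT) := by
    have h2 : (n : ℝ) * x = ((s * c : ℤ) : ℝ) + ∑ i ∈ I, (a i : ℝ) * (n * i / D) := by
      have h3 : x = (c + ∑ i ∈ I, (a i : ℝ) * i) / D := by
        rw [← hx]; field_simp
      have h4 : (n : ℝ) = D * s := by exact_mod_cast hs
      rw [h3, mul_div_assoc', mul_add, add_div, mul_sum, sum_div]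
      congr 1
      · rw [h4]; push_cast; field_simp
      · exact sum_congr rfl fun i _ => by ring
    rw [h2, AddCircle.coe_add]
    have h5 : ((((s * c : ℤ) : ℝ)) : TT) = 0 := by
      have : (((s * c : ℤ) : ℝ)) = (s * c : ℤ) • (1 : ℝ) := by simp
      rw [this, AddCircle.coe_zsmul, AddCircle.coe_period, smul_zero]
    rw [h5, zero_add]
    have h6 : ((∑ i ∈ I, (a i : ℝ) * (n * i / D) : ℝ) : TT) =
        ∑ i ∈ I, (((a i : ℝ) * (n * i / D) : ℝ) : TT) :=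
      map_sum (QuotientAddGroup.mk' (AddSubgroup.zmultiples (1 : ℝ))) _ _
    rw [h6]
    exact sum_congr rfl fun i _ => (coe_smul_int _ _).symm
  rw [coe_smul_int, h1]
  calc _ ≤ ∑ i ∈ I, ‖(a i) • ((n * i / D : ℝ) : TT)‖ := norm_sum_le _ _
    _ ≤ ∑ i ∈ I, |(a i : ℝ)| * (ε / (A + 1)) := by
        refine sum_le_sum fun i hi => (norm_int_mul_le _ _).trans ?_
        exact mul_le_mul_of_nonneg_left (hcl i hi).le (abs_nonneg _)
    _ = A * (ε / (A + 1)) := by rw [← sum_mul]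
    _ < (A + 1) * (ε / (A + 1)) := by
        have : 0 < ε / (A + 1) := by positivity
        nlinarith
    _ = ε := by field_simp

theorem close_finset {I : Finset ℝ} {D : ℕ} (hD : 0 < D) (Θ : Finset TT)
    (h : ∀ θ ∈ Θ, ∃ x : ℝ, (x : TT) = θ ∧ Rep I D x) {ε : ℝ} (hε : 0 < ε) :
    ∃ δ : ℝ, 0 < δ ∧ ∀ n : ℤ, Cl I D δ n → ∀ θ ∈ Θ, ‖n • θ‖ < ε := by
  classical
  induction Θ using Finset.induction_on with
  | empty => exact ⟨1, one_pos, by simp⟩
  | insert θ Θ _ ih =>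
    obtain ⟨δ, hδ, h1⟩ := ih fun θ hθ => h θ (Finset.mem_insert_of_mem hθ)
    obtain ⟨x, hx, hr⟩ := h θ (Finset.mem_insert_self _ _)
    obtain ⟨δ', hδ', h2⟩ := hr.close hD hε
    refine ⟨min δ δ', lt_min hδ hδ', fun n hn θ' hθ' => ?_⟩
    rcases Finset.mem_insert.1 hθ' with rfl | h3
    · rw [← hx]
      exact h2 n ⟨hn.1, fun i hi => lt_of_lt_of_le (hn.2 i hi) (min_le_right _ _)⟩
    · exact h1 n ⟨hn.1, fun i hi => lt_of_lt_of_le (hn.2 i hi) (min_le_left _ _)⟩ θ' h3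

/-- Passing to a coarser denominator. -/
theorem coarse {D₀ D' : ℕ} (hD₀ : 0 < D₀) (hD' : 0 < D') {n : ℤ} {i ε : ℝ}
    (h : ‖((n * i / ((D₀ * D' : ℕ) : ℝ) : ℝ) : TT)‖ < ε) : ‖((n * i / D₀ : ℝ) : TT)‖ < D' * ε := by
  have h1 : ((n * i / D₀ : ℝ) : TT) = (D' : ℤ) • ((n * i / ((D₀ * D' : ℕ) : ℝ) : ℝ) : TT) := by
    rw [coe_smul_int]
    congr 1
    have : (D₀ : ℝ) ≠ 0 := by exact_mod_cast hD₀.ne'
    have : (D' : ℝ) ≠ 0 := by exact_mod_cast hD'.ne'
    push_cast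
    field_simp
  rw [h1]
  have h2 := norm_int_mul_le (D' : ℤ) ((n * i / ((D₀ * D' : ℕ) : ℝ) : ℝ) : TT)
  have hD'r : (0 : ℝ) < D' := by exact_mod_cast hD'
  refine lt_of_le_of_lt h2 ?_
  push_cast at h ⊢
  rw [abs_of_pos hD'r]
  exact mul_lt_mul_of_pos_left h hD'r

/-- Divisibility is detected by a frequency. -/
theorem dvd_of_close {D : ℕ} (hD : 0 < D) {n : ℤ} (h : ‖n • ((1 / (D : ℝ) : ℝ) : TT)‖ < 1 / D) :
    (D : ℤ) ∣ n := by
  have hDr : (0 : ℝ) < D := by exact_mod_cast hD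
  rw [coe_smul_int, UnitAddCircle.norm_eq] at h
  set m := round ((n : ℝ) * (1 / D)) with hm
  have h1 : |(n : ℝ) - D * m| < 1 := by
    have h2 : (n : ℝ) - D * m = D * ((n : ℝ) * (1 / D) - m) := by field_simp
    rw [h2, abs_mul, abs_of_pos hDr]
    calc (D : ℝ) * |(n : ℝ) * (1 / D) - m| < D * (1 / D) := mul_lt_mul_of_pos_left h hDr
      _ = 1 := by field_simp
  have h3 : |n - D * m| < 1 := by exact_mod_cast h1
  have h4 : n - D * m = 0 := Int.abs_lt_one_iff.1 h3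
  exact ⟨m, by linarith⟩

theorem irrational_comb {B : Set ℝ} (h1 : (1 : ℝ) ∈ B) (hB : LinearIndepOn ℚ id B) (I : Finset ℝ)
    (hI : ∀ i ∈ I, i ∈ B ∧ i ≠ 1) (a : ℝ → ℤ) {i₀ : ℝ} (hi₀ : i₀ ∈ I) (ha : a i₀ ≠ 0) :
    Irrational (∑ i ∈ I, (a i : ℝ) * i) := by
  classical
  rintro ⟨q, hq⟩
  have h1I : (1 : ℝ) ∉ I := fun h => (hI 1 h).2 rfl
  have hsub : ((insert 1 I : Finset ℝ) : Set ℝ) ⊆ B := by
    intro i hi
    rcases Finset.mem_insert.1 (Finset.mem_coe.1 hi) with rfl | h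
    · exact h1
    · exact (hI i h).1
  have h2 := linearIndepOn_finset_iff.1 (hB.mono hsub) (fun i => if i = 1 then -q else a i) (by
    rw [sum_insert h1I]
    rw [if_pos rfl]
    have h3 : ∑ x ∈ I, (if x = 1 then -q else (a x : ℚ)) • id x = ∑ i ∈ I, (a i : ℝ) * i := by
      refine sum_congr rfl fun i hi => ?_
      rw [if_neg (hI i hi).2, Rat.smul_def]
      simp
    rw [h3, ← hq, Rat.smul_def]
    simp) i₀ (Finset.mem_insert_of_mem hi₀)
  rw [if_neg (hI i₀ hi₀).2] at h2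
  exact ha (by exact_mod_cast h2)

theorem fourier_ee (n : ℤ) (x : ℝ) : (fourier n (x : UnitAddCircle) : ℂ) = ee (n * x) := by
  rw [fourier_coe_apply]
  unfold ee
  congr 1
  push_cast
  ring

theorem prod_ee {ι : Type} (s : Finset ι) (f : ι → ℝ) : ∏ i ∈ s, ee (f i) = ee (∑ i ∈ s, f i) := by
  classical
  induction s using Finset.induction_on with
  | empty => simp [ee_zero]
  | insert i s hi ih => rw [prod_insert hi, sum_insert hi, ih, ee_add]

/-- Joint equidistribution of linear and quadratic phases in a residue class. -/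
theorem weyl_density {B : Set ℝ} (h1 : (1 : ℝ) ∈ B) (hB : LinearIndepOn ℚ id B) (I : Finset ℝ)
    (hI : ∀ i ∈ I, i ∈ B ∧ i ≠ 1) (D : ℕ) (hD : 0 < D) (ε : ℝ) (hε : 0 < ε) :
    ∃ g : ℕ, ∀ (a nbar : ℤ) (ν σ : ℝ → ℝ), ∃ n : ℤ, a ≤ n ∧ n < a + g ∧ (D : ℤ) ∣ n - nbar ∧
      ∀ i ∈ I, ‖((n * i / D - ν i : ℝ) : TT)‖ < ε ∧ ‖(((n : ℝ) ^ 2 * i / D - σ i : ℝ) : TT)‖ < ε := by
  classical
  have hDr : (0 : ℝ) < D := by exact_mod_cast hD
  let ι : Type := {i : ℝ // i ∈ I}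
  let x : ℤ → UnitAddTorus (ι ⊕ ι) := fun k => Sum.elim (fun i => ((k * i.1 : ℝ) : TT))
    (fun i => (((k : ℝ) ^ 2 * (D * i.1) : ℝ) : TT))
  have hxe : ∀ (n : ι ⊕ ι → ℤ) (k : ℤ), UnitAddTorus.mFourier n (x k) =
      ee ((∑ i : ι, (n (Sum.inl i) : ℝ) * i.1) * k +
        (D * ∑ i : ι, (n (Sum.inr i) : ℝ) * i.1) * (k : ℝ) ^ 2) := by
    intro n k
    have h2 : UnitAddTorus.mFourier n (x k) = ∏ j : ι ⊕ ι, fourier (n j) (x k j) := rfl
    rw [h2, Fintype.prod_sum_type]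
    have h3 : ∀ i : ι, fourier (n (Sum.inl i)) (x k (Sum.inl i)) =
        ee ((n (Sum.inl i) : ℝ) * (k * i.1)) := fun i => fourier_ee _ _
    have h4 : ∀ i : ι, fourier (n (Sum.inr i)) (x k (Sum.inr i)) =
        ee ((n (Sum.inr i) : ℝ) * ((k : ℝ) ^ 2 * (D * i.1))) := fun i => fourier_ee _ _
    rw [prod_congr rfl fun i _ => h3 i, prod_congr rfl fun i _ => h4 i, prod_ee, prod_ee, ← ee_add]
    congr 1
    rw [sum_mul, mul_sum, sum_mul]
    congr 1
    · exact sum_congr rfl fun i _ => by ring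
    · exact sum_congr rfl fun i _ => by ring
  have hirr : ∀ m : ι → ℤ, m ≠ 0 → Irrational (∑ i : ι, (m i : ℝ) * i.1) := by
    intro m hm
    obtain ⟨i₀, hi₀⟩ := Function.ne_iff.1 hm
    have h2 := irrational_comb h1 hB I hI (fun i => if h : i ∈ I then m ⟨i, h⟩ else 0) i₀.2 (by
      rw [dif_pos i₀.2]; exact hi₀)
    have h3 : ∑ i ∈ I, (((if h : i ∈ I then m ⟨i, h⟩ else 0 : ℤ)) : ℝ) * i =
        ∑ i : ι, (m i : ℝ) * i.1 := by
      rw [← Finset.sum_attach, Finset.attach_eq_univ]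
      refine sum_congr rfl fun i _ => ?_
      rw [dif_pos i.2]
    rwa [h3] at h2
  let ε' : ℝ := ε / (1 + 2 * D)
  have hε' : 0 < ε' := by positivity
  obtain ⟨g₀, hg₀⟩ := torus_dense x (by
    intro n hn ε₁ hε₁
    by_cases hr : (fun i : ι => n (Sum.inr i)) = 0
    · have hl : (fun i : ι => n (Sum.inl i)) ≠ 0 := by
        intro hl
        apply hn
        funext j
        rcases j with i | i
        · exact congrFun hl i
        · exact congrFun hr i
      obtain ⟨L₀, hL₀⟩ := weyl_lin _ (hirr _ hl) ε₁ hε₁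
      refine ⟨L₀, fun L hL a => ?_⟩
      have h2 := hL₀ L hL a
      have h3 : ∀ k ∈ range L, UnitAddTorus.mFourier n (x (a + k)) =
          ee ((∑ i : ι, (n (Sum.inl i) : ℝ) * i.1) * ((a + k : ℤ) : ℝ)) := by
        intro k _
        rw [hxe]
        congr 1
        have h4 : ∑ i : ι, (n (Sum.inr i) : ℝ) * i.1 = 0 := by
          refine sum_eq_zero fun i _ => ?_
          have : n (Sum.inr i) = 0 := congrFun hr i
          rw [this]; simp
        rw [h4]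
        ring
      rw [sum_congr rfl h3]
      exact h2
    · have hβ : Irrational (D * ∑ i : ι, (n (Sum.inr i) : ℝ) * i.1) := by
        have := (hirr _ hr).natCast_mul hD.ne'
        exact this
      obtain ⟨L₀, hL₀⟩ := weyl_quad (∑ i : ι, (n (Sum.inl i) : ℝ) * i.1) _ hβ ε₁ hε₁
      refine ⟨L₀, fun L hL a => ?_⟩
      have h2 := hL₀ L hL a
      have h3 : ∀ k ∈ range L, UnitAddTorus.mFourier n (x (a + k)) =
          ee ((∑ i : ι, (n (Sum.inl i) : ℝ) * i.1) * ((a + k : ℤ) : ℝ) +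
        (D * ∑ i : ι, (n (Sum.inr i) : ℝ) * i.1) * ((a + k : ℤ) : ℝ) ^ 2) := fun k _ =>
          hxe n (a + k)
      rw [sum_congr rfl h3]
      exact h2) ε' hε'
  refine ⟨D * (g₀ + 1), fun a nbar ν σ => ?_⟩
  have hDz : (0 : ℤ) < D := by exact_mod_cast hD
  set r : ℤ := nbar % D with hr
  have hr0 : 0 ≤ r := Int.emod_nonneg _ hDz.ne'
  have hrD : r < D := Int.emod_lt_of_pos _ hDz
  set k₀ : ℤ := (a - r) / D + 1 with hk₀
  obtain ⟨k, hk1, hk2, hk3⟩ := hg₀ k₀ (Sum.elim (fun i => ((ν i.1 - r * i.1 / D : ℝ) : TT))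
    (fun i => ((σ i.1 - (r : ℝ) ^ 2 * i.1 / D - 2 * r * (ν i.1 - r * i.1 / D) : ℝ) : TT)))
  have hdm := Int.mul_ediv_add_emod (a - r) D
  have hm0 : 0 ≤ (a - r) % D := Int.emod_nonneg _ hDz.ne'
  have hm1 : (a - r) % D < D := Int.emod_lt_of_pos _ hDz
  refine ⟨r + D * k, ?_, ?_, ?_, ?_⟩
  · have h2 : (D : ℤ) * k₀ ≤ D * k := mul_le_mul_of_nonneg_left hk1 hDz.le
    have h3 : (D : ℤ) * k₀ = D * ((a - r) / D) + D := by rw [hk₀]; ring
    linarith
  · have h2 : (D : ℤ) * k < D * (k₀ + g₀) := mul_lt_mul_of_pos_left hk2 hDz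
    have h3 : (D : ℤ) * (k₀ + g₀) = D * ((a - r) / D) + D + D * g₀ := by rw [hk₀]; ring
    push_cast
    linarith
  · have h2 : r + D * k - nbar = D * k - (nbar - nbar % D) := by rw [hr]; ring
    rw [h2]
    exact dvd_sub (dvd_mul_right _ _) (Int.dvd_self_sub_emod)
  · intro i hi
    have hlin : ‖((k * i - (ν i - r * i / D) : ℝ) : TT)‖ < ε' := by
      have h2 := lt_of_le_of_lt (norm_le_pi_norm _ (Sum.inl ⟨i, hi⟩)) hk3
      exact h2
    have hquad : ‖(((k : ℝ) ^ 2 * (D * i) -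
        (σ i - (r : ℝ) ^ 2 * i / D - 2 * r * (ν i - r * i / D)) : ℝ) : TT)‖ < ε' := by
      have h2 := lt_of_le_of_lt (norm_le_pi_norm _ (Sum.inr ⟨i, hi⟩)) hk3
      exact h2
    have hε'ε : ε' ≤ ε := by
      apply div_le_self hε.le
      linarith
    refine ⟨?_, ?_⟩
    · have h2 : ((r + D * k : ℤ) : ℝ) * i / D - ν i = k * i - (ν i - r * i / D) := by
        push_cast
        field_simp
        ring
      rw [h2]
      linarith
    · have h2 : (((r + D * k : ℤ) : ℝ)) ^ 2 * i / D - σ i =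
          ((k : ℝ) ^ 2 * (D * i) - (σ i - (r : ℝ) ^ 2 * i / D - 2 * r * (ν i - r * i / D))) +
          ((2 * r : ℤ) : ℝ) * (k * i - (ν i - r * i / D)) := by
        push_cast
        field_simp
        ring
      rw [h2, AddCircle.coe_add, ← coe_smul_int]
      calc _ ≤ _ := norm_add_le _ _
        _ ≤ _ := add_le_add le_rfl (norm_int_mul_le _ _)
        _ < ε' + 2 * D * ε' := by
            refine add_lt_add_of_lt_of_le hquad ?_
            have h3 : |((2 * r : ℤ) : ℝ)| ≤ 2 * D := by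
              have h4 : (0 : ℝ) ≤ ((2 * r : ℤ) : ℝ) := by exact_mod_cast (by omega : 0 ≤ 2 * r)
              rw [abs_of_nonneg h4]
              push_cast
              have : (r : ℝ) ≤ D := by exact_mod_cast hrD.le
              linarith
            exact mul_le_mul h3 hlin.le (norm_nonneg _) (by positivity)
        _ = ε := by
            simp only [ε']
            field_simp

end Pool.Agent.MP31db24
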