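import Pool.Agent.Lib.MP_31db24_co.Good

set_option autoImplicit false

namespace Pool.Agent.MP31db24

open Set Filter Topology

variable {r : ℕ} {χ : ℤ → Fin r} {M : Set (Om r)}

/-- Space of locations. -/
abbrev LS : Type := (TT → TT) × (TT → TT)

/-- The location of an integer. -/
def loc (m : ℤ) : LS := (fun θ => m • θ, fun θ => (m ^ 2) • θ)

/-- Action on locations. -/
def lact (n : ℤ) (w : LS) : LS :=
  (fun θ => w.1 θ + n • θ, fun θ => w.2 θ + (2 * n) • w.1 θ + (n ^ 2) • θ)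

theorem lact_snd (n : ℤ) (p : Om r) : (act n p).2 = lact n p.2 := rfl

theorem lact_loc (n m : ℤ) : lact n (loc m) = loc (n + m) := by
  unfold lact loc
  refine Prod.ext ?_ ?_
  · funext θ
    simp only
    rw [← add_smul, add_comm]
  · funext θ
    simp only
    rw [smul_smul, ← add_smul, ← add_smul]
    congr 1
    ring

theorem lact_add (m n : ℤ) (p : LS) : lact m (lact n p) = lact (m + n) p := by
  obtain ⟨y, z⟩ := p
  simp only [lact]
  refine Prod.ext ?_ ?_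
  · funext θ
    simp only
    rw [add_assoc, ← add_smul, add_comm n m]
  · funext θ
    simp only [smul_add, smul_smul]
    have h1 : ((m + n) ^ 2) • θ = (m ^ 2) • θ + (2 * m * n) • θ + (n ^ 2) • θ := by
      rw [← add_smul, ← add_smul]; congr 1; ring
    have h2 : (2 * (m + n)) • y θ = (2 * m) • y θ + (2 * n) • y θ := by
      rw [← add_smul]; congr 1; ring
    rw [h1, h2]
    abel

theorem lact_zero (p : LS) : lact 0 p = p := by
  obtain ⟨y, z⟩ := p
  simp [lact]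

theorem continuous_lact (n : ℤ) : Continuous (lact n) := by
  unfold lact
  refine Continuous.prodMk ?_ ?_
  · exact continuous_pi fun θ => ((continuous_apply θ).comp continuous_fst).add continuous_const
  · refine continuous_pi fun θ => ?_
    refine Continuous.add (Continuous.add ?_ ?_) continuous_const
    · exact (continuous_apply θ).comp continuous_snd
    · exact ((continuous_apply θ).comp continuous_fst).zsmul (2 * n)

/-- Basic neighbourhoods in a product of circles. -/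
theorem exists_basic {A : Set (TT → TT)} (hA : IsOpen A) {y : TT → TT} (hy : y ∈ A) :
    ∃ (Θ : Finset TT) (η : ℝ), 0 < η ∧ ∀ y' : TT → TT, (∀ θ ∈ Θ, ‖y' θ - y θ‖ < η) → y' ∈ A := by
  rw [isOpen_pi_iff] at hA
  obtain ⟨I, u, hu, hsub⟩ := hA y hy
  have h1 : ∀ θ : TT, ∃ ε : ℝ, 0 < ε ∧ (θ ∈ I → Metric.ball (y θ) ε ⊆ u θ) := by
    intro θ
    by_cases hθ : θ ∈ I
    · obtain ⟨ε, hε, h2⟩ := Metric.isOpen_iff.1 (hu θ hθ).1 (y θ) (hu θ hθ).2
      exact ⟨ε, hε, fun _ => h2⟩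
    · exact ⟨1, one_pos, fun h => absurd h hθ⟩
  choose ε hε h2 using h1
  by_cases hI : I.Nonempty
  · refine ⟨I, I.inf' hI ε, (Finset.lt_inf'_iff hI).2 fun θ _ => hε θ, fun y' hy' => hsub ?_⟩
    intro θ hθ
    apply h2 θ hθ
    rw [Metric.mem_ball, dist_eq_norm]
    exact lt_of_lt_of_le (hy' θ hθ) (Finset.inf'_le _ hθ)
  · rw [Finset.not_nonempty_iff_eq_empty] at hI
    subst hI
    refine ⟨∅, 1, one_pos, fun y' _ => hsub ?_⟩
    intro θ hθ
    simp at hθ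

theorem exists_basic2 {A : Set LS} (hA : IsOpen A) {w : LS} (hw : w ∈ A) :
    ∃ (Θ : Finset TT) (η : ℝ), 0 < η ∧ ∀ w' : LS,
      (∀ θ ∈ Θ, ‖w'.1 θ - w.1 θ‖ < η ∧ ‖w'.2 θ - w.2 θ‖ < η) → w' ∈ A := by
  rw [isOpen_prod_iff] at hA
  obtain ⟨u, v, hu, hv, h1, h2, h3⟩ := hA w.1 w.2 hw
  obtain ⟨Θ₁, η₁, hη₁, h4⟩ := exists_basic hu h1
  obtain ⟨Θ₂, η₂, hη₂, h5⟩ := exists_basic hv h2
  classical
  refine ⟨Θ₁ ∪ Θ₂, min η₁ η₂, lt_min hη₁ hη₂, fun w' hw' => h3 ⟨h4 _ ?_, h5 _ ?_⟩⟩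
  · intro θ hθ
    exact lt_of_lt_of_le (hw' θ (Finset.mem_union_left _ hθ)).1 (min_le_left _ _)
  · intro θ hθ
    exact lt_of_lt_of_le (hw' θ (Finset.mem_union_right _ hθ)).2 (min_le_right _ _)

theorem isOpen_close (Θ : Finset TT) (η : ℝ) (c : TT → TT) :
    IsOpen {y : TT → TT | ∀ θ ∈ Θ, ‖y θ - c θ‖ < η} := by
  have : {y : TT → TT | ∀ θ ∈ Θ, ‖y θ - c θ‖ < η} =
      ⋂ θ ∈ Θ, {y : TT → TT | ‖y θ - c θ‖ < η} := by
    ext y; simp
  rw [this]
  refine isOpen_biInter_finset fun θ _ => ?_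
  exact isOpen_lt (((continuous_apply θ).sub continuous_const).norm) continuous_const

/-- Every point of the minimal set can be shifted back to location close to zero. -/
theorem MinS.back (h : MinS χ M) (hZ : ReturnZero) {p : Om r} (hp : p ∈ M) (Θ : Finset TT) {δ : ℝ}
    (hδ : 0 < δ) :
    ∃ t : ℤ, ∀ θ ∈ Θ, ‖(act (-t) p).2.1 θ‖ < δ ∧ ‖(act (-t) p).2.2 θ‖ < δ := by
  obtain ⟨g, hg⟩ := hZ Θ (δ / 2) (by positivity)
  by_contra hcon
  push Not at hcon
  let F : Set (Om r) := {p | ∀ θ ∈ Θ, ‖p.2.1 θ‖ ≤ δ / 2 ∧ ‖p.2.2 θ‖ ≤ δ / 2}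
  have hF : IsClosed F := by
    have : F = ⋂ θ ∈ Θ, ({p : Om r | ‖p.2.1 θ‖ ≤ δ / 2} ∩ {p : Om r | ‖p.2.2 θ‖ ≤ δ / 2}) := by
      ext p; simp [F]
    rw [this]
    refine isClosed_biInter fun θ _ => IsClosed.inter ?_ ?_
    · exact isClosed_le (((continuous_apply θ).comp (continuous_fst.comp continuous_snd)).norm)
        continuous_const
    · exact isClosed_le (((continuous_apply θ).comp (continuous_snd.comp continuous_snd)).norm)
        continuous_const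
  let W : Set (Om r) := ⋂ i ∈ Finset.range (g + 1), act (-(i : ℤ)) ⁻¹' Fᶜ
  have hW : IsOpen W := isOpen_biInter_finset fun i _ =>
    hF.isOpen_compl.preimage (continuous_act _)
  have hpW : p ∈ W := by
    simp only [W, mem_iInter]
    intro i _ hi
    obtain ⟨θ, hθ, h1⟩ := hcon i
    have h2 := hi θ hθ
    have h3 := h1 (by linarith [h2.1])
    linarith [h2.2]
  obtain ⟨b, -, hb⟩ := h.approx hp hW hpW 0
  obtain ⟨n, hn, hn1, hn2⟩ := hg (b - g)
  simp only [W, mem_iInter] at hb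
  have h1 := hb (b - n).toNat (by
    rw [Finset.mem_range]
    omega)
  apply h1
  have h2 : (-(((b - n).toNat : ℕ) : ℤ)) = n - b := by omega
  rw [h2, act_add]
  have h3 : n - b + b = n := by ring
  rw [h3, act_base]
  intro θ hθ
  have := hn θ hθ
  exact ⟨this.1.le, this.2.le⟩

/-- Exact locations of integers are attained in the minimal set. -/
theorem MinS.exact (h : MinS χ M) (hZ : ReturnZero) (m : ℤ) : ∃ p ∈ M, p.2 = loc m := by
  have h0 : loc 0 ∈ (Prod.snd '' M : Set LS) := by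
    have hcl : IsClosed (Prod.snd '' M : Set LS) :=
      (h.closed.isCompact.image continuous_snd).isClosed
    rw [← hcl.closure_eq, mem_closure_iff]
    intro A hA h0A
    obtain ⟨Θ, η, hη, h1⟩ := exists_basic2 hA h0A
    obtain ⟨p, hp⟩ := h.ne
    obtain ⟨t, ht⟩ := h.back hZ hp Θ hη
    refine ⟨(act (-t) p).2, h1 _ ?_, ⟨_, h.inv _ p hp, rfl⟩⟩
    intro θ hθ
    have := ht θ hθ
    simpa [loc] using this
  obtain ⟨p, hp, hp0⟩ := h0
  refine ⟨act m p, h.inv m p hp, ?_⟩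
  rw [lact_snd, hp0, lact_loc, add_zero]

/-- An open set meeting the minimal set contains points with prescribed exact locations. -/
theorem MinS.locate (h : MinS χ M) (hZ : ReturnZero) {V : Set (Om r)} (hV : IsOpen V)
    (hVM : (V ∩ M).Nonempty) :
    ∃ (m₀ : ℤ) (Θ : Finset TT) (η : ℝ), m₀ ≠ 0 ∧ 0 < η ∧ ∀ m : ℤ,
      (∀ θ ∈ Θ, ‖(m - m₀) • θ‖ < η ∧ ‖(m ^ 2 - m₀ ^ 2) • θ‖ < η) →
      ∃ p ∈ V, p ∈ M ∧ p.2 = loc m := by
  -- shrink to a closed neighbourhood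
  obtain ⟨p₀, hp₀V, hp₀M⟩ := hVM
  obtain ⟨C, hCn, hCc, hCV⟩ := exists_mem_nhds_isClosed_subset (hV.mem_nhds hp₀V)
  obtain ⟨g, hg⟩ := h.synd isOpen_interior ⟨p₀, mem_interior_iff_mem_nhds.2 hCn, hp₀M⟩
  let Z : Set LS := Prod.snd '' M
  have hZc : IsCompact Z := h.closed.isCompact.image continuous_snd
  have hcompZ : CompactSpace Z := isCompact_iff_compactSpace.1 hZc
  have hZne : Nonempty Z := by
    obtain ⟨p, hp⟩ := h.ne
    exact ⟨⟨p.2, p, hp, rfl⟩⟩
  let D : Set LS := Prod.snd '' (C ∩ M)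
  have hD : IsClosed D := ((hCc.inter h.closed).isCompact.image continuous_snd).isClosed
  let f : Fin g → Set Z := fun i => {w : Z | lact (i.1 : ℤ) w.1 ∈ D}
  have hf : ∀ i, IsClosed (f i) := fun i =>
    hD.preimage ((continuous_lact _).comp continuous_subtype_val)
  have hfu : ⋃ i, f i = univ := by
    rw [eq_univ_iff_forall]
    rintro ⟨w, p, hp, rfl⟩
    obtain ⟨n, hn0, hn1, hn2⟩ := hg p hp
    rw [mem_iUnion]
    refine ⟨⟨n.toNat, by omega⟩, ?_⟩
    show lact ((n.toNat : ℕ) : ℤ) p.2 ∈ D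
    rw [Int.toNat_of_nonneg hn0]
    exact ⟨act n p, ⟨interior_subset hn2, h.inv n p hp⟩, rfl⟩
  obtain ⟨i, hi⟩ := nonempty_interior_of_iUnion_of_closed hf hfu
  obtain ⟨G, hG, hGeq⟩ := isOpen_induced_iff.1 (isOpen_interior (s := f i))
  obtain ⟨⟨w, p, hp, hpw⟩, hwi⟩ := hi
  have hwG : w ∈ G := by
    have : (⟨w, p, hp, hpw⟩ : Z) ∈ Subtype.val ⁻¹' G := by rw [hGeq]; exact hwi
    exact this
  -- approximate by an integer location
  obtain ⟨b, hb0, hbG⟩ := h.approx hp (hG.preimage continuous_snd)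
    (show p.2 ∈ G by rw [hpw]; exact hwG) (1 : ℤ)
  have hbG' : loc b ∈ G := by
    have : (act b (base χ)).2 = loc b := by rw [act_base]; rfl
    rw [← this]; exact hbG
  refine ⟨b + i.1, ?_⟩
  have hG' : IsOpen (lact (-(i.1 : ℤ)) ⁻¹' G) := hG.preimage (continuous_lact _)
  have hmem : loc (b + i.1) ∈ lact (-(i.1 : ℤ)) ⁻¹' G := by
    show lact (-(i.1 : ℤ)) (loc (b + i.1)) ∈ G
    rw [lact_loc]
    have : -(i.1 : ℤ) + (b + i.1) = b := by ring
    rw [this]; exact hbG'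
  obtain ⟨Θ, η, hη, h1⟩ := exists_basic2 hG' hmem
  refine ⟨Θ, η, by omega, hη, fun m hm => ?_⟩
  have h2 : loc m ∈ lact (-(i.1 : ℤ)) ⁻¹' G := by
    apply h1
    intro θ hθ
    have := hm θ hθ
    simp only [loc]
    rw [← sub_smul, ← sub_smul]
    exact this
  have h3 : lact (-(i.1 : ℤ)) (loc m) ∈ G := h2
  rw [lact_loc] at h3
  obtain ⟨q, hqM, hq⟩ := h.exact hZ (-(i.1 : ℤ) + m)
  have h4 : (⟨loc (-(i.1 : ℤ) + m), q, hqM, hq⟩ : Z) ∈ f i := by
    apply interior_subset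
    rw [← hGeq]
    exact h3
  have h5 : lact (i.1 : ℤ) (loc (-(i.1 : ℤ) + m)) ∈ D := h4
  rw [lact_loc] at h5
  have h6 : (i.1 : ℤ) + (-(i.1 : ℤ) + m) = m := by ring
  rw [h6] at h5
  obtain ⟨p', ⟨hp'C, hp'M⟩, hp'⟩ := h5
  exact ⟨p', hCV hp'C, hp'M, hp'⟩

end Pool.Agent.MP31db24
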