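import Pool.Agent.Lib.MP_31db24_co.Hamel
import Pool.Agent.Lib.MP_31db24_co.Arith

set_option autoImplicit false

namespace Pool.Agent.MP31db24

open Finset

theorem return_zero : ReturnZero := by
  intro Θ δ hδ
  obtain ⟨B, h1, hB, hspan⟩ := exists_hamel
  obtain ⟨I, D, hI, hD, hrep⟩ := exists_rep_finset hspan Θ
  obtain ⟨δ', hδ', hcl⟩ := close_finset hD Θ hrep hδ
  obtain ⟨g, hg⟩ := weyl_density h1 hB I hI D hD δ' hδ'
  refine ⟨g, fun a => ?_⟩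
  obtain ⟨n, hn1, hn2, hn3, hn4⟩ := hg a 0 (fun _ => 0) (fun _ => 0)
  rw [sub_zero] at hn3
  refine ⟨n, fun θ hθ => ⟨hcl n ⟨hn3, fun i hi => ?_⟩ θ hθ,
    hcl (n ^ 2) ⟨Dvd.dvd.trans hn3 (dvd_pow_self n two_ne_zero), fun i hi => ?_⟩ θ hθ⟩, hn1, hn2⟩
  · have := (hn4 i hi).1
    rwa [sub_zero] at this
  · have := (hn4 i hi).2
    rw [sub_zero] at this
    push_cast
    exact this

/-- Differences of phases. -/
theorem phase_sub (n m : ℤ) (i : ℝ) (D : ℝ) :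
    (((n - m : ℤ) : ℝ) * i / D) = n * i / D - m * i / D := by
  push_cast
  ring

theorem nt_zero : NtZero := by
  classical
  intro m Θ₀ η hη
  obtain ⟨B, h1, hB, hspan⟩ := exists_hamel
  obtain ⟨I₀, D₀, hI₀, hD₀, hrep₀⟩ := exists_rep_finset hspan Θ₀
  obtain ⟨δ₀, hδ₀, hcl₀⟩ := close_finset hD₀ Θ₀ hrep₀ hη
  have hD₀r : (0 : ℝ) < D₀ := by exact_mod_cast hD₀
  refine ⟨{((1 / (D₀ : ℝ) : ℝ) : TT)}, 1 / D₀, by positivity, fun u hu Θ δ hδ => ?_⟩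
  have hum : (D₀ : ℤ) ∣ u - m := dvd_of_close hD₀ (hu _ (Finset.mem_singleton_self _))
  obtain ⟨I', D', hI', hD', hrep'⟩ := exists_rep_finset hspan Θ
  have hD'r : (0 : ℝ) < D' := by exact_mod_cast hD'
  let I : Finset ℝ := I₀ ∪ I'
  have hI : ∀ i ∈ I, i ∈ B ∧ i ≠ 1 := by
    intro i hi
    rcases Finset.mem_union.1 hi with h | h
    · exact hI₀ i h
    · exact hI' i h
  have hD : 0 < D₀ * D' := Nat.mul_pos hD₀ hD'
  obtain ⟨δ', hδ', hcl'⟩ := close_finset (I := I) hD Θ (fun θ hθ => by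
    obtain ⟨x, hx, hr⟩ := hrep' θ hθ
    exact ⟨x, hx, hr.mono Finset.subset_union_right (Dvd.intro_left D₀ rfl)⟩) hδ
  let ε : ℝ := min δ' (δ₀ / D')
  have hε : 0 < ε := lt_min hδ' (by positivity)
  obtain ⟨g, hg⟩ := weyl_density h1 hB I hI (D₀ * D') hD ε hε
  obtain ⟨n, -, -, hn3, hn4⟩ := hg 0 u (fun i => u * i / ((D₀ * D' : ℕ) : ℝ))
    (fun i => ((m ^ 2 : ℤ) : ℝ) * i / ((D₀ * D' : ℕ) : ℝ))
  refine ⟨n, ?_, ?_⟩
  · apply hcl'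
    refine ⟨hn3, fun i hi => ?_⟩
    rw [phase_sub]
    exact lt_of_lt_of_le (hn4 i hi).1 (min_le_left _ _)
  · apply hcl₀
    have hn5 : (D₀ : ℤ) ∣ n - u := Dvd.dvd.trans (by push_cast; exact dvd_mul_right _ _) hn3
    have hnm : (D₀ : ℤ) ∣ n - m := by
      have : n - m = (n - u) + (u - m) := by ring
      rw [this]; exact dvd_add hn5 hum
    refine ⟨?_, fun i hi => ?_⟩
    · have : n ^ 2 - m ^ 2 = (n - m) * (n + m) := by ring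
      rw [this]; exact Dvd.dvd.mul_right hnm _
    · have h2 := (hn4 i (Finset.mem_union_left _ hi)).2
      have h3 : ‖((((n ^ 2 - m ^ 2 : ℤ) : ℝ) * i / ((D₀ * D' : ℕ) : ℝ) : ℝ) : TT)‖ < ε := by
        rw [phase_sub]
        push_cast at h2 ⊢
        exact h2
      have h4 := coarse hD₀ hD' h3
      refine lt_of_lt_of_le h4 ?_
      calc (D' : ℝ) * ε ≤ D' * (δ₀ / D') := by gcongr; exact min_le_right _ _
        _ = δ₀ := by field_simp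

theorem nt_core : NtCore := by
  classical
  intro κ _ m hm Θ₀ η hη
  obtain ⟨B, h1, hB, hspan⟩ := exists_hamel
  obtain ⟨I₀, D₀, hI₀, hD₀, hrep₀⟩ := exists_rep_finset hspan Θ₀
  obtain ⟨δ₀, hδ₀, hcl₀⟩ := close_finset hD₀ Θ₀ hrep₀ hη
  have hD₀r : (0 : ℝ) < D₀ := by exact_mod_cast hD₀
  obtain ⟨Q, hQ, hprof⟩ := profinite κ m hm D₀ hD₀
  have hQr : (0 : ℝ) < Q := by exact_mod_cast hQ
  let Θ₁ : Finset TT := insert ((1 / (Q : ℝ) : ℝ) : TT) (I₀.image fun i => ((i / D₀ : ℝ) : TT))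
  refine ⟨Θ₁, min (1 / Q) (δ₀ / 2), lt_min (by positivity) (by positivity),
    fun X₀ e he Θ δ hδ => ?_⟩
  have hQd : ∀ k, (Q : ℤ) ∣ X₀ + e k - m k ^ 2 := by
    intro k
    apply dvd_of_close hQ
    exact lt_of_lt_of_le (he k _ (Finset.mem_insert_self _ _)) (min_le_left _ _)
  have hphase : ∀ k, ∀ i ∈ I₀, ‖((((X₀ + e k - m k ^ 2 : ℤ) : ℝ) * i / D₀ : ℝ) : TT)‖ < δ₀ / 2 := by
    intro k i hi
    have h2 := lt_of_lt_of_le (he k _ (Finset.mem_insert_of_mem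
      (Finset.mem_image_of_mem (fun i => ((i / D₀ : ℝ) : TT)) hi))) (min_le_right _ _)
    rw [coe_smul_int] at h2
    rw [mul_div_assoc]
    exact h2
  obtain ⟨I', D', hI', hD', hrep'⟩ := exists_rep_finset hspan Θ
  have hD'r : (0 : ℝ) < D' := by exact_mod_cast hD'
  let I : Finset ℝ := I₀ ∪ I'
  have hI : ∀ i ∈ I, i ∈ B ∧ i ≠ 1 := by
    intro i hi
    rcases Finset.mem_union.1 hi with h | h
    · exact hI₀ i h
    · exact hI' i h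
  have hD : 0 < D₀ * D' := Nat.mul_pos hD₀ hD'
  have hD₀D : (D₀ : ℤ) ∣ ((D₀ * D' : ℕ) : ℤ) := by push_cast; exact dvd_mul_right _ _
  obtain ⟨δ', hδ', hcl'⟩ := close_finset (I := I) hD Θ (fun θ hθ => by
    obtain ⟨x, hx, hr⟩ := hrep' θ hθ
    exact ⟨x, hx, hr.mono Finset.subset_union_right (Dvd.intro_left D₀ rfl)⟩) hδ
  let ε : ℝ := min δ' (δ₀ / 4 / D')
  have hε : 0 < ε := lt_min hδ' (by positivity)
  have hεD : (D' : ℝ) * ε ≤ δ₀ / 4 := by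
    calc (D' : ℝ) * ε ≤ D' * (δ₀ / 4 / D') := by gcongr; exact min_le_right _ _
      _ = δ₀ / 4 := by field_simp
  obtain ⟨Xb, nb, hs1, hs2, hs3⟩ := hprof X₀ e hQd (D₀ * D') hD
  have hgcd : D₀.gcd (D₀ * D') = D₀ := Nat.gcd_eq_left (Nat.dvd_mul_right _ _)
  rw [hgcd] at hs2 hs3
  obtain ⟨g, hg⟩ := weyl_density h1 hB I hI (D₀ * D') hD ε hε
  obtain ⟨X, -, -, hX3, hX4⟩ := hg 0 Xb (fun i => X₀ * i / ((D₀ * D' : ℕ) : ℝ)) (fun _ => 0)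
  have hn : ∀ k, ∃ n : ℤ, ((D₀ * D' : ℕ) : ℤ) ∣ n - nb k ∧ ∀ i ∈ I,
      ‖((n * i / ((D₀ * D' : ℕ) : ℝ) - (m k) * i / ((D₀ * D' : ℕ) : ℝ) : ℝ) : TT)‖ < ε ∧
      ‖(((n : ℝ) ^ 2 * i / ((D₀ * D' : ℕ) : ℝ) -
        ((X + e k : ℤ) : ℝ) * i / ((D₀ * D' : ℕ) : ℝ) : ℝ) : TT)‖ < ε := by
    intro k
    obtain ⟨n, -, -, h2, h3⟩ := hg 0 (nb k) (fun i => (m k) * i / ((D₀ * D' : ℕ) : ℝ))
      (fun i => ((X + e k : ℤ) : ℝ) * i / ((D₀ * D' : ℕ) : ℝ))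
    exact ⟨n, h2, h3⟩
  choose n hn1 hn2 using hn
  -- X is close to X₀
  have hXX : (D₀ : ℤ) ∣ X - X₀ := by
    have : X - X₀ = (X - Xb) + (Xb - X₀) := by ring
    rw [this]; exact dvd_add (hD₀D.trans hX3) hs2
  have hXph : ∀ i ∈ I₀, ‖((((X - X₀ : ℤ) : ℝ) * i / D₀ : ℝ) : TT)‖ < δ₀ / 4 := by
    intro i hi
    have h2 := (hX4 i (Finset.mem_union_left _ hi)).1
    rw [← phase_sub] at h2
    exact lt_of_lt_of_le (coarse hD₀ hD' h2) hεD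
  have hnm : ∀ k, (D₀ : ℤ) ∣ n k - m k := by
    intro k
    have : n k - m k = (n k - nb k) + (nb k - m k) := by ring
    rw [this]; exact dvd_add (hD₀D.trans (hn1 k)) (hs3 k)
  have hnX : ∀ k, ((D₀ * D' : ℕ) : ℤ) ∣ n k ^ 2 - X - e k := by
    intro k
    have h2 : n k ^ 2 - X - e k = (nb k ^ 2 - Xb - e k) + (n k - nb k) * (n k + nb k) -
        (X - Xb) := by ring
    rw [h2]
    exact dvd_sub (dvd_add (hs1 k) (Dvd.dvd.mul_right (hn1 k) _)) hX3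
  have hnXph : ∀ k, ∀ i ∈ I,
      ‖((((n k ^ 2 - X - e k : ℤ) : ℝ) * i / ((D₀ * D' : ℕ) : ℝ) : ℝ) : TT)‖ < ε := by
    intro k i hi
    have h2 := (hn2 k i hi).2
    have h3 : (((n k ^ 2 - X - e k : ℤ) : ℝ) * i / ((D₀ * D' : ℕ) : ℝ)) =
        ((n k : ℝ) ^ 2 * i / ((D₀ * D' : ℕ) : ℝ) -
        ((X + e k : ℤ) : ℝ) * i / ((D₀ * D' : ℕ) : ℝ)) := by
      push_cast
      ring
    rw [h3]
    exact h2
  refine ⟨X, n, ?_, ?_, ?_⟩
  · apply hcl₀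
    exact ⟨hXX, fun i hi => (hXph i hi).trans (by linarith)⟩
  · intro k θ hθ
    refine ⟨hcl₀ _ ⟨hnm k, fun i hi => ?_⟩ θ hθ, hcl₀ _ ⟨?_, fun i hi => ?_⟩ θ hθ⟩
    · have h2 := (hn2 k i (Finset.mem_union_left _ hi)).1
      rw [← phase_sub] at h2
      exact lt_of_lt_of_le (coarse hD₀ hD' h2) (hεD.trans (by linarith))
    · have : n k ^ 2 - m k ^ 2 = (n k - m k) * (n k + m k) := by ring
      rw [this]; exact Dvd.dvd.mul_right (hnm k) _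
    · have h2 := lt_of_lt_of_le (coarse hD₀ hD' (hnXph k i (Finset.mem_union_left _ hi))) hεD
      have h3 := hXph i hi
      have h4 := hphase k i hi
      have h5 : (((n k ^ 2 - m k ^ 2 : ℤ) : ℝ) * i / D₀) =
          (((n k ^ 2 - X - e k : ℤ) : ℝ) * i / D₀) + (((X - X₀ : ℤ) : ℝ) * i / D₀) +
          (((X₀ + e k - m k ^ 2 : ℤ) : ℝ) * i / D₀) := by
        push_cast
        ring
      rw [h5, AddCircle.coe_add, AddCircle.coe_add]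
      calc _ ≤ _ := norm_add₃_le
        _ < δ₀ / 4 + δ₀ / 4 + δ₀ / 2 := by linarith
        _ = δ₀ := by ring
  · intro k
    apply hcl'
    exact ⟨hnX k, fun i hi => lt_of_lt_of_le (hnXph k i hi) (min_le_left _ _)⟩

end Pool.Agent.MP31db24
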