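import Pool.Agent.Lib.MP_31db24_co.Defs

set_option autoImplicit false

open Filter Topology

namespace Pool.Agent.MP31db24.RZ

attribute [local instance] Ultrafilter.add Ultrafilter.addSemigroup

lemma exists_lim (U : Ultrafilter ℤ) (f : ℤ → TT) : ∃ x : TT, Tendsto f (U : Filter ℤ) (𝓝 x) := by
  obtain ⟨x, _, hx⟩ := (isCompact_univ (X := TT)).ultrafilter_le_nhds (U.map f) (by simp)
  exact ⟨x, hx⟩

lemma ev_norm {U : Filter ℤ} {f : ℤ → TT} {x : TT} (h : Tendsto f U (𝓝 x)) (ε : ℝ) (hε : 0 < ε) :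
    ∀ᶠ m in U, ‖f m - x‖ < ε := by
  have := (Metric.tendsto_nhds.1 h) ε hε
  simpa only [dist_eq_norm] using this

lemma eq_zero_of_small (x : TT) (c : ℝ) (hc : 0 < c) (h : ∀ ε : ℝ, 0 < ε → ‖x‖ ≤ c * ε) :
    x = 0 := by
  by_contra hne
  have hpos : 0 < ‖x‖ := norm_pos_iff.2 hne
  have := h (‖x‖ / (2 * c)) (by positivity)
  have h2 : c * (‖x‖ / (2 * c)) = ‖x‖ / 2 := by field_simp
  rw [h2] at this
  linarith

lemma idem_lin (U : Ultrafilter ℤ) (hU : U + U = U) (θ : TT) :
    Tendsto (fun b : ℤ => b • θ) (U : Filter ℤ) (𝓝 0) := by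
  obtain ⟨x, hx⟩ := exists_lim U (fun b : ℤ => b • θ)
  have hx0 : x = 0 := by
    refine eq_zero_of_small x 3 (by norm_num) (fun ε hε => ?_)
    have h1 := ev_norm hx ε hε
    have h2 : ∀ᶠ m in (U : Filter ℤ), ∀ᶠ m' in (U : Filter ℤ), ‖(m + m') • θ - x‖ < ε := by
      have := Ultrafilter.eventually_add U U (fun m => ‖m • θ - x‖ < ε)
      rw [← this, hU]; exact h1
    obtain ⟨m, hm1, hm2⟩ := (h1.and h2).exists
    obtain ⟨m', hm'1, hm'2⟩ := (h1.and hm2).exists
    have e : x = ((m + m') • θ - x) - (m • θ - x) - (m' • θ - x) := by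
      rw [add_smul]; abel
    rw [e]
    have n1 := norm_sub_le (((m + m') • θ - x) - (m • θ - x)) (m' • θ - x)
    have n2 := norm_sub_le ((m + m') • θ - x) (m • θ - x)
    linarith
  rw [← hx0]; exact hx

lemma idem_sq (U : Ultrafilter ℤ) (hU : U + U = U) (θ : TT) :
    Tendsto (fun b : ℤ => b ^ 2 • θ) (U : Filter ℤ) (𝓝 0) := by
  obtain ⟨x, hx⟩ := exists_lim U (fun b : ℤ => b ^ 2 • θ)
  have hx0 : x = 0 := by
    refine eq_zero_of_small x 4 (by norm_num) (fun ε hε => ?_)
    have h1 := ev_norm hx ε hε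
    have h2 : ∀ᶠ m in (U : Filter ℤ), ∀ᶠ m' in (U : Filter ℤ), ‖(m + m') ^ 2 • θ - x‖ < ε := by
      have := Ultrafilter.eventually_add U U (fun m => ‖m ^ 2 • θ - x‖ < ε)
      rw [← this, hU]; exact h1
    obtain ⟨m, hm1, hm2⟩ := (h1.and h2).exists
    have h3 := ev_norm (idem_lin U hU ((2 * m) • θ)) ε hε
    obtain ⟨m', ⟨hm'1, hm'2⟩, hm'3⟩ := ((h1.and hm2).and h3).exists
    have e : x = ((m + m') ^ 2 • θ - x) - (m ^ 2 • θ - x) - (m' ^ 2 • θ - x) -
        (m' • ((2 * m) • θ) - 0) := by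
      rw [smul_smul, show (m + m') ^ 2 = m ^ 2 + m' ^ 2 + m' * (2 * m) by ring, add_smul, add_smul]
      abel
    rw [e]
    have n1 := norm_sub_le (((m + m') ^ 2 • θ - x) - (m ^ 2 • θ - x) - (m' ^ 2 • θ - x))
      (m' • ((2 * m) • θ) - 0)
    have n2 := norm_sub_le (((m + m') ^ 2 • θ - x) - (m ^ 2 • θ - x)) (m' ^ 2 • θ - x)
    have n3 := norm_sub_le ((m + m') ^ 2 • θ - x) (m ^ 2 • θ - x)
    linarith
  rw [← hx0]; exact hx

/-- a set lying in every idempotent ultrafilter is syndetic -/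
lemma syn_of_idem (R : Set ℤ) (hR : ∀ U : Ultrafilter ℤ, U + U = U → R ∈ U) : Syn R := by
  by_contra hS
  unfold Syn at hS
  push Not at hS
  let K : Set (Ultrafilter ℤ) := {V | ∀ t : ℤ, {n : ℤ | n + t ∉ R} ∈ V}
  have hne : K.Nonempty := by
    -- finite intersection property
    let F : Filter ℤ := ⨅ t : ℤ, 𝓟 {n : ℤ | n + t ∉ R}
    have hF : F.NeBot := by
      rw [Filter.neBot_iff]
      intro hbot
      have hmem : (∅ : Set ℤ) ∈ F := by rw [hbot]; exact Filter.mem_bot
      rw [Filter.mem_iInf] at hmem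
      obtain ⟨I, hI, V, hV, hVe⟩ := hmem
      -- all t in I lie in [-B, B]
      obtain ⟨B, hB⟩ : ∃ B : ℕ, ∀ t ∈ I, |t| ≤ (B : ℤ) := by
        obtain ⟨B, hB⟩ := (hI.image (fun t : ℤ => t.natAbs)).bddAbove
        refine ⟨B, fun t ht => ?_⟩
        have := hB ⟨t, ht, rfl⟩
        simp only at this
        rw [Int.abs_eq_natAbs]
        exact_mod_cast this
      obtain ⟨a, ha⟩ := hS (2 * B + 1)
      have hx : (a + B) ∈ ⋂ i : I, V i := by
        rw [Set.mem_iInter]
        intro i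
        have hi := hV i
        rw [Filter.mem_principal] at hi
        apply hi
        show a + B + (i : ℤ) ∉ R
        intro hin
        have h1 := hB i i.2
        rw [abs_le] at h1
        have h2 := ha _ hin (by omega)
        push_cast at h2
        omega
      rw [← hVe] at hx
      exact hx
    refine ⟨Ultrafilter.of F, fun t => ?_⟩
    exact Ultrafilter.of_le F (Filter.mem_iInf_of_mem t (Filter.mem_principal_self _))
  have hclosed : IsClosed K := by
    have : K = ⋂ t : ℤ, {V : Ultrafilter ℤ | {n : ℤ | n + t ∉ R} ∈ V} := by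
      ext V; simp only [K, Set.mem_ofPred_eq, Set.mem_iInter]
    rw [this]
    exact isClosed_iInter (fun t => ultrafilter_isClosed_basic _)
  obtain ⟨U, hUK, hUU⟩ := exists_idempotent_in_compact_add_subsemigroup
    (fun V : Ultrafilter ℤ => Ultrafilter.continuous_add_left V) K hne hclosed.isCompact (by
      intro V hV V' hV' t
      have h : ∀ᶠ m in ((V + V' : Ultrafilter ℤ) : Filter ℤ), m + t ∉ R := by
        rw [Ultrafilter.eventually_add]
        refine Filter.Eventually.of_forall (fun m => ?_)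
        have := hV' (m + t)
        have h2 : ∀ᶠ m' in (V' : Filter ℤ), m' + (m + t) ∉ R := this
        filter_upwards [h2] with m' hm'
        rw [show m + m' + t = m' + (m + t) by ring]; exact hm'
      exact h)
  have h0 := hUK 0
  have h1 := hR U hUU
  have h2 := (U : Filter ℤ).inter_mem h0 h1
  obtain ⟨n, hn1, hn2⟩ := Ultrafilter.nonempty_of_mem h2
  simp only [Set.mem_ofPred_eq, add_zero] at hn1
  exact hn1 hn2

theorem returnZero : ReturnZero := by
  intro Θ δ hδ
  refine syn_of_idem _ (fun U hU => ?_)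
  have h : ∀ᶠ b in (U : Filter ℤ), ∀ θ ∈ Θ, ‖b • θ‖ < δ ∧ ‖b ^ 2 • θ‖ < δ := by
    rw [Filter.eventually_all_finset]
    intro θ _
    have h1 := ev_norm (idem_lin U hU θ) δ hδ
    have h2 := ev_norm (idem_sq U hU θ) δ hδ
    filter_upwards [h1, h2] with b hb1 hb2
    simp only [sub_zero] at hb1 hb2
    exact ⟨hb1, hb2⟩
  exact h

end Pool.Agent.MP31db24.RZ

/-- Module B, part Z. -/
theorem Pool.Agent.MP31db24.return_zero : Pool.Agent.MP31db24.ReturnZero :=
  Pool.Agent.MP31db24.RZ.returnZero
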