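import Mathlib

set_option autoImplicit false

namespace Pool.Agent.MP31db24

open Finset

/-- The additive character. -/
noncomputable def ee (x : ℝ) : ℂ := Complex.exp (2 * Real.pi * Complex.I * x)

theorem ee_add (x y : ℝ) : ee (x + y) = ee x * ee y := by
  unfold ee
  rw [← Complex.exp_add]
  congr 1
  push_cast
  ring

theorem ee_zero : ee 0 = 1 := by simp [ee]

theorem ee_norm (x : ℝ) : ‖ee x‖ = 1 := by
  unfold ee
  have : (2 * Real.pi * Complex.I * x : ℂ) = ((2 * Real.pi * x : ℝ) : ℂ) * Complex.I := by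
    push_cast; ring
  rw [this, Complex.norm_exp_ofReal_mul_I]

theorem ee_conj (x : ℝ) : (starRingEnd ℂ) (ee x) = ee (-x) := by
  unfold ee
  rw [← Complex.exp_conj]
  congr 1
  have h2 : (starRingEnd ℂ) 2 = 2 := map_ofNat _ 2
  rw [map_mul, map_mul, map_mul, Complex.conj_I, Complex.conj_ofReal, Complex.conj_ofReal, h2]
  push_cast
  ring

theorem ee_mul_conj (x y : ℝ) : ee x * (starRingEnd ℂ) (ee y) = ee (x - y) := by
  rw [ee_conj, ← ee_add, sub_eq_add_neg]

theorem ee_nat_mul (x : ℝ) (k : ℕ) : ee (k * x) = ee x ^ k := by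
  unfold ee
  rw [← Complex.exp_nat_mul]
  congr 1
  push_cast
  ring

theorem ee_ne_one {x : ℝ} (hx : Irrational x) : ee x ≠ 1 := by
  unfold ee
  rw [Ne, Complex.exp_eq_one_iff]
  rintro ⟨n, hn⟩
  apply hx
  refine ⟨n, ?_⟩
  have h1 : (2 * Real.pi * Complex.I : ℂ) ≠ 0 := Complex.two_pi_I_ne_zero
  have h2 : (x : ℂ) = n := by
    have : (2 * Real.pi * Complex.I : ℂ) * x = (2 * Real.pi * Complex.I) * n := by
      rw [hn]; ring
    exact mul_left_cancel₀ h1 this
  have h3 : x = (n : ℝ) := by exact_mod_cast h2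
  rw [h3]
  simp

theorem sum_lin_bound (θ c : ℝ) (hθ : ee θ ≠ 1) (L : ℕ) :
    ‖∑ k ∈ range L, ee (θ * k + c)‖ ≤ 2 / ‖ee θ - 1‖ := by
  have h1 : ∀ k ∈ range L, ee (θ * k + c) = ee c * ee θ ^ k := by
    intro k _
    rw [← ee_nat_mul, ← ee_add]
    congr 1
    ring
  rw [sum_congr rfl h1, ← mul_sum, norm_mul, ee_norm, one_mul, geom_sum_eq hθ, norm_div]
  have h2 : 0 < ‖ee θ - 1‖ := norm_pos_iff.2 (sub_ne_zero.2 hθ)
  gcongr
  calc ‖ee θ ^ L - 1‖ ≤ ‖ee θ ^ L‖ + ‖(1 : ℂ)‖ := norm_sub_le _ _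
    _ = 2 := by rw [norm_pow, ee_norm]; norm_num

/-- Van der Corput inequality. -/
theorem vdc (z : ℤ → ℂ) (hz : ∀ k, ‖z k‖ ≤ 1) (H : ℕ) (hH : 0 < H) (C : ℝ) (L : ℕ) (a : ℤ)
    (hC : ∀ h ∈ range H, ∀ h' ∈ range H, h ≠ h' →
      ‖∑ k ∈ range L, z (a + k + h) * (starRingEnd ℂ) (z (a + k + h'))‖ ≤ C) (hC0 : 0 ≤ C) :
    ‖∑ k ∈ range L, z (a + k)‖ ^ 2 ≤ 2 * (2 * H) ^ 2 + 2 * (L ^ 2 / H + L * C) := by
  set S : ℕ → ℂ := fun h => ∑ k ∈ range L, z (a + k + h) with hS
  have hstep : ∀ h, ‖S h - S (h + 1)‖ ≤ 2 := by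
    intro h
    have h1 : S h + z (a + L + h) = z (a + h) + S (h + 1) := by
      simp only [hS]
      have h2 := Finset.sum_range_succ (fun k : ℕ => z (a + k + h)) L
      have h3 := Finset.sum_range_succ' (fun k : ℕ => z (a + k + h)) L
      rw [h2] at h3
      rw [h3, add_comm]
      congr 1
      · push_cast; congr 1; ring
      · refine sum_congr rfl fun k _ => ?_
        congr 1; push_cast; ring
    have h4 : S h - S (h + 1) = z (a + h) - z (a + L + h) := by linear_combination h1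
    rw [h4]
    calc _ ≤ ‖z (a + h)‖ + ‖z (a + L + h)‖ := norm_sub_le _ _
      _ ≤ 1 + 1 := add_le_add (hz _) (hz _)
      _ = 2 := by norm_num
  have hdiff : ∀ h : ℕ, ‖S 0 - S h‖ ≤ 2 * h := by
    intro h
    induction h with
    | zero => simp
    | succ h ih =>
      calc ‖S 0 - S (h + 1)‖ = ‖(S 0 - S h) + (S h - S (h + 1))‖ := by congr 1; ring
        _ ≤ ‖S 0 - S h‖ + ‖S h - S (h + 1)‖ := norm_add_le _ _
        _ ≤ 2 * h + 2 := add_le_add ih (hstep h)
        _ = 2 * ((h + 1 : ℕ) : ℝ) := by push_cast; ring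
  have hS0 : ∑ k ∈ range L, z (a + k) = S 0 := by
    simp [hS]
  rw [hS0]
  set W : ℕ → ℂ := fun k => ∑ h ∈ range H, z (a + k + h) with hW
  have hT : ∑ h ∈ range H, S h = ∑ k ∈ range L, W k := by
    simp only [hS, hW]
    exact sum_comm
  have hHS : (H : ℂ) * S 0 = ∑ h ∈ range H, (S 0 - S h) + ∑ k ∈ range L, W k := by
    rw [← hT, sum_sub_distrib]
    simp
  have hHr : (0 : ℝ) < H := by exact_mod_cast hH
  have h1 : ‖∑ h ∈ range H, (S 0 - S h)‖ ≤ 2 * H * H := by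
    calc _ ≤ ∑ h ∈ range H, ‖S 0 - S h‖ := norm_sum_le _ _
      _ ≤ ∑ h ∈ range H, (2 * H : ℝ) := by
          refine sum_le_sum fun h hh => (hdiff h).trans ?_
          have : (h : ℝ) ≤ H := by exact_mod_cast (mem_range.1 hh).le
          linarith
      _ = 2 * H * H := by simp; ring
  have h2 : ‖∑ k ∈ range L, W k‖ ^ 2 ≤ L * (H * L + H ^ 2 * C) := by
    calc ‖∑ k ∈ range L, W k‖ ^ 2 ≤ (∑ k ∈ range L, ‖W k‖) ^ 2 := by
          gcongr; exact norm_sum_le _ _
      _ ≤ (range L).card * ∑ k ∈ range L, ‖W k‖ ^ 2 := sq_sum_le_card_mul_sum_sq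
      _ = L * ∑ k ∈ range L, ‖W k‖ ^ 2 := by rw [card_range]
      _ ≤ L * (H * L + H ^ 2 * C) := by
          gcongr
          have h3 : ((∑ k ∈ range L, ‖W k‖ ^ 2 : ℝ) : ℂ) = ∑ h ∈ range H, ∑ h' ∈ range H,
              ∑ k ∈ range L, z (a + k + h) * (starRingEnd ℂ) (z (a + k + h')) := by
            push_cast
            have h4 : ∀ k ∈ range L, ((‖W k‖ : ℂ)) ^ 2 = ∑ h ∈ range H, ∑ h' ∈ range H,
                z (a + k + h) * (starRingEnd ℂ) (z (a + k + h')) := by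
              intro k _
              rw [← Complex.mul_conj']
              simp only [hW]
              rw [map_sum, sum_mul_sum]
            rw [sum_congr rfl h4, sum_comm]
            refine sum_congr rfl fun h _ => ?_
            rw [sum_comm]
          have h5 : (∑ k ∈ range L, ‖W k‖ ^ 2 : ℝ) =
              ‖((∑ k ∈ range L, ‖W k‖ ^ 2 : ℝ) : ℂ)‖ := by
            rw [Complex.norm_real, Real.norm_of_nonneg]
            exact sum_nonneg fun k _ => by positivity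
          rw [h5, h3]
          calc _ ≤ ∑ h ∈ range H, ‖∑ h' ∈ range H,
                ∑ k ∈ range L, z (a + k + h) * (starRingEnd ℂ) (z (a + k + h'))‖ :=
                norm_sum_le _ _
            _ ≤ ∑ h ∈ range H, ∑ h' ∈ range H, ‖∑ k ∈ range L,
                z (a + k + h) * (starRingEnd ℂ) (z (a + k + h'))‖ :=
                sum_le_sum fun h _ => norm_sum_le _ _
            _ ≤ ∑ h ∈ range H, ∑ h' ∈ range H, ((if h' = h then (L : ℝ) else 0) + C) := by
                refine sum_le_sum fun h hh => sum_le_sum fun h' hh' => ?_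
                by_cases heq : h' = h
                · subst heq
                  rw [if_pos rfl]
                  calc _ ≤ ∑ k ∈ range L, ‖z (a + k + h') *
                        (starRingEnd ℂ) (z (a + k + h'))‖ := norm_sum_le _ _
                    _ ≤ ∑ k ∈ range L, (1 : ℝ) := by
                        refine sum_le_sum fun k _ => ?_
                        rw [norm_mul, RCLike.norm_conj]
                        have := hz (a + k + h')
                        have h0 := norm_nonneg (z (a + k + h'))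
                        nlinarith
                    _ = L := by simp
                    _ ≤ L + C := by linarith
                · rw [if_neg heq, zero_add]
                  exact hC h hh h' hh' (Ne.symm heq)
            _ = H * L + H ^ 2 * C := by
                simp only [sum_add_distrib, sum_ite_eq', sum_const, card_range, nsmul_eq_mul]
                rw [sum_congr rfl (g := fun _ => (L : ℝ)) (by
                  intro h hh
                  rw [if_pos hh])]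
                simp
                ring
  have h3 : (H : ℝ) * ‖S 0‖ ≤ 2 * H * H + ‖∑ k ∈ range L, W k‖ := by
    calc (H : ℝ) * ‖S 0‖ = ‖(H : ℂ) * S 0‖ := by rw [norm_mul]; simp
      _ ≤ _ := by
        rw [hHS]
        exact (norm_add_le _ _).trans (by gcongr)
  have h4 : ((H : ℝ) * ‖S 0‖) ^ 2 ≤ 2 * (2 * H * H) ^ 2 + 2 * (L * (H * L + H ^ 2 * C)) := by
    calc ((H : ℝ) * ‖S 0‖) ^ 2 ≤ (2 * H * H + ‖∑ k ∈ range L, W k‖) ^ 2 := by
          gcongr
      _ ≤ 2 * (2 * H * H) ^ 2 + 2 * ‖∑ k ∈ range L, W k‖ ^ 2 := by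
          nlinarith [sq_nonneg (2 * H * H - ‖∑ k ∈ range L, W k‖)]
      _ ≤ _ := by gcongr
  have h5 : (2 : ℝ) * (2 * H) ^ 2 + 2 * (L ^ 2 / H + L * C) =
      (2 * (2 * H * H) ^ 2 + 2 * (L * (H * L + H ^ 2 * C))) / H ^ 2 := by
    field_simp
  rw [h5, le_div_iff₀ (by positivity)]
  calc ‖S 0‖ ^ 2 * H ^ 2 = ((H : ℝ) * ‖S 0‖) ^ 2 := by ring
    _ ≤ _ := h4

/-- Uniform smallness of quadratic Weyl sums. -/
theorem weyl_quad (α β : ℝ) (hβ : Irrational β) (ε : ℝ) (hε : 0 < ε) :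
    ∃ L₀ : ℕ, ∀ L : ℕ, L₀ ≤ L → ∀ a : ℤ,
      ‖∑ k ∈ range L, ee (α * ((a + k : ℤ) : ℝ) + β * ((a + k : ℤ) : ℝ) ^ 2)‖ ≤ ε * L := by
  obtain ⟨H, hH⟩ := exists_nat_gt (4 / ε ^ 2)
  have hH0 : (0 : ℝ) < H := lt_trans (by positivity) hH
  have hHn : 0 < H := by exact_mod_cast hH0
  let C : ℝ := ∑ h ∈ range H, ∑ h' ∈ range H, 2 / ‖ee (2 * β * ((h : ℝ) - h')) - 1‖
  have hC0 : 0 ≤ C := sum_nonneg fun _ _ => sum_nonneg fun _ _ => by positivity
  obtain ⟨L₀, hL₀⟩ := exists_nat_gt ((2 * (2 * H) ^ 2 + 2 * C) * 2 / ε ^ 2 + 1)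
  refine ⟨L₀, fun L hL a => ?_⟩
  have hLr : (L₀ : ℝ) ≤ L := by exact_mod_cast hL
  have hL1 : (1 : ℝ) ≤ L := by
    have : 0 ≤ (2 * (2 * (H : ℝ)) ^ 2 + 2 * C) * 2 / ε ^ 2 := by positivity
    linarith
  have hv := vdc (fun k : ℤ => ee (α * (k : ℝ) + β * (k : ℝ) ^ 2)) (fun k => (ee_norm _).le)
    H hHn C L a (by
      intro h hh h' hh' hne
      have h1 : ∀ k ∈ range L, ee (α * ((a + k + h : ℤ) : ℝ) + β * ((a + k + h : ℤ) : ℝ) ^ 2) *
          (starRingEnd ℂ) (ee (α * ((a + k + h' : ℤ) : ℝ) + β * ((a + k + h' : ℤ) : ℝ) ^ 2)) =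
          ee ((2 * β * ((h : ℝ) - h')) * k +
            (α * (h - h') + β * (2 * a * (h - h') + h ^ 2 - h' ^ 2))) := by
        intro k _
        rw [ee_mul_conj]
        congr 1
        push_cast
        ring
      have h2 : Irrational (2 * β * ((h : ℝ) - h')) := by
        have h3 : (2 * β * ((h : ℝ) - h')) = ((2 * ((h : ℤ) - h') : ℤ) : ℝ) * β := by
          push_cast; ring
        rw [h3]
        refine Irrational.intCast_mul hβ ?_
        intro h4
        apply hne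
        omega
      calc _ = ‖∑ k ∈ range L, ee ((2 * β * ((h : ℝ) - h')) * k +
            (α * (h - h') + β * (2 * a * (h - h') + h ^ 2 - h' ^ 2)))‖ := by
            rw [sum_congr rfl h1]
        _ ≤ 2 / ‖ee (2 * β * ((h : ℝ) - h')) - 1‖ := sum_lin_bound _ _ (ee_ne_one h2) L
        _ ≤ ∑ h' ∈ range H, 2 / ‖ee (2 * β * ((h : ℝ) - h')) - 1‖ :=
            single_le_sum (f := fun h' : ℕ => 2 / ‖ee (2 * β * ((h : ℝ) - h')) - 1‖)
              (fun _ _ => by positivity) hh'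
        _ ≤ C := single_le_sum
              (f := fun h : ℕ => ∑ h' ∈ range H, 2 / ‖ee (2 * β * ((h : ℝ) - h')) - 1‖)
              (fun _ _ => sum_nonneg fun _ _ => by positivity) hh) hC0
  have h6 : ‖∑ k ∈ range L, ee (α * ((a + k : ℤ) : ℝ) + β * ((a + k : ℤ) : ℝ) ^ 2)‖ ^ 2 ≤
      (ε * L) ^ 2 := by
    refine hv.trans ?_
    have h7 : 2 * ((L : ℝ) ^ 2 / H) ≤ ε ^ 2 * L ^ 2 / 2 := by
      have : 4 / ε ^ 2 ≤ H := hH.le
      rw [div_le_iff₀ (by positivity)] at this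
      rw [← mul_div_assoc, div_le_iff₀ hH0]
      nlinarith [sq_nonneg (L : ℝ)]
    have h8 : (2 * (2 * H) ^ 2 + 2 * C) * 2 ≤ ε ^ 2 * L := by
      have h9 : (2 * (2 * H) ^ 2 + 2 * C) * 2 / ε ^ 2 ≤ L := by linarith
      rw [div_le_iff₀ (by positivity)] at h9
      linarith
    have h10 : 2 * (2 * (H : ℝ)) ^ 2 ≤ 2 * (2 * (H : ℝ)) ^ 2 * L := by
      have : 0 ≤ 2 * (2 * (H : ℝ)) ^ 2 := by positivity
      nlinarith
    have h11 : (2 * (2 * (H : ℝ)) ^ 2 + 2 * C) * 2 * L ≤ ε ^ 2 * L * L := by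
      have : (0 : ℝ) ≤ L := by linarith
      exact mul_le_mul_of_nonneg_right h8 this
    nlinarith
  exact le_of_sq_le_sq h6 (by positivity)

/-- Uniform smallness of linear Weyl sums. -/
theorem weyl_lin (α : ℝ) (hα : Irrational α) (ε : ℝ) (hε : 0 < ε) :
    ∃ L₀ : ℕ, ∀ L : ℕ, L₀ ≤ L → ∀ a : ℤ,
      ‖∑ k ∈ range L, ee (α * ((a + k : ℤ) : ℝ))‖ ≤ ε * L := by
  obtain ⟨L₀, hL₀⟩ := exists_nat_gt (2 / ‖ee α - 1‖ / ε)
  refine ⟨L₀, fun L hL a => ?_⟩
  have h1 : ∀ k ∈ range L, ee (α * ((a + k : ℤ) : ℝ)) = ee (α * k + α * a) := by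
    intro k _
    congr 1
    push_cast
    ring
  rw [sum_congr rfl h1]
  refine (sum_lin_bound _ _ (ee_ne_one hα) L).trans ?_
  have h2 : (L₀ : ℝ) ≤ L := by exact_mod_cast hL
  have h3 : 2 / ‖ee α - 1‖ / ε ≤ L := by linarith
  rw [div_le_iff₀ hε] at h3
  linarith

end Pool.Agent.MP31db24
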